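import Mathlib

/-!
# Colourings of complete graphs without monochromatic degree-monotone paths of order 3

The assembly step: a fractional colouring with a large gap gives an honest colouring.
-/

set_option autoImplicit false

namespace Pool.Agent.R69.DegMono

open Finset

/-- degree of `u` in colour `j` inside the set `W` -/
def cdeg {V κ : Type} [DecidableEq V] [DecidableEq κ] (W : Finset V) (c : V → V → κ) (j : κ)
    (u : V) : ℕ := (W.filter fun v => v ≠ u ∧ c u v = j).card

/-- there is a colouring of the pairs of elements of `W` with colours in `κ` such that every colour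
class is bipartite, and every edge has an end of larger degree on the side `true` -/
def Nice {V : Type} (κ : Type) [DecidableEq V] [DecidableEq κ] (W : Finset V) : Prop :=
  ∃ c : V → V → κ, (∀ u v, c u v = c v u) ∧ ∃ τ : κ → V → Bool,
    (∀ u ∈ W, ∀ v ∈ W, u ≠ v → τ (c u v) u ≠ τ (c u v) v) ∧
    (∀ j, ∀ u ∈ W, ∀ v ∈ W, u ≠ v → c u v = j → τ j u = true → τ j v = false →
      cdeg W c j v < cdeg W c j u)

/-- the set of coordinates in which two vectors differ -/
def dif {s : ℕ} (x y : Fin s → Bool) : Fin s → Bool := fun k => xor (x k) (y k)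

theorem dif_comm {s : ℕ} (x y : Fin s → Bool) : dif x y = dif y x := by
  funext k; simp [dif, Bool.xor_comm]

theorem dif_dif {s : ℕ} (x y : Fin s → Bool) : dif x (dif x y) = y := by
  funext k; simp [dif]

theorem dif_apply_iff {s : ℕ} (x y : Fin s → Bool) (k : Fin s) : dif x y k = true ↔ x k ≠ y k := by
  simp only [dif]
  cases x k <;> cases y k <;> simp

theorem exists_dif {s : ℕ} {x y : Fin s → Bool} (h : x ≠ y) : ∃ k, dif x y k = true := by
  by_contra hcon
  push Not at hcon
  apply h
  funext k
  by_contra h1
  exact hcon k ((dif_apply_iff x y k).2 h1)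

/-- choose the coordinate `j₀` if it is in the support of `D`, and otherwise any element of the
support of `D` -/
noncomputable def cr {t : ℕ} (j₀ : Fin t) (D : Fin t → Bool) : Fin t :=
  open Classical in
  if D j₀ = true then j₀ else if h : ∃ j, D j = true then h.choose else j₀

theorem cr_mem {t : ℕ} (j₀ : Fin t) {D : Fin t → Bool} (h : ∃ j, D j = true) :
    D (cr j₀ D) = true := by
  unfold cr
  split_ifs with h1
  · exact h1
  · exact h.choose_spec

theorem cr_self {t : ℕ} {j₀ : Fin t} {D : Fin t → Bool} (h : D j₀ = true) : cr j₀ D = j₀ := by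
  unfold cr
  rw [if_pos h]

/-- the number of supports for which the coordinate `j` is chosen -/
noncomputable def cnt {t : ℕ} (j₀ j : Fin t) : ℕ :=
  ((univ : Finset (Fin t → Bool)).filter fun D => (∃ k, D k = true) ∧ cr j₀ D = j).card

theorem cnt_eq {t : ℕ} (j₀ j : Fin t) (p : Fin t → Bool) :
    ((univ : Finset (Fin t → Bool)).filter fun q => q ≠ p ∧ cr j₀ (dif p q) = j).card =
      cnt j₀ j := by
  unfold cnt
  refine card_bij' (fun q _ => dif p q) (fun D _ => dif p D) ?_ ?_ ?_ ?_
  · intro q hq
    simp only [mem_filter, mem_univ, true_and] at hq ⊢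
    exact ⟨exists_dif (Ne.symm hq.1), hq.2⟩
  · intro D hD
    simp only [mem_filter, mem_univ, true_and] at hD ⊢
    rw [dif_dif]
    refine ⟨?_, hD.2⟩
    intro h
    obtain ⟨k, hk⟩ := hD.1
    have h1 := congrFun h k
    simp only [dif, hk] at h1
    cases hp : p k <;> rw [hp] at h1 <;> simp at h1
  · intro q _; exact dif_dif p q
  · intro D _; exact dif_dif p D

section assembly

variable {s : ℕ} {Y κ : Type} [Fintype Y] [DecidableEq Y] [DecidableEq κ]

/-- the pair of `(x, y)` and `(x', y')` is coloured with the `i`-th coordinate of the first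
factor, though `y ≠ y'` -/
def Cross (Rel : Fin s → Y → Y → Prop) (i : Fin s) (w w' : (Fin s → Bool) × Y) : Prop :=
  (w.1 i = true ∧ w'.1 i = false ∧ Rel i w.2 w'.2) ∨
    (w'.1 i = true ∧ w.1 i = false ∧ Rel i w'.2 w.2)

omit [Fintype Y] [DecidableEq Y] in
theorem Cross.symm {Rel : Fin s → Y → Y → Prop} {i : Fin s} {w w' : (Fin s → Bool) × Y}
    (h : Cross Rel i w w') : Cross Rel i w' w := Or.symm h

/-- the colouring -/
noncomputable def col (i₀ : Fin s) (Rel : Fin s → Y → Y → Prop) (χ : (Fin s → Bool) → Y → Y → κ)
    (w w' : (Fin s → Bool) × Y) : Fin s ⊕ κ :=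
  open Classical in
  if w.2 = w'.2 then Sum.inl (cr i₀ (dif w.1 w'.1))
  else if h : ∃ i, Cross Rel i w w' then Sum.inl h.choose
  else Sum.inr (χ (dif w.1 w'.1) w.2 w'.2)

/-- **Assembly.** -/
theorem nice_of_system (i₀ : Fin s) (χ : (Fin s → Bool) → Y → Y → κ)
    (hχ : ∀ D y y', χ D y y' = χ D y' y) (τ : κ → Y → Bool)
    (hτ : ∀ D y y', y ≠ y' → τ (χ D y y') y ≠ τ (χ D y y') y')
    (A : κ → ℕ) (g : ℕ)
    (hH : ∀ j y, τ j y = true →
      A j ≤ ((univ : Finset ((Fin s → Bool) × Y)).filter fun w => w.2 ≠ y ∧ χ w.1 y w.2 = j).card)
    (hL : ∀ j y, τ j y = false →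
      ((univ : Finset ((Fin s → Bool) × Y)).filter fun w => w.2 ≠ y ∧ χ w.1 y w.2 = j).card + g
        ≤ A j)
    (Rel : Fin s → Y → Y → Prop) [∀ i y y', Decidable (Rel i y y')] (m : ℕ) (P₀ : Finset Y)
    (ha : ∀ i y, ((univ : Finset Y).filter fun y' => Rel i y y').card = m)
    (hb : ∀ i y', ((univ : Finset Y).filter fun y => Rel i y y').card = m)
    (hc : ∀ i y', ∃ y ∈ P₀, Rel i y y')
    (hd : ∀ i i' y y', Rel i y y' → Rel i' y y' → i = i')
    (he : ∀ i i' y y', Rel i y y' → ¬ Rel i' y' y)
    (hE : s * (2 ^ s * m) + P₀.card < g) :
    Nice (Fin s ⊕ κ) ((univ : Finset ((Fin s → Bool) × Y)).filter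
      fun w => ¬ (w.1 = (fun _ => true) ∧ w.2 ∈ P₀)) := by
  classical
  have hf : ∀ i y, ¬ Rel i y y := fun i y h => he i i y y h h
  have hu : ∀ i i' w w', Cross Rel i w w' → Cross Rel i' w w' → i = i' := by
    rintro i i' w w' (h1 | h1) (h2 | h2)
    · exact hd _ _ _ _ h1.2.2 h2.2.2
    · exact absurd h2.2.2 (he _ _ _ _ h1.2.2)
    · exact absurd h2.2.2 (he _ _ _ _ h1.2.2)
    · exact hd _ _ _ _ h1.2.2 h2.2.2
  have hne : ∀ i w w', Cross Rel i w w' → w.2 ≠ w'.2 := by
    rintro i w w' (h1 | h1) h
    · rw [h] at h1; exact hf _ _ h1.2.2
    · rw [h] at h1; exact hf _ _ h1.2.2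
  -- the three cases of the colouring
  have hcol1 : ∀ w w', w.2 = w'.2 → col i₀ Rel χ w w' = Sum.inl (cr i₀ (dif w.1 w'.1)) := by
    intro w w' h
    unfold col
    rw [if_pos h]
  have hcol2 : ∀ i w w', Cross Rel i w w' → col i₀ Rel χ w w' = Sum.inl i := by
    intro i w w' h
    unfold col
    rw [if_neg (hne i w w' h), dif_pos ⟨i, h⟩]
    congr 1
    exact hu _ _ _ _ (Exists.choose_spec (⟨i, h⟩ : ∃ i, Cross Rel i w w')) h
  have hcol3 : ∀ w w', w.2 ≠ w'.2 → (¬ ∃ i, Cross Rel i w w') →
      col i₀ Rel χ w w' = Sum.inr (χ (dif w.1 w'.1) w.2 w'.2) := by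
    intro w w' h1 h2
    unfold col
    rw [if_neg h1, dif_neg h2]
  set W := (univ : Finset ((Fin s → Bool) × Y)).filter
      fun w => ¬ (w.1 = (fun _ => true) ∧ w.2 ∈ P₀) with hW
  refine ⟨col i₀ Rel χ, ?_, Sum.elim (fun i w => w.1 i) (fun j w => τ j w.2), ?_, ?_⟩
  · -- symmetry
    intro w w'
    by_cases h1 : w.2 = w'.2
    · rw [hcol1 _ _ h1, hcol1 _ _ h1.symm, dif_comm]
    · by_cases h2 : ∃ i, Cross Rel i w w'
      · obtain ⟨i, hi⟩ := h2
        rw [hcol2 i _ _ hi, hcol2 i _ _ hi.symm]
      · have h3 : ¬ ∃ i, Cross Rel i w' w := fun ⟨i, hi⟩ => h2 ⟨i, hi.symm⟩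
        rw [hcol3 _ _ h1 h2, hcol3 _ _ (Ne.symm h1) h3, dif_comm, hχ]
  · -- bipartite
    intro w _ w' _ hww
    by_cases h1 : w.2 = w'.2
    · rw [hcol1 _ _ h1]
      simp only [Sum.elim_inl]
      have h2 : w.1 ≠ w'.1 := fun h => hww (Prod.ext h h1)
      exact (dif_apply_iff _ _ _).1 (cr_mem i₀ (exists_dif h2))
    · by_cases h2 : ∃ i, Cross Rel i w w'
      · obtain ⟨i, hi⟩ := h2
        rw [hcol2 i _ _ hi]
        simp only [Sum.elim_inl]
        rcases hi with hi | hi
        · rw [hi.1, hi.2.1]; simp
        · rw [hi.1, hi.2.1]; simp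
      · rw [hcol3 _ _ h1 h2]
        simp only [Sum.elim_inr]
        exact hτ _ _ _ h1
  · -- degrees
    rintro (i | j) u hu' v hv' huv hc' hτu hτv
    · -- colours of the first factor
      simp only [Sum.elim_inl] at hτu hτv
      have hlow : cnt i₀ i + ((univ : Finset (Fin s → Bool)).filter fun x => x i = false).card * m ≤
          cdeg W (col i₀ Rel χ) (Sum.inl i) u := by
        have h1 : (((univ : Finset (Fin s → Bool)).filter
            fun q => q ≠ u.1 ∧ cr i₀ (dif u.1 q) = i) ×ˢ ({u.2} : Finset Y)) ∪
            (((univ : Finset (Fin s → Bool)).filter fun x => x i = false) ×ˢ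
              ((univ : Finset Y).filter fun y' => Rel i u.2 y')) ⊆
            W.filter fun v => v ≠ u ∧ col i₀ Rel χ u v = Sum.inl i := by
          intro w hw
          rw [mem_union, mem_product, mem_product] at hw
          simp only [mem_filter, mem_univ, true_and, mem_singleton] at hw
          rw [mem_filter, hW, mem_filter]
          rcases hw with ⟨⟨h1, h2⟩, h3⟩ | ⟨h1, h2⟩
          · have h4 : dif u.1 w.1 i = true := by
              rw [← h2]
              exact cr_mem i₀ (exists_dif (Ne.symm h1))
            have h5 : w.1 i = false := by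
              have := (dif_apply_iff _ _ _).1 h4
              rw [hτu] at this
              simpa using Ne.symm this
            refine ⟨⟨mem_univ _, ?_⟩, ?_, ?_⟩
            · rintro ⟨h6, _⟩
              rw [h6] at h5
              simp at h5
            · intro h; exact h1 (by rw [h])
            · rw [hcol1 _ _ h3.symm, h2]
          · have hcr : Cross Rel i u w := Or.inl ⟨hτu, h1, h2⟩
            refine ⟨⟨mem_univ _, ?_⟩, ?_, hcol2 _ _ _ hcr⟩
            · rintro ⟨h6, _⟩
              rw [h6] at h1
              simp at h1
            · intro h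
              exact hne _ _ _ hcr (by rw [h])
        have h2 := card_le_card h1
        rw [card_union_of_disjoint, card_product, card_product, card_singleton, mul_one,
          cnt_eq, ha] at h2
        · exact h2
        · rw [disjoint_left]
          intro w hw1 hw2
          rw [mem_product] at hw1 hw2
          simp only [mem_filter, mem_univ, true_and, mem_singleton] at hw1 hw2
          rw [hw1.2] at hw2
          exact hf _ _ hw2.2
      have hup : cdeg W (col i₀ Rel χ) (Sum.inl i) v <
          cnt i₀ i + ((univ : Finset (Fin s → Bool)).filter fun x => x i = true).card * m := by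
        obtain ⟨y₀, hy₀, hrel⟩ := hc i v.2
        set C := (((univ : Finset (Fin s → Bool)).filter fun x => x i = true) ×ˢ
              ((univ : Finset Y).filter fun y' => Rel i y' v.2)) with hC
        have hmem : ((fun _ => true : Fin s → Bool), y₀) ∈ C := by
          rw [hC, mem_product]
          simp only [mem_filter, mem_univ, true_and]
          exact hrel
        have h1 : (W.filter fun w => w ≠ v ∧ col i₀ Rel χ v w = Sum.inl i) ⊆
            (((univ : Finset (Fin s → Bool)).filter
            fun q => q ≠ v.1 ∧ cr i₀ (dif v.1 q) = i) ×ˢ ({v.2} : Finset Y)) ∪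
            C.erase ((fun _ => true : Fin s → Bool), y₀) := by
          intro w hw
          rw [mem_filter, hW, mem_filter] at hw
          obtain ⟨⟨_, h1⟩, h2, h3⟩ := hw
          rw [mem_union]
          by_cases h4 : v.2 = w.2
          · left
            rw [hcol1 _ _ h4] at h3
            rw [mem_product]
            simp only [mem_filter, mem_univ, true_and, mem_singleton]
            refine ⟨⟨fun h => h2 (Prod.ext h h4.symm), Sum.inl_injective h3⟩, h4.symm⟩
          · right
            by_cases h5 : ∃ i, Cross Rel i v w
            · obtain ⟨i', hi'⟩ := h5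
              rw [hcol2 _ _ _ hi'] at h3
              obtain rfl : i' = i := Sum.inl_injective h3
              rw [mem_erase]
              rcases hi' with hi' | hi'
              · rw [hτv] at hi'
                simp at hi'
              · refine ⟨?_, ?_⟩
                · intro h
                  apply h1
                  rw [h]
                  exact ⟨rfl, hy₀⟩
                · rw [hC, mem_product]
                  simp only [mem_filter, mem_univ, true_and]
                  exact ⟨hi'.1, hi'.2.2⟩
            · rw [hcol3 _ _ h4 h5] at h3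
              simp at h3
        have h2 := card_le_card h1
        have h3 := h2.trans (card_union_le _ _)
        rw [card_erase_of_mem hmem, card_product, card_singleton, mul_one, cnt_eq, hC,
          card_product, hb] at h3
        have h4 : 0 < C.card := card_pos.2 ⟨_, hmem⟩
        rw [hC, card_product, hb] at h4
        unfold cdeg
        omega
      have hflip : ((univ : Finset (Fin s → Bool)).filter fun x => x i = true).card =
          ((univ : Finset (Fin s → Bool)).filter fun x => x i = false).card := by
        refine card_bij' (fun x _ => fun k => !x k) (fun x _ => fun k => !x k) ?_ ?_ ?_ ?_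
        · intro x hx
          simp only [mem_filter, mem_univ, true_and] at hx ⊢
          simp [hx]
        · intro x hx
          simp only [mem_filter, mem_univ, true_and] at hx ⊢
          simp [hx]
        · intro x _; funext k; simp
        · intro x _; funext k; simp
      rw [hflip] at hup
      exact lt_of_lt_of_le hup hlow
    · -- colours of the second factor
      simp only [Sum.elim_inr] at hτu hτv
      -- the full neighbourhood
      have hfull : ∀ w : (Fin s → Bool) × Y,
          ((univ : Finset ((Fin s → Bool) × Y)).filter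
            fun w' => w'.2 ≠ w.2 ∧ χ (dif w.1 w'.1) w.2 w'.2 = j).card =
          ((univ : Finset ((Fin s → Bool) × Y)).filter
            fun w' => w'.2 ≠ w.2 ∧ χ w'.1 w.2 w'.2 = j).card := by
        intro w
        refine card_bij' (fun w' _ => (dif w.1 w'.1, w'.2)) (fun w' _ => (dif w.1 w'.1, w'.2))
          ?_ ?_ ?_ ?_
        · intro w' hw'
          simp only [mem_filter, mem_univ, true_and] at hw' ⊢
          exact hw'
        · intro w' hw'
          simp only [mem_filter, mem_univ, true_and] at hw' ⊢
          rw [dif_dif]
          exact hw'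
        · intro w' _; simp only [dif_dif]
        · intro w' _; simp only [dif_dif]
      have hup : cdeg W (col i₀ Rel χ) (Sum.inr j) v + g ≤ A j := by
        refine le_trans (Nat.add_le_add_right ?_ g) (hL j v.2 hτv)
        rw [← hfull v]
        apply card_le_card
        intro w hw
        rw [mem_filter] at hw
        obtain ⟨_, h2, h3⟩ := hw
        rw [mem_filter]
        by_cases h4 : v.2 = w.2
        · rw [hcol1 _ _ h4] at h3
          simp at h3
        · by_cases h5 : ∃ i, Cross Rel i v w
          · obtain ⟨i', hi'⟩ := h5
            rw [hcol2 _ _ _ hi'] at h3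
            simp at h3
          · rw [hcol3 _ _ h4 h5] at h3
            exact ⟨mem_univ _, Ne.symm h4, Sum.inr_injective h3⟩
      have hlow : A j ≤ cdeg W (col i₀ Rel χ) (Sum.inr j) u + (s * (2 ^ s * m) + P₀.card) := by
        refine (hH j u.2 hτu).trans ?_
        rw [← hfull u]
        have h1 : ((univ : Finset ((Fin s → Bool) × Y)).filter
            fun w' => w'.2 ≠ u.2 ∧ χ (dif u.1 w'.1) u.2 w'.2 = j) ⊆
            (W.filter fun w => w ≠ u ∧ col i₀ Rel χ u w = Sum.inr j) ∪
            ((univ.biUnion fun i : Fin s => (univ : Finset ((Fin s → Bool) × Y)).filter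
              fun w => Cross Rel i u w) ∪ ({(fun _ => true : Fin s → Bool)} ×ˢ P₀)) := by
          intro w hw
          rw [mem_filter] at hw
          rw [mem_union, mem_union]
          by_cases h5 : ∃ i, Cross Rel i u w
          · obtain ⟨i', hi'⟩ := h5
            right; left
            rw [mem_biUnion]
            exact ⟨i', mem_univ _, mem_filter.2 ⟨mem_univ _, hi'⟩⟩
          · by_cases h6 : w.1 = (fun _ => true) ∧ w.2 ∈ P₀
            · right; right
              rw [mem_product, mem_singleton]
              exact h6
            · left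
              rw [mem_filter, hW, mem_filter]
              refine ⟨⟨mem_univ _, h6⟩, ?_, ?_⟩
              · intro h; exact hw.2.1 (by rw [h])
              · rw [hcol3 _ _ (Ne.symm hw.2.1) h5, hw.2.2]
        refine (card_le_card h1).trans ((card_union_le _ _).trans (Nat.add_le_add_left ?_ _))
        refine (card_union_le _ _).trans (Nat.add_le_add ?_ ?_)
        · refine (card_biUnion_le_card_mul _ _ (2 ^ s * m) ?_).trans ?_
          · intro i _
            by_cases hui : u.1 i = true
            · have h2 : ((univ : Finset ((Fin s → Bool) × Y)).filter fun w => Cross Rel i u w) ⊆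
                  (univ : Finset (Fin s → Bool)) ×ˢ
                    ((univ : Finset Y).filter fun y' => Rel i u.2 y') := by
                intro w hw
                rw [mem_filter] at hw
                rw [mem_product, mem_filter]
                rcases hw.2 with h3 | h3
                · exact ⟨mem_univ _, mem_univ _, h3.2.2⟩
                · rw [hui] at h3; simp at h3
              have h3 := card_le_card h2
              rw [card_product, ha, card_univ, Fintype.card_fun, Fintype.card_bool,
                Fintype.card_fin] at h3
              exact h3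
            · have h2 : ((univ : Finset ((Fin s → Bool) × Y)).filter fun w => Cross Rel i u w) ⊆
                  (univ : Finset (Fin s → Bool)) ×ˢ
                    ((univ : Finset Y).filter fun y' => Rel i y' u.2) := by
                intro w hw
                rw [mem_filter] at hw
                rw [mem_product, mem_filter]
                rcases hw.2 with h3 | h3
                · exact absurd h3.1 hui
                · exact ⟨mem_univ _, mem_univ _, h3.2.2⟩
              have h3 := card_le_card h2
              rw [card_product, hb, card_univ, Fintype.card_fun, Fintype.card_bool,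
                Fintype.card_fin] at h3
              exact h3
          · rw [card_univ, Fintype.card_fin]
        · rw [card_product, card_singleton, one_mul]
      omega

end assembly

end Pool.Agent.R69.DegMono
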