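import Pool.Agent.R69.DegMono

/-!
# The fractional colouring of the fourth power of the cube without its top element
-/

set_option autoImplicit false

namespace Pool.Agent.R69.DegMono

open Finset

/-- the cube without its top element -/
abbrev Pt (t : ℕ) : Type := {p : Fin t → Bool // p ≠ fun _ => true}

theorem card_Pt (t : ℕ) : Fintype.card (Pt t) = 2 ^ t - 1 := by
  rw [Fintype.card_subtype_compl, Fintype.card_fun, Fintype.card_bool, Fintype.card_fin]
  simp

/-- degrees in the cube without its top element -/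
theorem card_Pt_filter {t : ℕ} (j₀ j : Fin t) (p : Pt t) :
    ((univ : Finset (Pt t)).filter fun q => q ≠ p ∧ cr j₀ (dif p.1 q.1) = j).card +
      (if cr j₀ (dif p.1 (fun _ => true)) = j then 1 else 0) = cnt j₀ j := by
  classical
  rw [← cnt_eq j₀ j p.1]
  have h1 : ((univ : Finset (Pt t)).filter fun q => q ≠ p ∧ cr j₀ (dif p.1 q.1) = j).card =
      ((univ : Finset (Fin t → Bool)).filter fun q => q ≠ (fun _ => true) ∧
        (q ≠ p.1 ∧ cr j₀ (dif p.1 q) = j)).card := by
    refine card_bij (fun q _ => q.1) ?_ ?_ ?_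
    · intro q hq
      simp only [mem_filter, mem_univ, true_and] at hq ⊢
      exact ⟨q.2, fun h => hq.1 (Subtype.ext h), hq.2⟩
    · intro q _ q' _ h
      exact Subtype.ext h
    · intro q hq
      simp only [mem_filter, mem_univ, true_and] at hq
      refine ⟨⟨q, hq.1⟩, ?_, rfl⟩
      simp only [mem_filter, mem_univ, true_and]
      exact ⟨fun h => hq.2.1 (congrArg Subtype.val h), hq.2.2⟩
  rw [h1]
  have h2 : ((univ : Finset (Fin t → Bool)).filter fun q => q ≠ p.1 ∧ cr j₀ (dif p.1 q) = j) =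
      ((univ : Finset (Fin t → Bool)).filter fun q => q ≠ (fun _ => true) ∧
        (q ≠ p.1 ∧ cr j₀ (dif p.1 q) = j)) ∪
      (({fun _ => true} : Finset (Fin t → Bool)).filter fun q => q ≠ p.1 ∧
        cr j₀ (dif p.1 q) = j) := by
    ext q
    simp only [mem_union, mem_filter, mem_univ, true_and, mem_singleton]
    by_cases hq : q = fun _ => true
    · simp only [hq]; simp
    · simp [hq]
  rw [h2, card_union_of_disjoint]
  · congr 1
    rw [filter_singleton]
    have h3 : ((fun _ => true : Fin t → Bool) ≠ p.1) := Ne.symm p.2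
    simp only [h3, ne_eq, not_false_eq_true, true_and]
    split_ifs <;> simp
  · rw [disjoint_left]
    intro q hq1 hq2
    rw [mem_filter] at hq1 hq2
    exact hq1.2.1 (mem_singleton.1 hq2.1)

/-- the points of the second factor -/
abbrev Yt (t : ℕ) : Type := Fin 4 → Pt t

/-- choose the block `i₀` if the two points differ there, and the first block in which they differ
otherwise -/
noncomputable def blk {t : ℕ} (i₀ : Fin 4) (y y' : Yt t) : Fin 4 :=
  if y i₀ ≠ y' i₀ then i₀
  else if h : ((univ : Finset (Fin 4)).filter fun i => y i ≠ y' i).Nonempty then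
    ((univ : Finset (Fin 4)).filter fun i => y i ≠ y' i).min' h else i₀

theorem blk_eq_iff {t : ℕ} (i₀ i : Fin 4) {y y' : Yt t} (h : y ≠ y') :
    blk i₀ y y' = i ↔ (y i ≠ y' i ∧ (i ≠ i₀ → y i₀ = y' i₀ ∧ ∀ l < i, y l = y' l)) := by
  unfold blk
  by_cases h0 : y i₀ ≠ y' i₀
  · rw [if_pos h0]
    constructor
    · rintro rfl
      exact ⟨h0, fun h => absurd rfl h⟩
    · rintro ⟨_, h2⟩
      by_contra hcon
      exact h0 (h2 (Ne.symm hcon)).1
  · rw [if_neg h0]
    push Not at h0
    have hne : ((univ : Finset (Fin 4)).filter fun i => y i ≠ y' i).Nonempty := by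
      obtain ⟨k, hk⟩ := Function.ne_iff.1 h
      exact ⟨k, mem_filter.2 ⟨mem_univ _, hk⟩⟩
    rw [dif_pos hne]
    constructor
    · intro h1
      have h2 := min'_mem _ hne
      rw [h1, mem_filter] at h2
      refine ⟨h2.2, fun _ => ⟨h0, fun l hl => ?_⟩⟩
      by_contra hcon
      have h3 := min'_le ((univ : Finset (Fin 4)).filter fun i => y i ≠ y' i) l
        (mem_filter.2 ⟨mem_univ l, hcon⟩)
      rw [h1] at h3
      exact absurd hl (not_lt.2 h3)
    · rintro ⟨h1, h2⟩
      have hi : i ≠ i₀ := by rintro rfl; exact h1 h0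
      have h3 := (h2 hi).2
      apply le_antisymm
      · exact min'_le ((univ : Finset (Fin 4)).filter fun i => y i ≠ y' i) i
          (mem_filter.2 ⟨mem_univ _, h1⟩)
      · apply le_min'
        intro l hl
        rw [mem_filter] at hl
        by_contra hcon
        exact hl.2 (h3 l (not_le.1 hcon))

theorem blk_comm {t : ℕ} (i₀ : Fin 4) (y y' : Yt t) : blk i₀ y y' = blk i₀ y' y := by
  by_cases h : y = y'
  · rw [h]
  · rw [blk_eq_iff i₀ _ h]
    have h1 := (blk_eq_iff i₀ _ (Ne.symm h)).1 rfl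
    exact ⟨Ne.symm h1.1, fun h2 => ⟨(h1.2 h2).1.symm, fun l hl => ((h1.2 h2).2 l hl).symm⟩⟩

/-- the number of ways to complete a block -/
def bnum (t : ℕ) (i₀ i : Fin 4) : ℕ :=
  ∏ l ∈ (univ : Finset (Fin 4)).erase i, if i ≠ i₀ ∧ (l = i₀ ∨ l < i) then 1
    else Fintype.card (Pt t)

theorem bnum_self (t : ℕ) (i : Fin 4) : bnum t i i = (Fintype.card (Pt t)) ^ 3 := by
  unfold bnum
  simp

/-- degrees in one class -/
theorem card_class {t : ℕ} (i₀ i : Fin 4) (j₀ j : Fin t) (y : Yt t) :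
    ((univ : Finset (Yt t)).filter fun y' => y' ≠ y ∧
      (blk i₀ y y', cr j₀ (dif (y (blk i₀ y y')).1 (y' (blk i₀ y y')).1)) = (i, j)).card =
    bnum t i₀ i *
      ((univ : Finset (Pt t)).filter fun q => q ≠ y i ∧ cr j₀ (dif (y i).1 q.1) = j).card := by
  classical
  have h1 : ((univ : Finset (Yt t)).filter fun y' => y' ≠ y ∧
      (blk i₀ y y', cr j₀ (dif (y (blk i₀ y y')).1 (y' (blk i₀ y y')).1)) = (i, j)) =
      Fintype.piFinset (fun l : Fin 4 =>
        if l = i then (univ : Finset (Pt t)).filter fun q => q ≠ y i ∧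
          cr j₀ (dif (y i).1 q.1) = j
        else if i ≠ i₀ ∧ (l = i₀ ∨ l < i) then {y l} else univ) := by
    ext y'
    simp only [mem_filter, mem_univ, true_and, Fintype.mem_piFinset, Prod.mk.injEq]
    constructor
    · rintro ⟨h1, h2, h3⟩ l
      rw [h2] at h3
      have h4 := (blk_eq_iff i₀ i (Ne.symm h1)).1 h2
      split_ifs with h5 h6
      · subst h5
        simp only [mem_filter, mem_univ, true_and]
        exact ⟨Ne.symm h4.1, h3⟩
      · rw [mem_singleton]
        rcases h6 with ⟨h7, rfl | h8⟩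
        · exact (h4.2 h7).1.symm
        · exact ((h4.2 h7).2 l h8).symm
      · exact mem_univ _
    · intro h
      have h1 := h i
      rw [if_pos rfl] at h1
      simp only [mem_filter, mem_univ, true_and] at h1
      have hne : y' ≠ y := fun h2 => h1.1 (by rw [h2])
      have h2 : blk i₀ y y' = i := by
        rw [blk_eq_iff i₀ i (Ne.symm hne)]
        refine ⟨Ne.symm h1.1, fun h3 => ⟨?_, fun l hl => ?_⟩⟩
        · have h4 := h i₀
          rw [if_neg (Ne.symm h3), if_pos ⟨h3, Or.inl rfl⟩, mem_singleton] at h4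
          exact h4.symm
        · have h4 := h l
          rw [if_neg (ne_of_lt hl), if_pos ⟨h3, Or.inr hl⟩, mem_singleton] at h4
          exact h4.symm
      refine ⟨hne, h2, ?_⟩
      rw [h2]
      exact h1.2
  rw [h1, Fintype.card_piFinset, ← mul_prod_erase univ _ (mem_univ i), mul_comm]
  congr 1
  · unfold bnum
    refine prod_congr rfl fun l hl => ?_
    rw [if_neg (ne_of_mem_erase hl)]
    split_ifs
    · rw [card_singleton]
    · rw [card_univ]
  · rw [if_pos rfl]

/-- the colouring of pairs of points of `Yt t` in the class `κ` -/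
noncomputable def chi {t : ℕ} (κ : Fin 4 × Fin t) (y y' : Yt t) : Fin 4 × Fin t :=
  (blk κ.1 y y', cr κ.2 (dif (y (blk κ.1 y y')).1 (y' (blk κ.1 y y')).1))

theorem chi_comm {t : ℕ} (κ : Fin 4 × Fin t) (y y' : Yt t) : chi κ y y' = chi κ y' y := by
  unfold chi
  rw [blk_comm, dif_comm]

theorem chi_type {t : ℕ} (κ : Fin 4 × Fin t) {y y' : Yt t} (h : y ≠ y') :
    (y (chi κ y y').1).1 (chi κ y y').2 ≠ (y' (chi κ y y').1).1 (chi κ y y').2 := by
  have h1 := ((blk_eq_iff κ.1 _ h).1 rfl).1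
  have h2 : (y (blk κ.1 y y')).1 ≠ (y' (blk κ.1 y y')).1 := fun h => h1 (Subtype.ext h)
  have h3 := cr_mem κ.2 (exists_dif h2)
  exact (dif_apply_iff _ _ _).1 h3

/-- the threshold -/
noncomputable def thr (t : ℕ) (c : Fin 4 × Fin t) : ℕ :=
  ∑ κ : Fin 4 × Fin t, bnum t κ.1 c.1 * cnt κ.2 c.2

theorem deg_total {t : ℕ} (c : Fin 4 × Fin t) (y : Yt t) :
    ∑ κ : Fin 4 × Fin t, ((univ : Finset (Yt t)).filter fun y' => y' ≠ y ∧ chi κ y y' = c).card +
      ∑ κ : Fin 4 × Fin t, bnum t κ.1 c.1 *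
        (if cr κ.2 (dif (y c.1).1 (fun _ => true)) = c.2 then 1 else 0) = thr t c := by
  unfold thr
  rw [← sum_add_distrib]
  refine sum_congr rfl fun κ _ => ?_
  have h1 := card_class κ.1 c.1 κ.2 c.2 y
  have h2 : ((univ : Finset (Yt t)).filter fun y' => y' ≠ y ∧ chi κ y y' = c).card =
      bnum t κ.1 c.1 * ((univ : Finset (Pt t)).filter fun q => q ≠ y c.1 ∧
        cr κ.2 (dif (y c.1).1 q.1) = c.2).card := h1
  rw [h2, ← mul_add, card_Pt_filter]

theorem deg_high {t : ℕ} (c : Fin 4 × Fin t) (y : Yt t) (h : (y c.1).1 c.2 = true) :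
    thr t c ≤ ∑ κ : Fin 4 × Fin t,
      ((univ : Finset (Yt t)).filter fun y' => y' ≠ y ∧ chi κ y y' = c).card := by
  rw [← deg_total c y]
  have h1 : ∑ κ : Fin 4 × Fin t, bnum t κ.1 c.1 *
        (if cr κ.2 (dif (y c.1).1 (fun _ => true)) = c.2 then 1 else 0) = 0 := by
    refine sum_eq_zero fun κ _ => ?_
    have h2 : cr κ.2 (dif (y c.1).1 (fun _ => true)) ≠ c.2 := by
      intro h3
      have h4 := cr_mem κ.2 (exists_dif (y c.1).2)
      rw [h3, dif_apply_iff, h] at h4
      simp at h4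
    rw [if_neg h2, mul_zero]
  rw [h1, add_zero]

theorem deg_low {t : ℕ} (c : Fin 4 × Fin t) (y : Yt t) (h : (y c.1).1 c.2 = false) :
    ∑ κ : Fin 4 × Fin t,
      ((univ : Finset (Yt t)).filter fun y' => y' ≠ y ∧ chi κ y y' = c).card +
      (Fintype.card (Pt t)) ^ 3 ≤ thr t c := by
  rw [← deg_total c y]
  apply Nat.add_le_add_left
  have h1 : bnum t c.1 c.1 * (if cr c.2 (dif (y c.1).1 (fun _ => true)) = c.2 then 1 else 0) ≤
      ∑ κ : Fin 4 × Fin t, bnum t κ.1 c.1 *
        (if cr κ.2 (dif (y c.1).1 (fun _ => true)) = c.2 then 1 else 0) :=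
    single_le_sum (f := fun κ : Fin 4 × Fin t => bnum t κ.1 c.1 *
        (if cr κ.2 (dif (y c.1).1 (fun _ => true)) = c.2 then 1 else 0))
      (fun κ _ => Nat.zero_le _) (mem_univ c)
  have h2 : dif (y c.1).1 (fun _ => true) c.2 = true := by
    rw [dif_apply_iff, h]; simp
  rw [cr_self h2, if_pos rfl, mul_one, bnum_self] at h1
  exact h1

/-- the relations, for a numbering of the points of `Pt t` by residues -/
def Rl {s t N : ℕ} (e : Pt t ≃ ZMod N) (i : Fin s) (y y' : Yt t) : Prop :=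
  e (y' 2) = e (y 2) + ((i : ℕ) + 1 : ℕ) ∧ y' 3 = y 3

instance {s t N : ℕ} (e : Pt t ≃ ZMod N) (i : Fin s) (y y' : Yt t) :
    Decidable (Rl e i y y') := by
  unfold Rl
  exact inferInstance

theorem Rl_right {s t N : ℕ} (e : Pt t ≃ ZMod N) (i : Fin s) (y : Yt t) :
    ((univ : Finset (Yt t)).filter fun y' => Rl e i y y').card = (Fintype.card (Pt t)) ^ 2 := by
  classical
  have h1 : ((univ : Finset (Yt t)).filter fun y' => Rl e i y y') =
      Fintype.piFinset (fun l : Fin 4 =>
        if l = 2 then {e.symm (e (y 2) + ((i : ℕ) + 1 : ℕ))}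
        else if l = 3 then {y 3} else (univ : Finset (Pt t))) := by
    ext y'
    simp only [mem_filter, mem_univ, true_and, Fintype.mem_piFinset]
    unfold Rl
    constructor
    · rintro ⟨h1, h2⟩ l
      split_ifs with h3 h4
      · subst h3
        rw [mem_singleton, ← h1, Equiv.symm_apply_apply]
      · subst h4
        rw [mem_singleton, h2]
      · exact mem_univ _
    · intro h
      have h2 := h 2
      have h3 := h 3
      simp only [if_true, mem_singleton] at h2
      rw [if_neg (by decide), if_pos rfl, mem_singleton] at h3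
      rw [h2, Equiv.apply_symm_apply]
      exact ⟨rfl, h3⟩
  rw [h1, Fintype.card_piFinset, Fin.prod_univ_four]
  simp only [show (0 : Fin 4) ≠ 2 by decide, show (0 : Fin 4) ≠ 3 by decide,
    show (1 : Fin 4) ≠ 2 by decide, show (1 : Fin 4) ≠ 3 by decide,
    show (3 : Fin 4) ≠ 2 by decide, if_false, if_true, card_singleton, mul_one, card_univ]
  ring

theorem Rl_left {s t N : ℕ} (e : Pt t ≃ ZMod N) (i : Fin s) (y' : Yt t) :
    ((univ : Finset (Yt t)).filter fun y => Rl e i y y').card = (Fintype.card (Pt t)) ^ 2 := by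
  classical
  have h1 : ((univ : Finset (Yt t)).filter fun y => Rl e i y y') =
      Fintype.piFinset (fun l : Fin 4 =>
        if l = 2 then {e.symm (e (y' 2) - ((i : ℕ) + 1 : ℕ))}
        else if l = 3 then {y' 3} else (univ : Finset (Pt t))) := by
    ext y
    simp only [mem_filter, mem_univ, true_and, Fintype.mem_piFinset]
    unfold Rl
    constructor
    · rintro ⟨h1, h2⟩ l
      split_ifs with h3 h4
      · subst h3
        rw [mem_singleton, h1, add_sub_cancel_right, Equiv.symm_apply_apply]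
      · subst h4
        rw [mem_singleton, h2]
      · exact mem_univ _
    · intro h
      have h2 := h 2
      have h3 := h 3
      simp only [if_true, mem_singleton] at h2
      rw [if_neg (by decide), if_pos rfl, mem_singleton] at h3
      rw [h2, Equiv.apply_symm_apply]
      exact ⟨by ring, h3.symm⟩
  rw [h1, Fintype.card_piFinset, Fin.prod_univ_four]
  simp only [show (0 : Fin 4) ≠ 2 by decide, show (0 : Fin 4) ≠ 3 by decide,
    show (1 : Fin 4) ≠ 2 by decide, show (1 : Fin 4) ≠ 3 by decide,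
    show (3 : Fin 4) ≠ 2 by decide, if_false, if_true, card_singleton, mul_one, card_univ]
  ring

theorem Rl_inj {s t N : ℕ} (e : Pt t ≃ ZMod N) (hN : 2 * s < N) (i i' : Fin s) (y y' : Yt t)
    (h : Rl e i y y') (h' : Rl e i' y y') : i = i' := by
  have h1 : ((((i : ℕ) + 1 : ℕ)) : ZMod N) = (((i' : ℕ) + 1 : ℕ) : ZMod N) := by
    have := h.1.symm.trans h'.1
    exact add_left_cancel this
  rw [ZMod.natCast_eq_natCast_iff'] at h1
  rw [Nat.mod_eq_of_lt (by have := i.2; omega), Nat.mod_eq_of_lt (by have := i'.2; omega)] at h1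
  exact Fin.ext (by omega)

theorem Rl_asymm {s t N : ℕ} (e : Pt t ≃ ZMod N) (hN : 2 * s < N) (i i' : Fin s) (y y' : Yt t)
    (h : Rl e i y y') : ¬ Rl e i' y' y := by
  intro h'
  have h1 := h.1
  rw [h'.1, add_assoc] at h1
  have h2 : (((((i' : ℕ) + 1) + ((i : ℕ) + 1) : ℕ)) : ZMod N) = 0 := by
    have h3 := left_eq_add.1 h1
    rw [Nat.cast_add]
    exact h3
  rw [ZMod.natCast_eq_zero_iff] at h2
  have h3 := Nat.le_of_dvd (by omega) h2
  have := i.2
  have := i'.2
  omega

/-- **The construction.** -/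
theorem nice_main (s t : ℕ) (hs : 0 < s) (hst : 2 ^ s = 4 * t)
    (hN : s * 2 ^ s + 4 ≤ 2 ^ t - 1) (P₀ : Finset (Yt t)) (p₀ : Pt t)
    (hP : ∀ y : Yt t, y 0 = p₀ → y 1 = p₀ → y ∈ P₀) (hP' : P₀.card ≤ (2 ^ t - 1) ^ 2 + 2) :
    Nice (Fin s ⊕ (Fin 4 × Fin t)) ((univ : Finset ((Fin s → Bool) × Yt t)).filter
      fun w => ¬ (w.1 = (fun _ => true) ∧ w.2 ∈ P₀)) := by
  classical
  have hcard : Fintype.card (Fin s → Bool) = Fintype.card (Fin 4 × Fin t) := by
    rw [Fintype.card_fun, Fintype.card_bool, Fintype.card_fin, Fintype.card_prod,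
      Fintype.card_fin, Fintype.card_fin, hst]
  let σ : (Fin s → Bool) ≃ Fin 4 × Fin t := Fintype.equivOfCardEq hcard
  have hN0 : 2 ^ t - 1 ≠ 0 := by omega
  have : NeZero (2 ^ t - 1) := ⟨hN0⟩
  have hcard2 : Fintype.card (Pt t) = Fintype.card (ZMod (2 ^ t - 1)) := by
    rw [card_Pt, ZMod.card]
  let e : Pt t ≃ ZMod (2 ^ t - 1) := Fintype.equivOfCardEq hcard2
  have h2s : 2 * s < 2 ^ t - 1 := by
    have h1 : 2 ≤ 2 ^ s := by
      calc 2 = 2 ^ 1 := by norm_num
        _ ≤ 2 ^ s := Nat.pow_le_pow_right (by norm_num) hs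
    have : s * 2 ≤ s * 2 ^ s := Nat.mul_le_mul_left _ h1
    omega
  have hsum : ∀ (j : Fin 4 × Fin t) (y : Yt t),
      ((univ : Finset ((Fin s → Bool) × Yt t)).filter
        fun w => w.2 ≠ y ∧ chi (σ w.1) y w.2 = j).card =
      ∑ κ : Fin 4 × Fin t,
        ((univ : Finset (Yt t)).filter fun y' => y' ≠ y ∧ chi κ y y' = j).card := by
    intro j y
    rw [card_filter, Fintype.sum_prod_type, ← Equiv.sum_comp σ]
    refine sum_congr rfl fun x _ => ?_
    rw [card_filter]
  refine nice_of_system ⟨0, hs⟩ (fun x => chi (σ x)) (fun x => chi_comm _)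
    (fun c y => (y c.1).1 c.2) (fun x y y' h => chi_type _ h) (thr t)
    ((Fintype.card (Pt t)) ^ 3) ?_ ?_ (Rl e) ((Fintype.card (Pt t)) ^ 2) P₀
    (Rl_right e) (Rl_left e) ?_ (Rl_inj e h2s) (Rl_asymm e h2s) ?_
  · intro j y h
    rw [hsum]
    exact deg_high j y h
  · intro j y h
    rw [hsum]
    exact deg_low j y h
  · intro i y'
    refine ⟨![p₀, p₀, e.symm (e (y' 2) - ((i : ℕ) + 1 : ℕ)), y' 3], hP _ rfl rfl, ?_, rfl⟩
    simp
  · rw [card_Pt]
    set M := 2 ^ t - 1 with hM
    have h1 : (s * 2 ^ s + 4) * M ^ 2 ≤ M * M ^ 2 := Nat.mul_le_mul_right _ hN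
    have h2 : M * M ^ 2 = M ^ 3 := by ring
    have h3 : 1 ≤ M ^ 2 := Nat.one_le_pow _ _ (by omega)
    have h4 : s * (2 ^ s * M ^ 2) = s * 2 ^ s * M ^ 2 := by ring
    rw [h2, add_mul] at h1
    rw [h4]
    omega

end Pool.Agent.R69.DegMono
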