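import Pool.Agent.R69.DegMono2

/-!
# Transport, doubling, and sizes close to `2 ^ k`
-/

set_option autoImplicit false

namespace Pool.Agent.R69.DegMono

open Finset

theorem Nice.transport {V κ V' κ' : Type} [DecidableEq V] [DecidableEq κ] [DecidableEq V']
    [DecidableEq κ'] [Fintype V'] {W : Finset V} (h : Nice κ W) (f : κ ≃ κ')
    (e : {x // x ∈ W} ≃ V') : Nice κ' (univ : Finset V') := by
  obtain ⟨c, hc, τ, h1, h2⟩ := h
  have hdeg : ∀ j u, cdeg (univ : Finset V') (fun u v => f (c (e.symm u).1 (e.symm v).1)) j u =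
      cdeg W c (f.symm j) (e.symm u).1 := by
    intro j u
    unfold cdeg
    refine card_bij (fun v _ => (e.symm v).1) ?_ ?_ ?_
    · intro v hv
      simp only [mem_filter, mem_univ, true_and] at hv
      rw [mem_filter]
      refine ⟨(e.symm v).2, fun h => hv.1 (e.symm.injective (Subtype.ext h)), ?_⟩
      rw [← hv.2, Equiv.symm_apply_apply]
    · intro v _ v' _ h
      exact e.symm.injective (Subtype.ext h)
    · intro w hw
      rw [mem_filter] at hw
      refine ⟨e ⟨w, hw.1⟩, ?_, by simp⟩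
      simp only [mem_filter, mem_univ, true_and, Equiv.symm_apply_apply]
      refine ⟨?_, by rw [hw.2.2, Equiv.apply_symm_apply]⟩
      intro h
      apply hw.2.1
      rw [← h, Equiv.symm_apply_apply]
  refine ⟨fun u v => f (c (e.symm u).1 (e.symm v).1), fun u v => congrArg f (hc _ _),
    fun j v => τ (f.symm j) (e.symm v).1, ?_, ?_⟩
  · intro u _ v _ huv
    simp only [Equiv.symm_apply_apply]
    exact h1 _ (e.symm u).2 _ (e.symm v).2 (fun h => huv (e.symm.injective (Subtype.ext h)))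
  · intro j u _ v _ huv hcj hu hv
    rw [hdeg, hdeg]
    refine h2 _ _ (e.symm u).2 _ (e.symm v).2
      (fun h => huv (e.symm.injective (Subtype.ext h))) ?_ hu hv
    rw [← hcj, Equiv.symm_apply_apply]

/-- the colouring of a disjoint union -/
def dbl {V₁ V₂ κ : Type} (c₁ : V₁ → V₁ → κ) (c₂ : V₂ → V₂ → κ) : V₁ ⊕ V₂ → V₁ ⊕ V₂ → Option κ
  | Sum.inl u, Sum.inl v => some (c₁ u v)
  | Sum.inr u, Sum.inr v => some (c₂ u v)
  | Sum.inl _, Sum.inr _ => none
  | Sum.inr _, Sum.inl _ => none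

/-- the types -/
def dblt {V₁ V₂ κ : Type} (τ₁ : κ → V₁ → Bool) (τ₂ : κ → V₂ → Bool) :
    Option κ → V₁ ⊕ V₂ → Bool
  | none, Sum.inl _ => true
  | none, Sum.inr _ => false
  | some j, Sum.inl u => τ₁ j u
  | some j, Sum.inr u => τ₂ j u

theorem Nice.double {V₁ V₂ κ : Type} [DecidableEq V₁] [DecidableEq V₂] [DecidableEq κ]
    [Fintype V₁] [Fintype V₂] (h₁ : Nice κ (univ : Finset V₁)) (h₂ : Nice κ (univ : Finset V₂))
    (hlt : Fintype.card V₁ < Fintype.card V₂) :
    Nice (Option κ) (univ : Finset (V₁ ⊕ V₂)) := by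
  classical
  obtain ⟨c₁, hc₁, τ₁, h11, h12⟩ := h₁
  obtain ⟨c₂, hc₂, τ₂, h21, h22⟩ := h₂
  have d1 : ∀ j u, cdeg (univ : Finset (V₁ ⊕ V₂)) (dbl c₁ c₂) (some j) (Sum.inl u) =
      cdeg univ c₁ j u := by
    intro j u
    unfold cdeg
    refine Eq.symm (card_bij (fun v _ => Sum.inl v) ?_ ?_ ?_)
    · intro v hv
      simp only [mem_filter, mem_univ, true_and] at hv ⊢
      exact ⟨fun h => hv.1 (Sum.inl_injective h), by rw [← hv.2]; rfl⟩
    · intro v _ v' _ h
      exact Sum.inl_injective h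
    · rintro (v | v) hv
      · simp only [mem_filter, mem_univ, true_and] at hv
        refine ⟨v, ?_, rfl⟩
        simp only [mem_filter, mem_univ, true_and]
        exact ⟨fun h => hv.1 (by rw [h]), Option.some_injective _ hv.2⟩
      · simp only [mem_filter, mem_univ, true_and] at hv
        have := hv.2
        simp [dbl] at this
  have d2 : ∀ j u, cdeg (univ : Finset (V₁ ⊕ V₂)) (dbl c₁ c₂) (some j) (Sum.inr u) =
      cdeg univ c₂ j u := by
    intro j u
    unfold cdeg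
    refine Eq.symm (card_bij (fun v _ => Sum.inr v) ?_ ?_ ?_)
    · intro v hv
      simp only [mem_filter, mem_univ, true_and] at hv ⊢
      exact ⟨fun h => hv.1 (Sum.inr_injective h), by rw [← hv.2]; rfl⟩
    · intro v _ v' _ h
      exact Sum.inr_injective h
    · rintro (v | v) hv
      · simp only [mem_filter, mem_univ, true_and] at hv
        have := hv.2
        simp [dbl] at this
      · simp only [mem_filter, mem_univ, true_and] at hv
        refine ⟨v, ?_, rfl⟩
        simp only [mem_filter, mem_univ, true_and]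
        exact ⟨fun h => hv.1 (by rw [h]), Option.some_injective _ hv.2⟩
  have d3 : ∀ u, cdeg (univ : Finset (V₁ ⊕ V₂)) (dbl c₁ c₂) none (Sum.inl u) =
      Fintype.card V₂ := by
    intro u
    unfold cdeg
    rw [← card_univ (α := V₂)]
    refine Eq.symm (card_bij (fun v _ => Sum.inr v) ?_ ?_ ?_)
    · intro v hv
      simp only [mem_filter, mem_univ, true_and] at hv ⊢
      exact ⟨by simp, rfl⟩
    · intro v _ v' _ h
      exact Sum.inr_injective h
    · rintro (v | v) hv
      · simp only [mem_filter, mem_univ, true_and] at hv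
        have := hv.2
        simp [dbl] at this
      · exact ⟨v, mem_univ _, rfl⟩
  have d4 : ∀ u, cdeg (univ : Finset (V₁ ⊕ V₂)) (dbl c₁ c₂) none (Sum.inr u) =
      Fintype.card V₁ := by
    intro u
    unfold cdeg
    rw [← card_univ (α := V₁)]
    refine Eq.symm (card_bij (fun v _ => Sum.inl v) ?_ ?_ ?_)
    · intro v hv
      simp only [mem_filter, mem_univ, true_and] at hv ⊢
      exact ⟨by simp, rfl⟩
    · intro v _ v' _ h
      exact Sum.inl_injective h
    · rintro (v | v) hv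
      · exact ⟨v, mem_univ _, rfl⟩
      · simp only [mem_filter, mem_univ, true_and] at hv
        have := hv.2
        simp [dbl] at this
  refine ⟨dbl c₁ c₂, ?_, dblt τ₁ τ₂, ?_, ?_⟩
  · rintro (u | u) (v | v)
    · simp only [dbl]; rw [hc₁]
    · rfl
    · rfl
    · simp only [dbl]; rw [hc₂]
  · rintro (u | u) _ (v | v) _ huv
    · simp only [dbl, dblt]
      exact h11 u (mem_univ _) v (mem_univ _) (fun h => huv (by rw [h]))
    · simp [dbl, dblt]
    · simp [dbl, dblt]
    · simp only [dbl, dblt]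
      exact h21 u (mem_univ _) v (mem_univ _) (fun h => huv (by rw [h]))
  · rintro (_ | j) (u | u) _ (v | v) _ huv hcj hu hv
    · simp [dbl] at hcj
    · rw [d3, d4]
      exact hlt
    · simp [dblt] at hu
    · simp [dbl] at hcj
    · rw [d1, d1]
      exact h12 j u (mem_univ _) v (mem_univ _) (fun h => huv (by rw [h]))
        (Option.some_injective _ hcj) hu hv
    · simp [dbl] at hcj
    · simp [dbl] at hcj
    · rw [d2, d2]
      exact h22 j u (mem_univ _) v (mem_univ _) (fun h => huv (by rw [h]))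
        (Option.some_injective _ hcj) hu hv

/-- there is such a colouring of `K_n` with `k` colours -/
def GoodN (k n : ℕ) : Prop := Nice (Fin k) (univ : Finset (Fin n))

theorem GoodN.of_nice {V κ : Type} [DecidableEq V] [DecidableEq κ] [Fintype κ] {W : Finset V}
    (h : Nice κ W) {k n : ℕ} (hk : Fintype.card κ = k) (hn : W.card = n) : GoodN k n := by
  refine h.transport (Fintype.equivFinOfCardEq hk) ?_
  exact W.equivFinOfCardEq hn

theorem GoodN.double {k a b : ℕ} (ha : GoodN k a) (hb : GoodN k b) (hab : a < b) :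
    GoodN (k + 1) (a + b) := by
  have h := Nice.double ha hb (by rw [Fintype.card_fin, Fintype.card_fin]; exact hab)
  refine GoodN.of_nice h ?_ ?_
  · rw [Fintype.card_option, Fintype.card_fin]
  · rw [card_univ, Fintype.card_sum, Fintype.card_fin, Fintype.card_fin]

theorem GoodN.iterate {k a : ℕ} (ha : 1 ≤ a) (h0 : GoodN k (a - 1)) (h1 : GoodN k a)
    (h2 : GoodN k (a + 1)) (i : ℕ) :
    GoodN (k + i) (2 ^ i * a - 1) ∧ GoodN (k + i) (2 ^ i * a) ∧ GoodN (k + i) (2 ^ i * a + 1) := by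
  induction i with
  | zero => simpa using ⟨h0, h1, h2⟩
  | succ i ih =>
    obtain ⟨i0, i1, i2⟩ := ih
    set b := 2 ^ i * a with hb
    have hb1 : 1 ≤ b := Nat.mul_pos (by positivity) ha
    have hb2 : 2 ^ (i + 1) * a = 2 * b := by rw [hb]; ring
    rw [hb2, ← Nat.add_assoc]
    refine ⟨?_, ?_, ?_⟩
    · have := i0.double i1 (by omega)
      rwa [show b - 1 + b = 2 * b - 1 by omega] at this
    · have := i0.double i2 (by omega)
      rwa [show b - 1 + (b + 1) = 2 * b by omega] at this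
    · have := i1.double i2 (by omega)
      rwa [show b + (b + 1) = 2 * b + 1 by omega] at this

theorem card_base (t : ℕ) (p₀ : Pt t) :
    ((univ : Finset (Yt t)).filter fun y => y 0 = p₀ ∧ y 1 = p₀).card = (2 ^ t - 1) ^ 2 := by
  classical
  have h1 : ((univ : Finset (Yt t)).filter fun y => y 0 = p₀ ∧ y 1 = p₀) =
      Fintype.piFinset (fun l : Fin 4 =>
        if l = 0 then {p₀} else if l = 1 then {p₀} else (univ : Finset (Pt t))) := by
    ext y
    simp only [mem_filter, mem_univ, true_and, Fintype.mem_piFinset]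
    constructor
    · rintro ⟨h1, h2⟩ l
      split_ifs with h3 h4
      · subst h3
        rw [mem_singleton, h1]
      · subst h4
        rw [mem_singleton, h2]
      · exact mem_univ _
    · intro h
      have h2 := h 0
      have h3 := h 1
      simp only [if_true, mem_singleton] at h2
      rw [if_neg (by decide), if_pos rfl, mem_singleton] at h3
      exact ⟨h2, h3⟩
  rw [h1, Fintype.card_piFinset, Fin.prod_univ_four]
  simp only [show (1 : Fin 4) ≠ 0 by decide, show (2 : Fin 4) ≠ 0 by decide,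
    show (2 : Fin 4) ≠ 1 by decide, show (3 : Fin 4) ≠ 0 by decide,
    show (3 : Fin 4) ≠ 1 by decide, if_false, if_true, card_singleton, one_mul, card_univ, card_Pt]
  ring

theorem goodN_main (s t e : ℕ) (hs : 0 < s) (hst : 2 ^ s = 4 * t)
    (hN : s * 2 ^ s + 4 ≤ 2 ^ t - 1) (he : e ≤ 2) :
    GoodN (s + 4 * t) (2 ^ s * (2 ^ t - 1) ^ 4 - ((2 ^ t - 1) ^ 2 + e)) := by
  classical
  set M := 2 ^ t - 1 with hM
  have hpos : 0 < Fintype.card (Pt t) := by rw [card_Pt, ← hM]; omega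
  obtain ⟨p₀⟩ : Nonempty (Pt t) := Fintype.card_pos_iff.1 hpos
  have hcY : Fintype.card (Yt t) = M ^ 4 := by
    rw [Fintype.card_fun, card_Pt, Fintype.card_fin]
  have hle : M ^ 2 + e ≤ M ^ 4 := by
    have h1 : M ^ 4 = M ^ 2 * M ^ 2 := by ring
    have h2 : 4 ≤ M := by omega
    have h3 : 4 * 4 ≤ M ^ 2 := by rw [pow_two]; exact Nat.mul_le_mul h2 h2
    rw [h1]
    nlinarith
  obtain ⟨P₀, hP1, hP2⟩ := exists_superset_card_eq (s := (univ : Finset (Yt t)).filter
    fun y => y 0 = p₀ ∧ y 1 = p₀) (n := M ^ 2 + e) (by rw [card_base, ← hM]; omega)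
    (by rw [hcY]; exact hle)
  have h := nice_main s t hs hst hN P₀ p₀
    (fun y h0 h1 => hP1 (mem_filter.2 ⟨mem_univ _, h0, h1⟩)) (by rw [hP2, ← hM]; omega)
  refine GoodN.of_nice h ?_ ?_
  · rw [Fintype.card_sum, Fintype.card_prod, Fintype.card_fin, Fintype.card_fin, Fintype.card_fin]
  · have h1 : ((univ : Finset ((Fin s → Bool) × Yt t)).filter
        fun w => ¬ (w.1 = (fun _ => true) ∧ w.2 ∈ P₀)) =
        univ \ (({fun _ => true} : Finset (Fin s → Bool)) ×ˢ P₀) := by
      ext w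
      simp only [mem_filter, mem_univ, true_and, mem_sdiff, mem_product, mem_singleton]
    rw [h1, card_sdiff_of_subset (subset_univ _), card_univ, Fintype.card_prod, hcY,
      Fintype.card_fun, Fintype.card_bool, Fintype.card_fin, card_product, card_singleton,
      one_mul, hP2]

theorem aux_growth (u : ℕ) (hu : 4 ≤ u) : 3 * u + 4 ≤ 2 ^ u := by
  induction u, hu using Nat.le_induction with
  | base => norm_num
  | succ n hn ih =>
    rw [pow_succ]
    omega

/-- sizes close to `2 ^ k` -/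
theorem exists_goodN (ε : ℝ) (hε : 0 < ε) : ∃ K a : ℕ, (1 - ε) * 2 ^ K ≤ a ∧
    ∀ k ≥ K, GoodN k (2 ^ (k - K) * a) := by
  obtain ⟨r, hr⟩ : ∃ r : ℕ, 5 / ε < r := exists_nat_gt _
  set u := r + 4 with hu
  set t := 2 ^ u with ht
  set s := u + 2 with hs
  have hst : 2 ^ s = 4 * t := by rw [hs, pow_add, ht]; ring
  have hu4 : 3 * u + 4 ≤ 2 ^ u := aux_growth u (by omega)
  have hN : s * 2 ^ s + 4 ≤ 2 ^ t - 1 := by
    have h1 : s * 2 ^ s ≤ 2 ^ (2 * u + 2) := by
      have h2 : s ≤ 2 ^ u := by omega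
      calc s * 2 ^ s ≤ 2 ^ u * 2 ^ s := Nat.mul_le_mul_right _ h2
        _ = 2 ^ (2 * u + 2) := by rw [← pow_add, hs]; congr 1; ring
    have h2 : 2 ^ (2 * u + 2) * 2 ^ (u + 2) ≤ 2 ^ t := by
      rw [← pow_add]
      exact Nat.pow_le_pow_right (by norm_num) (by omega)
    have h3 : 64 ≤ 2 ^ (u + 2) := by
      calc 64 = 2 ^ 6 := by norm_num
        _ ≤ 2 ^ (u + 2) := Nat.pow_le_pow_right (by norm_num) (by omega)
    have h4 : 1 ≤ 2 ^ (2 * u + 2) := Nat.one_le_two_pow
    have h5 : 2 ^ (2 * u + 2) * 64 ≤ 2 ^ t := (Nat.mul_le_mul_left _ h3).trans h2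
    omega
  set M := 2 ^ t - 1 with hM
  have hM1 : 2 ^ t = M + 1 := by omega
  have hM4 : 4 ≤ M := by omega
  set a := 2 ^ s * M ^ 4 - (M ^ 2 + 1) with ha
  have hbig : M ^ 2 + 2 < 2 ^ s * M ^ 4 := by
    have h1 : M ^ 4 = M ^ 2 * M ^ 2 := by ring
    have h3 : 4 * 4 ≤ M ^ 2 := by rw [pow_two]; exact Nat.mul_le_mul hM4 hM4
    have h4 : 1 ≤ 2 ^ s := Nat.one_le_two_pow
    rw [h1]
    nlinarith
  refine ⟨s + 4 * t, a, ?_, ?_⟩
  · -- the size
    have h1 : (a : ℝ) = 2 ^ s * (M : ℝ) ^ 4 - ((M : ℝ) ^ 2 + 1) := by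
      rw [ha, Nat.cast_sub (by omega)]
      push_cast
      ring
    have h2 : (2 : ℝ) ^ (s + 4 * t) = 2 ^ s * ((M : ℝ) + 1) ^ 4 := by
      have h3 : (2 : ℝ) ^ t = (M : ℝ) + 1 := by exact_mod_cast hM1
      rw [pow_add, mul_comm 4 t, pow_mul, h3]
    rw [h1, h2]
    have hM' : (4 : ℝ) ≤ M := by exact_mod_cast hM4
    have hs1 : (1 : ℝ) ≤ 2 ^ s := one_le_pow₀ (by norm_num)
    -- `ε (M + 1) ≥ 5`
    have hεM : 5 ≤ ε * ((M : ℝ) + 1) := by
      have h3 : (r : ℝ) ≤ (M : ℝ) + 1 := by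
        have h4 : r ≤ M + 1 := by
          rw [← hM1]
          calc r ≤ u := by omega
            _ ≤ 2 ^ u := Nat.lt_two_pow_self.le
            _ = t := rfl
            _ ≤ 2 ^ t := Nat.lt_two_pow_self.le
        exact_mod_cast h4
      rw [div_lt_iff₀ hε] at hr
      nlinarith
    have h3 : (5 : ℝ) * ((M : ℝ) + 1) ^ 3 ≤ ε * ((M : ℝ) + 1) ^ 4 := by
      calc (5 : ℝ) * ((M : ℝ) + 1) ^ 3 ≤ (ε * ((M : ℝ) + 1)) * ((M : ℝ) + 1) ^ 3 :=
            mul_le_mul_of_nonneg_right hεM (by positivity)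
        _ = ε * ((M : ℝ) + 1) ^ 4 := by ring
    have h4 : ((M : ℝ) + 1) ^ 4 - M ^ 4 + (M ^ 2 + 1) ≤ 5 * ((M : ℝ) + 1) ^ 3 := by
      nlinarith [pow_nonneg (show (0 : ℝ) ≤ M by linarith) 3, sq_nonneg (M : ℝ)]
    have h5 : (M : ℝ) ^ 2 + 1 ≤ 2 ^ s * ((M : ℝ) ^ 2 + 1) := by
      have : (0 : ℝ) ≤ (M : ℝ) ^ 2 + 1 := by positivity
      nlinarith
    have h6 : (1 - ε) * (2 ^ s * ((M : ℝ) + 1) ^ 4) ≤
        2 ^ s * (((M : ℝ) + 1) ^ 4 - 5 * ((M : ℝ) + 1) ^ 3) := by
      have : (0 : ℝ) ≤ 2 ^ s := by positivity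
      nlinarith
    have h7 : (2 : ℝ) ^ s * (((M : ℝ) + 1) ^ 4 - 5 * ((M : ℝ) + 1) ^ 3) ≤
        2 ^ s * ((M : ℝ) ^ 4 - ((M : ℝ) ^ 2 + 1)) := by
      apply mul_le_mul_of_nonneg_left _ (by positivity)
      linarith
    linarith
  · intro k hk
    obtain ⟨i, rfl⟩ := Nat.exists_eq_add_of_le hk
    have g0 := goodN_main s t 0 (by omega) hst hN (by norm_num)
    have g1 := goodN_main s t 1 (by omega) hst hN (by norm_num)
    have g2 := goodN_main s t 2 (by omega) hst hN (by norm_num)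
    rw [← hM] at g0 g1 g2
    have e0 : 2 ^ s * M ^ 4 - (M ^ 2 + 0) = a + 1 := by omega
    have e1 : 2 ^ s * M ^ 4 - (M ^ 2 + 2) = a - 1 := by omega
    rw [e0] at g0
    rw [e1] at g2
    have ha1 : 1 ≤ a := by omega
    have := (GoodN.iterate ha1 g2 g1 g0 i).2.1
    rw [Nat.add_sub_cancel_left]
    exact this

end Pool.Agent.R69.DegMono
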