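import Mathlib

/-!
# Two-colourings without long monochromatic degree-monotone paths

Certificates bounding the order of monotone paths, and a product construction.
-/

set_option autoImplicit false

namespace Pool.Agent.R69.DegTwo

open Finset

/-- certificate that a path along which `D` does not decrease has at most `N` vertices -/
def PathCert (N : ℕ) {V : Type} [Fintype V] [DecidableEq V] (adj : V → V → Prop) (D : V → ℤ) :
    Prop :=
  ∃ (l r : V → ℕ) (g : V → V), (∀ v, 1 ≤ l v ∧ r v ≤ N) ∧
    (∀ u v, u ≠ v → adj u v → D u < D v → r u < l v) ∧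
    (∀ u v, u ≠ v → adj u v → D u = D v → g u = g v ∧ l u = l v ∧ r u = r v) ∧
    (∀ v, ((univ : Finset V).filter fun w => g w = g v).card + l v ≤ r v + 1)

theorem PathCert.bound {N : ℕ} {V : Type} [Fintype V] [DecidableEq V] {adj : V → V → Prop}
    {D : V → ℤ} (h : PathCert N adj D) {m : ℕ} (p : Fin m → V) (hp : Function.Injective p)
    (hadj : ∀ i j : Fin m, (i : ℕ) + 1 = j → adj (p i) (p j))
    (hD : ∀ i j : Fin m, i ≤ j → D (p i) ≤ D (p j)) : m ≤ N := by
  classical
  obtain ⟨l, r, g, h1, h2, h3, h4⟩ := h
  -- the members of the current group on the path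
  have key : ∀ i : ℕ, ∀ hi : i < m, i + 1 + 1 ≤
      ((univ : Finset (Fin m)).filter fun k : Fin m => (k : ℕ) ≤ i ∧ g (p k) = g (p ⟨i, hi⟩)).card +
        l (p ⟨i, hi⟩) := by
    intro i
    induction i with
    | zero =>
      intro hi
      have h5 : 1 ≤ ((univ : Finset (Fin m)).filter
          fun k : Fin m => (k : ℕ) ≤ 0 ∧ g (p k) = g (p ⟨0, hi⟩)).card := by
        apply card_pos.2
        exact ⟨⟨0, hi⟩, mem_filter.2 ⟨mem_univ _, le_refl _, rfl⟩⟩
      have h6 := (h1 (p ⟨0, hi⟩)).1
      omega
    | succ i ih =>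
      intro hi
      have hi' : i < m := by omega
      have ih := ih hi'
      have hne : p ⟨i, hi'⟩ ≠ p ⟨i + 1, hi⟩ := by
        intro h
        have := hp h
        simp at this
      have had := hadj ⟨i, hi'⟩ ⟨i + 1, hi⟩ rfl
      have hle := hD ⟨i, hi'⟩ ⟨i + 1, hi⟩ (by simp)
      rcases hle.lt_or_eq with hlt | heq
      · -- a new group
        have h5 := h2 _ _ hne had hlt
        have h6 : ((univ : Finset (Fin m)).filter
            fun k : Fin m => (k : ℕ) ≤ i ∧ g (p k) = g (p ⟨i, hi'⟩)).card ≤
            ((univ : Finset V).filter fun w => g w = g (p ⟨i, hi'⟩)).card := by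
          refine card_le_card_of_injOn p ?_ (fun a _ b _ hab => hp hab)
          intro k hk
          simp only [coe_filter, mem_univ, true_and, Set.mem_ofPred_eq] at hk ⊢
          exact hk.2
        have h7 := h4 (p ⟨i, hi'⟩)
        have h8 : 1 ≤ ((univ : Finset (Fin m)).filter
            fun k : Fin m => (k : ℕ) ≤ i + 1 ∧ g (p k) = g (p ⟨i + 1, hi⟩)).card := by
          apply card_pos.2
          exact ⟨⟨i + 1, hi⟩, mem_filter.2 ⟨mem_univ _, le_refl _, rfl⟩⟩
        omega
      · -- the same group
        obtain ⟨h5, h6, h7⟩ := h3 _ _ hne had heq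
        have h8 : insert (⟨i + 1, hi⟩ : Fin m) ((univ : Finset (Fin m)).filter
            fun k : Fin m => (k : ℕ) ≤ i ∧ g (p k) = g (p ⟨i, hi'⟩)) ⊆
            ((univ : Finset (Fin m)).filter
            fun k : Fin m => (k : ℕ) ≤ i + 1 ∧ g (p k) = g (p ⟨i + 1, hi⟩)) := by
          intro k hk
          rw [mem_insert, mem_filter] at hk
          rw [mem_filter]
          rcases hk with rfl | ⟨_, hk1, hk2⟩
          · exact ⟨mem_univ _, le_refl _, rfl⟩
          · exact ⟨mem_univ _, by omega, by rw [hk2, h5]⟩
        have h9 := card_le_card h8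
        rw [card_insert_of_notMem] at h9
        · rw [← h6]
          omega
        · rw [mem_filter]
          rintro ⟨_, h10, _⟩
          simp at h10
  rcases Nat.eq_zero_or_pos m with h0 | h0
  · omega
  · have h5 := key (m - 1) (by omega)
    set i : Fin m := ⟨m - 1, by omega⟩ with hi
    have h6 : ((univ : Finset (Fin m)).filter
        fun k : Fin m => (k : ℕ) ≤ m - 1 ∧ g (p k) = g (p i)).card ≤
        ((univ : Finset V).filter fun w => g w = g (p i)).card := by
      refine card_le_card_of_injOn p ?_ (fun a _ b _ hab => hp hab)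
      intro k hk
      simp only [coe_filter, mem_univ, true_and, Set.mem_ofPred_eq] at hk ⊢
      exact hk.2
    have h7 := h4 (p i)
    have h8 := (h1 (p i)).2
    omega

/-- degree in colour 1 (colour `true`) -/
def dg {V : Type} [Fintype V] [DecidableEq V] (c : V → V → Bool) (v : V) : ℕ :=
  ((univ : Finset V).filter fun w => w ≠ v ∧ c v w = true).card

/-- there is a good colouring on `N ^ 2` vertices, with all degrees in a short interval -/
def Good (N : ℕ) : Prop :=
  ∃ (V : Type) (_ : Fintype V) (_ : DecidableEq V) (c : V → V → Bool) (c₀ h : ℕ),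
    (∀ u v, c u v = c v u) ∧ Fintype.card V = N ^ 2 ∧ Fintype.card V = 2 * h ∧
    (∀ v, c₀ ≤ dg c v ∧ dg c v < c₀ + h) ∧
    PathCert N (fun u v => c u v = true) (fun v => (dg c v : ℤ)) ∧
    PathCert N (fun u v => c u v = false) (fun v => -(dg c v : ℤ))

/-- the data of a quotient: a weighted complete graph on `K ^ 2` vertices -/
structure Quot (K : ℕ) where
  /-- the weights, in units of one half -/
  w : Fin (K ^ 2) → Fin (K ^ 2) → ℕ
  /-- the label for colour 1 -/
  a : Fin (K ^ 2) → ℕ
  /-- the label for colour 2 -/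
  b : Fin (K ^ 2) → ℕ
  /-- the first degree -/
  lo : ℕ
  symm : ∀ p q, w p q = w q p
  le_two : ∀ p q, w p q ≤ 2
  self : ∀ p, w p p = 0
  sum : ∀ p, ∑ q, w p q = lo + p
  a_lt : ∀ p, a p < K
  b_lt : ∀ p, b p < K
  ha : ∀ p q, p < q → 1 ≤ w p q → a p < a q
  hb : ∀ p q, p < q → w p q ≤ 1 → b p < b q

/-- the colouring of the product -/
def pcol {K : ℕ} (Q : Quot K) {V : Type} (c : V → V → Bool) (s : V → Bool)
    (u v : Fin (K ^ 2) × V) : Bool :=
  if u.1 = v.1 then c u.2 v.2
  else if Q.w u.1 v.1 = 0 then false
  else if Q.w u.1 v.1 = 1 then xor (s u.2) (s v.2)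
  else true

theorem pcol_symm {K : ℕ} (Q : Quot K) {V : Type} (c : V → V → Bool) (s : V → Bool)
    (hc : ∀ u v, c u v = c v u) (u v : Fin (K ^ 2) × V) :
    pcol Q c s u v = pcol Q c s v u := by
  unfold pcol
  by_cases h : u.1 = v.1
  · rw [if_pos h, if_pos h.symm, hc]
  · rw [if_neg h, if_neg (Ne.symm h), Q.symm u.1 v.1, Bool.xor_comm]

theorem pcol_dg {K : ℕ} (Q : Quot K) {V : Type} [Fintype V] [DecidableEq V] (c : V → V → Bool)
    (s : V → Bool) (h : ℕ) (hV : Fintype.card V = 2 * h)
    (hs : ((univ : Finset V).filter fun v => s v = true).card = h) (p : Fin (K ^ 2)) (x : V) :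
    dg (pcol Q c s) (p, x) = dg c x + h * (Q.lo + p) := by
  have hs' : ((univ : Finset V).filter fun v => s v = false).card = h := by
    have h1 := card_filter_add_card_filter_not (s := (univ : Finset V)) (fun v => s v = true)
    rw [card_univ, hV, hs] at h1
    have h2 : ((univ : Finset V).filter fun v => ¬ s v = true) =
        (univ : Finset V).filter fun v => s v = false := by
      ext v; simp
    rw [h2] at h1
    omega
  have hxor : ∀ x : V, ((univ : Finset V).filter fun y => xor (s x) (s y) = true).card = h := by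
    intro x
    cases hx : s x
    · simpa using hs
    · simpa using hs'
  unfold dg
  rw [card_filter, Fintype.sum_prod_type]
  have h1 : ∀ q : Fin (K ^ 2), (∑ y : V, if (q, y) ≠ (p, x) ∧ pcol Q c s (p, x) (q, y) = true
      then 1 else 0) = (if q = p then ((univ : Finset V).filter
        fun w => w ≠ x ∧ c x w = true).card else 0) + h * Q.w p q := by
    intro q
    rw [← card_filter]
    by_cases hq : q = p
    · subst hq
      rw [if_pos rfl, Q.self, mul_zero, add_zero]
      congr 1
      ext y
      simp [pcol]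
    · rw [if_neg hq, zero_add]
      have h2 : ((univ : Finset V).filter
          fun y => (q, y) ≠ (p, x) ∧ pcol Q c s (p, x) (q, y) = true) =
          (univ : Finset V).filter fun y => pcol Q c s (p, x) (q, y) = true := by
        ext y
        simp [hq]
      rw [h2]
      unfold pcol
      simp only [Ne.symm hq, if_false]
      have h3 := Q.le_two p q
      by_cases h4 : Q.w p q = 0
      · simp [h4]
      · by_cases h5 : Q.w p q = 1
        · simp only [h5, one_ne_zero, if_false, if_true, mul_one]
          exact hxor x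
        · have h6 : Q.w p q = 2 := by omega
          simp only [h6]
          simp [hV, mul_comm]
  rw [sum_congr rfl fun q _ => h1 q, sum_add_distrib, ← mul_sum, Q.sum]
  congr 1
  simp

/-- the certificate of the product, for one colour -/
theorem pathCert_prod {K N : ℕ} {V : Type} [Fintype V] [DecidableEq V]
    {adj : V → V → Prop} {D : V → ℤ} (hc : PathCert N adj D)
    (adj' : Fin (K ^ 2) × V → Fin (K ^ 2) × V → Prop) (D' : Fin (K ^ 2) × V → ℤ)
    (a : Fin (K ^ 2) → ℕ) (ha : ∀ p, a p < K)
    (h1 : ∀ p x y, adj' (p, x) (p, y) → adj x y)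
    (h2 : ∀ p x y, D' (p, x) < D' (p, y) → D x < D y)
    (h3 : ∀ p x y, D' (p, x) = D' (p, y) → D x = D y)
    (h4 : ∀ p q x y, p ≠ q → D' (p, x) ≠ D' (q, y))
    (h5 : ∀ p q x y, p ≠ q → adj' (p, x) (q, y) → D' (p, x) < D' (q, y) → a p < a q) :
    PathCert (K * N) adj' D' := by
  obtain ⟨l, r, g, c1, c2, c3, c4⟩ := hc
  refine ⟨fun u => N * a u.1 + l u.2, fun u => N * a u.1 + r u.2, fun u => (u.1, g u.2),
    ?_, ?_, ?_, ?_⟩
  · rintro ⟨p, x⟩
    have h6 := c1 x
    refine ⟨by simp only; omega, ?_⟩
    simp only
    have h7 : N * (a p + 1) ≤ N * K := Nat.mul_le_mul_left _ (ha p)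
    rw [mul_comm K N]
    rw [mul_add, mul_one] at h7
    omega
  · rintro ⟨p, x⟩ ⟨q, y⟩ hne hadj hlt
    simp only
    by_cases hpq : p = q
    · subst hpq
      have hxy : x ≠ y := fun h => hne (by rw [h])
      have := c2 x y hxy (h1 _ _ _ hadj) (h2 _ _ _ hlt)
      omega
    · have h6 := h5 _ _ _ _ hpq hadj hlt
      have h7 := (c1 x).2
      have h8 := (c1 y).1
      have h9 : N * (a p + 1) ≤ N * a q := Nat.mul_le_mul_left _ h6
      rw [mul_add, mul_one] at h9
      omega
  · rintro ⟨p, x⟩ ⟨q, y⟩ hne hadj heq
    by_cases hpq : p = q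
    · subst hpq
      have hxy : x ≠ y := fun h => hne (by rw [h])
      obtain ⟨h6, h7, h8⟩ := c3 x y hxy (h1 _ _ _ hadj) (h3 _ _ _ heq)
      simp only
      rw [h6, h7, h8]
      exact ⟨rfl, rfl, rfl⟩
    · exact absurd heq (h4 _ _ _ _ hpq)
  · rintro ⟨p, x⟩
    have h6 : ((univ : Finset (Fin (K ^ 2) × V)).filter
        fun w => ((w.1, g w.2) : Fin (K ^ 2) × V) = (p, g x)).card =
        ((univ : Finset V).filter fun w => g w = g x).card := by
      refine card_bij (fun w _ => w.2) ?_ ?_ ?_
      · intro w hw
        simp only [mem_filter, mem_univ, true_and, Prod.mk.injEq] at hw ⊢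
        exact hw.2
      · intro w hw w' hw' h
        simp only [mem_filter, mem_univ, true_and, Prod.mk.injEq] at hw hw'
        exact Prod.ext (hw.1.trans hw'.1.symm) h
      · intro y hy
        simp only [mem_filter, mem_univ, true_and] at hy
        exact ⟨(p, y), by simp [hy], rfl⟩
    have h7 := c4 x
    simp only
    rw [h6]
    omega

/-- **The product step.** -/
theorem Good.mul {K N : ℕ} (Q : Quot K) (hG : Good N) : Good (K * N) := by
  classical
  obtain ⟨V, _, _, c, c₀, h, hsymm, hcard, hh, hdeg, hp1, hp2⟩ := hG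
  obtain ⟨S, hS1, hS2⟩ := exists_subset_card_eq (s := (univ : Finset V)) (n := h)
    (by rw [card_univ, hh]; omega)
  set s : V → Bool := fun v => decide (v ∈ S) with hs
  have hs' : ((univ : Finset V).filter fun v => s v = true).card = h := by
    rw [← hS2]
    congr 1
    ext v
    simp [hs]
  have hD : ∀ p x, dg (pcol Q c s) (p, x) = dg c x + h * (Q.lo + p) := pcol_dg Q c s h hh hs'
  have hmono : ∀ (p q : Fin (K ^ 2)) (x y : V), p < q →
      dg (pcol Q c s) (p, x) < dg (pcol Q c s) (q, y) := by
    intro p q x y hpq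
    rw [hD, hD]
    have h1 := (hdeg x).2
    have h2 := (hdeg y).1
    have h3 : h * (Q.lo + p + 1) ≤ h * (Q.lo + q) := by
      apply Nat.mul_le_mul_left
      have : (p : ℕ) < q := hpq
      omega
    rw [mul_add, mul_one] at h3
    omega
  refine ⟨Fin (K ^ 2) × V, inferInstance, inferInstance, pcol Q c s, c₀ + h * Q.lo,
    K ^ 2 * h, pcol_symm Q c s hsymm, ?_, ?_, ?_, ?_, ?_⟩
  · rw [Fintype.card_prod, Fintype.card_fin, hcard]; ring
  · rw [Fintype.card_prod, Fintype.card_fin, hh]; ring
  · rintro ⟨p, x⟩
    rw [hD]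
    have h1 := hdeg x
    have h2 : h * (Q.lo + p) = h * Q.lo + h * p := by ring
    have h3 : h * (p + 1) ≤ h * K ^ 2 := Nat.mul_le_mul_left _ p.2
    rw [h2]
    rw [mul_add, mul_one, mul_comm h (K ^ 2)] at h3
    constructor
    · omega
    · omega
  · refine pathCert_prod hp1 _ _ Q.a Q.a_lt ?_ ?_ ?_ ?_ ?_
    · intro p x y hadj
      simpa [pcol] using hadj
    · intro p x y hlt
      rw [hD, hD] at hlt
      push_cast at hlt ⊢
      linarith
    · intro p x y heq
      rw [hD, hD] at heq
      push_cast at heq ⊢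
      linarith
    · intro p q x y hpq heq
      rcases lt_or_gt_of_ne hpq with hlt | hlt
      · have := hmono p q x y hlt
        simp only [Nat.cast_inj] at heq
        omega
      · have := hmono q p y x hlt
        simp only [Nat.cast_inj] at heq
        omega
    · intro p q x y hpq hadj hlt
      have hpq' : p < q := by
        rcases lt_or_gt_of_ne hpq with h1 | h1
        · exact h1
        · have := hmono q p y x h1
          simp only [Nat.cast_lt] at hlt
          omega
      apply Q.ha p q hpq'
      by_contra hcon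
      have h0 : Q.w p q = 0 := by omega
      simp [pcol, hpq, h0] at hadj
  · refine pathCert_prod hp2 _ _ (fun p => K - 1 - Q.b p) ?_ ?_ ?_ ?_ ?_ ?_
    · intro p
      have := Q.b_lt p
      omega
    · intro p x y hadj
      simpa [pcol] using hadj
    · intro p x y hlt
      rw [hD, hD] at hlt
      push_cast at hlt ⊢
      linarith
    · intro p x y heq
      rw [hD, hD] at heq
      push_cast at heq ⊢
      linarith
    · intro p q x y hpq heq
      rcases lt_or_gt_of_ne hpq with hlt | hlt
      · have := hmono p q x y hlt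
        simp only [neg_inj, Nat.cast_inj] at heq
        omega
      · have := hmono q p y x hlt
        simp only [neg_inj, Nat.cast_inj] at heq
        omega
    · intro p q x y hpq hadj hlt
      have hpq' : q < p := by
        rcases lt_or_gt_of_ne hpq with h1 | h1
        · have := hmono p q x y h1
          simp only [neg_lt_neg_iff, Nat.cast_lt] at hlt
          omega
        · exact h1
      have h1 : Q.b q < Q.b p := by
        apply Q.hb q p hpq'
        by_contra hcon
        have h0 : Q.w p q = 2 := by
          have := Q.le_two p q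
          rw [Q.symm q p] at hcon
          omega
        simp [pcol, hpq, h0] at hadj
      have h2 := Q.b_lt p
      omega

end Pool.Agent.R69.DegTwo
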