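import Pool.Agent.R69.DegTwo

/-!
# The base colouring on 36 vertices and the quotient on 49 vertices
-/

set_option autoImplicit false

namespace Pool.Agent.R69.DegTwo

open Finset

/-- adjacency matrix of the colour 1 graph of the base colouring (bit `j` of entry `i`) -/
def bRow : List ℕ := [17232265230, 51606454285, 66637006859, 68702699527,
   68702702688, 68702702672, 68702702640, 68711091968,
   68704800384, 68706897280, 68702700528, 51522831348,
   68719443968, 68719443968, 68719443968, 68719243265,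
   68719243265, 68719243265, 68717637635, 68717637635,
   68717637635, 68704792838, 68704793094, 68704792710,
   50331647, 33554431, 66588770296, 66588770296,
   66588770296, 66588770296, 66588770296, 2097151996,
   2097151996, 2097151996, 2097149951, 2097151998]

def bL1 : List ℕ := [1, 2, 3, 4, 1, 1, 1, 1, 1, 1, 4, 4, 1, 1, 1, 2, 2, 2,
   3, 3, 3, 4, 4, 4, 5, 5, 5, 5, 5, 5, 5, 6, 6, 6, 6, 6]

def bR1 : List ℕ := [1, 2, 3, 4, 3, 3, 3, 3, 3, 3, 4, 4, 1, 1, 1, 2, 2, 2,
   3, 3, 3, 4, 4, 4, 6, 6, 5, 5, 5, 5, 5, 6, 6, 6, 6, 6]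

def bG1 : List ℕ := [0, 1, 2, 3, 4, 4, 4, 7, 7, 7, 10, 11, 12, 13, 14, 15, 16, 17,
   18, 19, 20, 21, 22, 23, 24, 24, 26, 27, 28, 29, 30, 31, 32, 33, 34, 35]

def bL2 : List ℕ := [6, 6, 6, 6, 5, 5, 5, 4, 4, 4, 4, 4, 1, 1, 1, 1, 1, 1,
   1, 1, 1, 1, 1, 1, 6, 6, 1, 1, 1, 1, 1, 3, 3, 3, 1, 1]

def bR2 : List ℕ := [6, 6, 6, 6, 5, 5, 5, 4, 4, 4, 5, 5, 3, 3, 3, 3, 3, 3,
   3, 3, 3, 3, 3, 3, 6, 6, 5, 5, 5, 5, 5, 5, 5, 5, 2, 2]

def bG2 : List ℕ := [0, 1, 2, 3, 4, 5, 6, 7, 8, 9, 10, 10, 12, 12, 12, 15, 15, 15,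
   18, 18, 18, 21, 21, 21, 24, 25, 26, 26, 26, 26, 26, 31, 31, 31, 34, 34]

def bD : List ℕ := [12, 13, 14, 15, 16, 16, 16, 17, 17, 17, 18, 18, 21, 21, 21, 22, 22, 22,
   23, 23, 23, 24, 24, 24, 25, 25, 26, 26, 26, 26, 26, 27, 27, 27, 28, 28]

/-- the weights of the quotient, in base 4 -/
def qRow : List ℕ := [33557160, 1237940039285380274932681378,
   137472510602, 309485009821345206197291562,
   309485009821345206201485482, 29710560942849126735051489962,
   158461462963262037498564083712, 77380697188302693711093760,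
   24836174473133159632308051968, 5764158307922552042482212864,
   179056420994761956461562732544, 210449806678514646870326419712,
   11184810, 179663396535579555985975410688,
   5418606260981778766440169472, 183614682918062128775653490688,
   131959693414018529087897731072, 161292542514563239825167613952,
   45779430048, 132046131610120974429644161024,
   210481999540820052577007697920, 132046180161951413805237927936,
   211275087629528397696968163328, 210810871335031266648006852608,
   211275097664559555302790266880, 211197728773285771620571414528,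
   211275090588249226661832163328, 211275100032666940427206656000,
   211275100037846079998682726400, 211275100037418238034082529280,
   132046937512241679642931494912, 211275100026483570706594398208,
   204262524346024803861694251008, 211274294099789652513825816576,
   211275087457358729534312022016, 211275087457358099499586813952,
   211275087457349731098334101504, 211274306496001667813865422848,
   211274306496001661233975525376, 211274306496001661226929098752,
   805950546409615299444736, 205498852435026047091941052416,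
   210450612592167567098402832384, 210450612592166299324587261952,
   210450612592167495614310383936, 822875489437613377647017988,
   818039786159154827863853056, 822875507884357418071688192,
   822875506731431271747035136]

def qA : List ℕ := [0, 1, 2, 3, 4, 5, 0, 1, 2, 3, 4, 5, 6, 0, 1, 2, 3, 0,
   6, 4, 1, 2, 3, 0, 1, 2, 0, 1, 0, 1, 2, 2, 5, 4, 3, 3,
   3, 4, 4, 4, 6, 5, 5, 5, 5, 6, 6, 6, 6]

def qB : List ℕ := [0, 0, 0, 0, 0, 0, 1, 1, 1, 1, 1, 1, 0, 2, 2, 2, 2, 3,
   1, 2, 3, 3, 3, 4, 4, 4, 5, 5, 6, 6, 5, 6, 2, 3, 4, 5,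
   6, 4, 5, 6, 2, 3, 4, 5, 6, 3, 4, 5, 6]


/-- colour 1 graph of the base colouring -/
def bc (i j : ℕ) : Bool := (bRow.getD i 0).testBit j

/-- the numerical conditions on the base colouring -/
def bCheck (i j : ℕ) : Bool :=
  (bc i j == bc j i) &&
  (i == j || (if bc i j then
    (if bD.getD i 0 < bD.getD j 0 then bR1.getD i 0 < bL1.getD j 0 else true) &&
    (if bD.getD i 0 = bD.getD j 0 then (bG1.getD i 0 == bG1.getD j 0) &&
      (bL1.getD i 0 == bL1.getD j 0) && (bR1.getD i 0 == bR1.getD j 0) else true)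
  else
    (if bD.getD j 0 < bD.getD i 0 then bR2.getD i 0 < bL2.getD j 0 else true) &&
    (if bD.getD i 0 = bD.getD j 0 then (bG2.getD i 0 == bG2.getD j 0) &&
      (bL2.getD i 0 == bL2.getD j 0) && (bR2.getD i 0 == bR2.getD j 0) else true)))

theorem bCheck_all : ∀ i < 36, ∀ j < 36, bCheck i j = true := by decide +kernel

/-- conditions on single vertices -/
def bCheck1 (i : ℕ) : Bool :=
  (1 ≤ bL1.getD i 0) && (bR1.getD i 0 ≤ 6) && (1 ≤ bL2.getD i 0) && (bR2.getD i 0 ≤ 6) &&
  (bG1.getD i 0 < 36) && (bG2.getD i 0 < 36) && (12 ≤ bD.getD i 0) && (bD.getD i 0 < 30) &&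
  (((List.range 36).filter fun j => bG1.getD j 0 == bG1.getD i 0).length + bL1.getD i 0 ≤
    bR1.getD i 0 + 1) &&
  (((List.range 36).filter fun j => bG2.getD j 0 == bG2.getD i 0).length + bL2.getD i 0 ≤
    bR2.getD i 0 + 1) &&
  (((List.range 36).filter fun j => j != i && bc i j).length == bD.getD i 0)

theorem bCheck1_all : ∀ i < 36, bCheck1 i = true := by decide +kernel

theorem card_filter_fin (n : ℕ) (P : ℕ → Bool) :
    ((univ : Finset (Fin n)).filter fun j : Fin n => P j = true).card =
      ((List.range n).filter P).length := by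
  have h1 : ((univ : Finset (Fin n)).filter fun j : Fin n => P j = true).card =
      ((Finset.range n).filter fun j => P j = true).card := by
    refine card_bij (fun j _ => (j : ℕ)) ?_ ?_ ?_
    · intro j hj
      simp only [mem_filter, mem_univ, true_and, Finset.mem_range] at hj ⊢
      exact ⟨j.2, hj⟩
    · intro j _ k _ h
      exact Fin.ext h
    · intro j hj
      simp only [mem_filter, Finset.mem_range] at hj
      exact ⟨⟨j, hj.1⟩, by simp [hj.2], rfl⟩
  rw [h1]
  have h2 : (Finset.range n).filter (fun j => P j = true) =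
      ((List.range n).filter P).toFinset := by
    ext j
    simp
  rw [h2, List.toFinset_card_of_nodup]
  exact List.Nodup.filter _ List.nodup_range

/-- **The base.** -/
theorem good_six : Good 6 := by
  classical
  have hc1 := bCheck1_all
  have hc2 := bCheck_all
  simp only [bCheck1, Bool.and_eq_true, decide_eq_true_eq, beq_iff_eq] at hc1
  simp only [bCheck, Bool.and_eq_true, Bool.or_eq_true, beq_iff_eq] at hc2
  let c : Fin 36 → Fin 36 → Bool := fun i j => bc i j
  have hdg : ∀ i : Fin 36, dg c i = bD.getD i 0 := by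
    intro i
    have h1 := (hc1 i i.2).2
    rw [← h1, ← card_filter_fin]
    unfold dg
    congr 1
    ext j
    simp only [mem_filter, mem_univ, true_and, bne_iff_ne, ne_eq, Bool.and_eq_true, c]
    constructor
    · rintro ⟨h2, h3⟩
      exact ⟨fun h => h2 (Fin.ext h), h3⟩
    · rintro ⟨h2, h3⟩
      exact ⟨fun h => h2 (by rw [h]), h3⟩
  refine ⟨Fin 36, inferInstance, inferInstance, c, 12, 18, ?_, by simp, by simp, ?_, ?_, ?_⟩
  · intro u v
    exact (hc2 u u.2 v v.2).1
  · intro v
    rw [hdg]
    obtain ⟨⟨⟨⟨⟨⟨⟨⟨⟨⟨h1, h2⟩, h3⟩, h4⟩, h5⟩, h6⟩, h7⟩, h8⟩, h9⟩, h10⟩, h11⟩ := hc1 v v.2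
    exact ⟨h7, h8⟩
  · refine ⟨fun v => bL1.getD v 0, fun v => bR1.getD v 0,
      fun v => Fin.ofNat 36 (bG1.getD v 0), ?_, ?_, ?_, ?_⟩
    · intro v
      obtain ⟨⟨⟨⟨⟨⟨⟨⟨⟨⟨h1, h2⟩, h3⟩, h4⟩, h5⟩, h6⟩, h7⟩, h8⟩, h9⟩, h10⟩, h11⟩ := hc1 v v.2
      exact ⟨h1, h2⟩
    · intro u v huv hadj hlt
      simp only [hdg, Nat.cast_lt] at hlt
      have h1 := (hc2 u u.2 v v.2).2
      rcases h1 with h1 | h1
      · exact absurd (Fin.ext h1) huv
      · have hadj' : bc u v = true := hadj
        rw [if_pos hadj'] at h1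
        simp only [Bool.and_eq_true] at h1
        have h2 := h1.1
        rw [if_pos hlt] at h2
        simpa using h2
    · intro u v huv hadj heq
      simp only [hdg, Nat.cast_inj] at heq
      have h1 := (hc2 u u.2 v v.2).2
      rcases h1 with h1 | h1
      · exact absurd (Fin.ext h1) huv
      · have hadj' : bc u v = true := hadj
        rw [if_pos hadj'] at h1
        simp only [Bool.and_eq_true] at h1
        have h2 := h1.2
        rw [if_pos heq] at h2
        simp only [Bool.and_eq_true, beq_iff_eq] at h2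
        obtain ⟨⟨h3, h4⟩, h5⟩ := h2
        exact ⟨congrArg (Fin.ofNat 36) h3, h4, h5⟩
    · intro v
      obtain ⟨⟨⟨⟨⟨⟨⟨⟨⟨⟨h1, h2⟩, h3⟩, h4⟩, h5⟩, h6⟩, h7⟩, h8⟩, h9⟩, h10⟩, h11⟩ := hc1 v v.2
      refine le_trans (Nat.add_le_add_right (le_of_eq ?_) _) h9
      rw [← card_filter_fin]
      congr 1
      ext w
      simp only [mem_filter, mem_univ, true_and, beq_iff_eq]
      have hw : bG1.getD w 0 < 36 := by
        obtain ⟨⟨⟨⟨⟨⟨⟨⟨⟨⟨h1, h2⟩, h3⟩, h4⟩, h5⟩, h6⟩, h7⟩, h8⟩, h9⟩, h10⟩, h11⟩ := hc1 w w.2
        exact h5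
      constructor
      · intro h
        have := congrArg Fin.val h
        simp only [Fin.ofNat, Nat.mod_eq_of_lt hw, Nat.mod_eq_of_lt h5] at this
        exact this
      · intro h
        rw [h]
  · refine ⟨fun v => bL2.getD v 0, fun v => bR2.getD v 0,
      fun v => Fin.ofNat 36 (bG2.getD v 0), ?_, ?_, ?_, ?_⟩
    · intro v
      obtain ⟨⟨⟨⟨⟨⟨⟨⟨⟨⟨h1, h2⟩, h3⟩, h4⟩, h5⟩, h6⟩, h7⟩, h8⟩, h9⟩, h10⟩, h11⟩ := hc1 v v.2
      exact ⟨h3, h4⟩
    · intro u v huv hadj hlt
      simp only [hdg, neg_lt_neg_iff, Nat.cast_lt] at hlt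
      have h1 := (hc2 u u.2 v v.2).2
      rcases h1 with h1 | h1
      · exact absurd (Fin.ext h1) huv
      · have hadj' : ¬ bc u v = true := by
          have : bc u v = false := hadj
          rw [this]; simp
        rw [if_neg hadj'] at h1
        simp only [Bool.and_eq_true] at h1
        have h2 := h1.1
        rw [if_pos hlt] at h2
        simpa using h2
    · intro u v huv hadj heq
      simp only [hdg, neg_inj, Nat.cast_inj] at heq
      have h1 := (hc2 u u.2 v v.2).2
      rcases h1 with h1 | h1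
      · exact absurd (Fin.ext h1) huv
      · have hadj' : ¬ bc u v = true := by
          have : bc u v = false := hadj
          rw [this]; simp
        rw [if_neg hadj'] at h1
        simp only [Bool.and_eq_true] at h1
        have h2 := h1.2
        rw [if_pos heq] at h2
        simp only [Bool.and_eq_true, beq_iff_eq] at h2
        obtain ⟨⟨h3, h4⟩, h5⟩ := h2
        exact ⟨congrArg (Fin.ofNat 36) h3, h4, h5⟩
    · intro v
      obtain ⟨⟨⟨⟨⟨⟨⟨⟨⟨⟨h1, h2⟩, h3⟩, h4⟩, h5⟩, h6⟩, h7⟩, h8⟩, h9⟩, h10⟩, h11⟩ := hc1 v v.2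
      refine le_trans (Nat.add_le_add_right (le_of_eq ?_) _) h10
      rw [← card_filter_fin]
      congr 1
      ext w
      simp only [mem_filter, mem_univ, true_and, beq_iff_eq]
      have hw : bG2.getD w 0 < 36 := by
        obtain ⟨⟨⟨⟨⟨⟨⟨⟨⟨⟨h1, h2⟩, h3⟩, h4⟩, h5⟩, h6⟩, h7⟩, h8⟩, h9⟩, h10⟩, h11⟩ := hc1 w w.2
        exact h6
      constructor
      · intro h
        have := congrArg Fin.val h
        simp only [Fin.ofNat, Nat.mod_eq_of_lt hw, Nat.mod_eq_of_lt h6] at this
        exact this
      · intro h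
        rw [h]

/-- the weights of the quotient -/
def qw (i j : ℕ) : ℕ := (qRow.getD i 0) / 4 ^ j % 4

/-- the conditions on the quotient -/
def qCheck (i j : ℕ) : Bool :=
  (qw i j == qw j i) && (qw i j ≤ 2) &&
  (if i < j then (qw i j = 0 || qA.getD i 0 < qA.getD j 0) &&
    (qw i j = 2 || qB.getD i 0 < qB.getD j 0) else true)

theorem qCheck_all : ∀ i < 49, ∀ j < 49, qCheck i j = true := by decide +kernel

/-- conditions on single vertices -/
def qCheck1 (i : ℕ) : Bool :=
  (qw i i == 0) && (((List.range 49).map fun j => qw i j).sum == 12 + i) &&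
  (qA.getD i 0 < 7) && (qB.getD i 0 < 7)

theorem qCheck1_all : ∀ i < 49, qCheck1 i = true := by decide +kernel

theorem sum_list_range (n : ℕ) (f : ℕ → ℕ) :
    ((List.range n).map f).sum = ∑ i ∈ Finset.range n, f i := by
  induction n with
  | zero => simp
  | succ n ih => rw [List.range_succ, List.map_append, List.sum_append, ih,
      Finset.sum_range_succ]; simp

/-- **The quotient.** -/
def quot7 : Quot 7 where
  w p q := qw p q
  a p := qA.getD p 0
  b p := qB.getD p 0
  lo := 12
  symm p q := by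
    have h := qCheck_all p p.2 q q.2
    simp only [qCheck, Bool.and_eq_true, beq_iff_eq] at h
    exact h.1.1
  le_two p q := by
    have h := qCheck_all p p.2 q q.2
    simp only [qCheck, Bool.and_eq_true, decide_eq_true_eq] at h
    exact h.1.2
  self p := by
    have h := qCheck1_all p p.2
    simp only [qCheck1, Bool.and_eq_true, beq_iff_eq] at h
    exact h.1.1.1
  sum p := by
    have h := qCheck1_all p p.2
    simp only [qCheck1, Bool.and_eq_true, beq_iff_eq] at h
    rw [← h.1.1.2]
    rw [sum_list_range]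
    exact Fin.sum_univ_eq_sum_range (fun j => qw p j) 49
  a_lt p := by
    have h := qCheck1_all p p.2
    simp only [qCheck1, Bool.and_eq_true, decide_eq_true_eq] at h
    exact h.1.2
  b_lt p := by
    have h := qCheck1_all p p.2
    simp only [qCheck1, Bool.and_eq_true, decide_eq_true_eq] at h
    exact h.2
  ha p q hpq hw := by
    have h := (qCheck_all p p.2 q q.2)
    simp only [qCheck, Bool.and_eq_true] at h
    have h2 := h.2
    rw [if_pos (show (p : ℕ) < q from hpq)] at h2
    simp only [Bool.and_eq_true, Bool.or_eq_true, decide_eq_true_eq] at h2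
    rcases h2.1 with h3 | h3
    · omega
    · exact h3
  hb p q hpq hw := by
    have h := (qCheck_all p p.2 q q.2)
    simp only [qCheck, Bool.and_eq_true] at h
    have h2 := h.2
    rw [if_pos (show (p : ℕ) < q from hpq)] at h2
    simp only [Bool.and_eq_true, Bool.or_eq_true, decide_eq_true_eq] at h2
    rcases h2.2 with h3 | h3
    · omega
    · exact h3

/-- the infinite family -/
theorem good_family (k : ℕ) : Good (6 * 7 ^ k) := by
  induction k with
  | zero => exact good_six
  | succ k ih =>
    have := ih.mul quot7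
    rwa [show 7 * (6 * 7 ^ k) = 6 * 7 ^ (k + 1) by ring] at this

end Pool.Agent.R69.DegTwo
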