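import Mathlib

/-!
# Faces of multidimensional continued fractions (Klein polyhedra): basic definitions and the
comparison of relative frequencies through sublattices
-/

set_option autoImplicit false

open MeasureTheory

namespace Pool.Agent.R69.Klein

/-- The space `ℝ^{n+1}`. -/
abbrev Sp (n : ℕ) := Fin (n + 1) → ℝ

/-- `x` is an integer point. -/
def IsInt {n : ℕ} (x : Sp n) : Prop := ∀ i, ∃ m : ℤ, x i = m

/-- The line through the origin and `u`. -/
def line {n : ℕ} (u : Sp n) : Submodule ℝ (Sp n) := Submodule.span ℝ {u}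

/-- `CF n` is the set of `n`-dimensional continued fractions: unordered collections of `n + 1` lines
through the origin of `ℝ^{n+1}` that do not lie in a common hyperplane. -/
def CF (n : ℕ) : Type :=
  {c : Set (Submodule ℝ (Sp n)) // ∃ u : Fin (n + 1) → Sp n, LinearIndependent ℝ u ∧
    c = Set.range (fun i => line (u i))}

/-- The simplicial cone with the edges `ℝ₊ u_i`. -/
def cone {n : ℕ} (u : Fin (n + 1) → Sp n) : Set (Sp n) :=
  {x | ∃ c : Fin (n + 1) → ℝ, (∀ i, 0 ≤ c i) ∧ ∑ i, c i • u i = x}

/-- The convex hull of the nonzero integer points of the cone; its boundary is the sail. -/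
def hull {n : ℕ} (u : Fin (n + 1) → Sp n) : Set (Sp n) :=
  convexHull ℝ {x | x ∈ cone u ∧ IsInt x ∧ x ≠ 0}

/-- `F` is an `n`-dimensional face of the convex set `K ⊆ ℝ^{n+1}`: it is cut out of `K` by a
supporting hyperplane and its affine hull has dimension `n`. -/
def IsFacet {n : ℕ} (K F : Set (Sp n)) : Prop :=
  ∃ (φ : Sp n →ₗ[ℝ] ℝ) (b : ℝ), φ ≠ 0 ∧ (∀ x ∈ K, b ≤ φ x) ∧ F = {x | x ∈ K ∧ φ x = b} ∧
    Module.finrank ℝ (vectorSpan ℝ F) = n

/-- `F` is a face of the continued fraction `c`: an `n`-dimensional face of the sail of one of the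
cones bounded by the lines of `c`. -/
def HasFace {n : ℕ} (c : CF n) (F : Set (Sp n)) : Prop :=
  ∃ u : Fin (n + 1) → Sp n, LinearIndependent ℝ u ∧ c.1 = Set.range (fun i => line (u i)) ∧
    IsFacet (hull u) F

/-- The set `CF_n(F)` of the continued fractions that have `F` as a face. -/
def withFace {n : ℕ} (F : Set (Sp n)) : Set (CF n) := {c | HasFace c F}

theorem line_map {n : ℕ} (g : Sp n ≃ₗ[ℝ] Sp n) (u : Sp n) :
    (line u).map g.toLinearMap = line (g u) := by
  unfold line
  rw [Submodule.map_span, Set.image_singleton]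
  rfl

theorem li_map {n : ℕ} (g : Sp n ≃ₗ[ℝ] Sp n) {u : Fin (n + 1) → Sp n}
    (h : LinearIndependent ℝ u) : LinearIndependent ℝ (fun i => g (u i)) :=
  h.map' g.toLinearMap (LinearMap.ker_eq_bot.2 g.injective)

/-- The action of a linear automorphism of `ℝ^{n+1}` on continued fractions. -/
def act {n : ℕ} (g : Sp n ≃ₗ[ℝ] Sp n) (c : CF n) : CF n :=
  ⟨(fun l => l.map g.toLinearMap) '' c.1, by
    obtain ⟨u, hu, hc⟩ := c.2
    refine ⟨fun i => g (u i), li_map g hu, ?_⟩
    rw [hc, ← Set.range_comp]
    congr 1
    funext i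
    exact line_map g (u i)⟩

/-- `μ` is invariant under all linear automorphisms of `ℝ^{n+1}` (that is, under
`PGL(n+1, ℝ)`). -/
def Invariant {n : ℕ} [MeasurableSpace (CF n)] (μ : Measure (CF n)) : Prop :=
  ∀ g : Sp n ≃ₗ[ℝ] Sp n, MeasurePreserving (act g) μ μ

/-- `F` is a polytope with integer vertices. -/
def IsLatticePolytope {n : ℕ} (F : Set (Sp n)) : Prop :=
  ∃ W : Set (Sp n), W.Finite ∧ (∀ w ∈ W, IsInt w) ∧ F = convexHull ℝ W

theorem act_range {n : ℕ} (g : Sp n ≃ₗ[ℝ] Sp n) (c : CF n) {u : Fin (n + 1) → Sp n}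
    (hc : c.1 = Set.range (fun i => line (u i))) :
    (act g c).1 = Set.range (fun i => line (g (u i))) := by
  change (fun l => Submodule.map g.toLinearMap l) '' c.1 = _
  rw [hc, ← Set.range_comp]
  congr 1
  funext i
  exact line_map g (u i)

theorem act_act_symm {n : ℕ} (g : Sp n ≃ₗ[ℝ] Sp n) (c : CF n) : act g (act g.symm c) = c := by
  obtain ⟨u, hu, hc⟩ := c.2
  apply Subtype.ext
  rw [act_range g _ (act_range g.symm c hc), hc]
  simp

theorem act_symm_act {n : ℕ} (g : Sp n ≃ₗ[ℝ] Sp n) (c : CF n) : act g.symm (act g c) = c := by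
  obtain ⟨u, hu, hc⟩ := c.2
  apply Subtype.ext
  rw [act_range g.symm _ (act_range g c hc), hc]
  simp

theorem measure_preimage {n : ℕ} [MeasurableSpace (CF n)] {μ : Measure (CF n)}
    (hμ : Invariant μ) (g : Sp n ≃ₗ[ℝ] Sp n) (s : Set (CF n)) : μ (act g ⁻¹' s) = μ s := by
  let e : CF n ≃ᵐ CF n :=
    { toFun := act g
      invFun := act g.symm
      left_inv := act_symm_act g
      right_inv := act_act_symm g
      measurable_toFun := (hμ g).measurable
      measurable_invFun := (hμ g.symm).measurable }
  have he : MeasurePreserving (e : CF n → CF n) μ μ := hμ g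
  exact he.measure_preimage_equiv s

theorem cone_convex {n : ℕ} (u : Fin (n + 1) → Sp n) : Convex ℝ (cone u) := by
  rintro x ⟨c, hc, rfl⟩ y ⟨d, hd, rfl⟩ a b ha hb _
  refine ⟨fun i => a * c i + b * d i, fun i => ?_, ?_⟩
  · have := hc i
    have := hd i
    positivity
  · simp only [add_smul, Finset.sum_add_distrib, mul_smul, Finset.smul_sum]

theorem hull_subset_cone {n : ℕ} (u : Fin (n + 1) → Sp n) : hull u ⊆ cone u :=
  convexHull_min (fun _ hx => hx.1) (cone_convex u)

/-- `0` is not in the hull. -/
theorem zero_notMem_hull {n : ℕ} {u : Fin (n + 1) → Sp n} (hu : LinearIndependent ℝ u) :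
    (0 : Sp n) ∉ hull u := by
  -- the linear functional `sum of the coordinates` is positive on the nonzero points of the cone
  let b : Module.Basis (Fin (n + 1)) ℝ (Sp n) :=
    basisOfLinearIndependentOfCardEqFinrank hu (by simp)
  have hb : ∀ i, b i = u i := fun i => by
    simp [b]
  let ψ : Sp n →ₗ[ℝ] ℝ := b.constr ℝ (fun _ => (1 : ℝ))
  have hψ : ∀ c : Fin (n + 1) → ℝ, ψ (∑ i, c i • u i) = ∑ i, c i := by
    intro c
    simp only [map_sum, map_smul]
    refine Finset.sum_congr rfl fun i _ => ?_
    rw [← hb i, Module.Basis.constr_basis]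
    simp
  have hpos : ∀ x ∈ {x | x ∈ cone u ∧ IsInt x ∧ x ≠ 0}, 0 < ψ x := by
    rintro x ⟨⟨c, hc, rfl⟩, _, hx⟩
    rw [hψ]
    have : 0 ≤ ∑ i, c i := Finset.sum_nonneg fun i _ => hc i
    rcases this.lt_or_eq with h | h
    · exact h
    · exfalso
      apply hx
      have : ∀ i ∈ Finset.univ, c i = 0 := by
        rw [← Finset.sum_eq_zero_iff_of_nonneg (fun i _ => hc i)]
        exact h.symm
      exact Finset.sum_eq_zero fun i hi => by rw [this i hi, zero_smul]
  have hconv : Convex ℝ {x : Sp n | 0 < ψ x} := by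
    have := (convex_Ioi (0 : ℝ)).linear_preimage ψ
    exact this
  intro h0
  have : (0 : Sp n) ∈ {x : Sp n | 0 < ψ x} := convexHull_min hpos hconv h0
  simp at this

/-- the points of a convex hull on a supporting hyperplane -/
theorem mem_convexHull_face {n : ℕ} {S : Set (Sp n)} {φ : Sp n →ₗ[ℝ] ℝ} {b : ℝ}
    (h : ∀ s ∈ S, b ≤ φ s) {x : Sp n} (hx : x ∈ convexHull ℝ S) (hxb : φ x = b) :
    x ∈ convexHull ℝ {s | s ∈ S ∧ φ s = b} := by
  set T : Set (Sp n) := {y | b < φ y} ∪ convexHull ℝ {s | s ∈ S ∧ φ s = b} with hT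
  have hle : ∀ y ∈ convexHull ℝ {s | s ∈ S ∧ φ s = b}, φ y = b := by
    have hc : Convex ℝ {y : Sp n | φ y = b} := by
      have := (convex_singleton b).linear_preimage φ
      exact this
    intro y hy
    exact convexHull_min (fun s hs => hs.2) hc hy
  have hconv : Convex ℝ T := by
    intro y hy z hz s t hs ht hst
    rcases hy with hy | hy
    · rcases hz with hz | hz
      · left
        change b < φ (s • y + t • z)
        have hy' : b < φ y := hy
        have hz' : b < φ z := hz
        rw [map_add, map_smul, map_smul, smul_eq_mul, smul_eq_mul]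
        rcases hs.lt_or_eq with h1 | h1
        · have e1 := mul_lt_mul_of_pos_left hy' h1
          have e2 := mul_le_mul_of_nonneg_left hz'.le ht
          have e3 : s * b + t * b = b := by rw [← add_mul, hst, one_mul]
          linarith
        · have : t = 1 := by linarith
          rw [← h1, this]; linarith
      · rcases hs.lt_or_eq with h1 | h1
        · left
          change b < φ (s • y + t • z)
          have hy' : b < φ y := hy
          rw [map_add, map_smul, map_smul, smul_eq_mul, smul_eq_mul, hle z hz]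
          have e1 := mul_lt_mul_of_pos_left hy' h1
          have e3 : s * b + t * b = b := by rw [← add_mul, hst, one_mul]
          linarith
        · right
          have : t = 1 := by linarith
          rw [← h1, this, zero_smul, one_smul, zero_add]
          exact hz
    · rcases hz with hz | hz
      · rcases ht.lt_or_eq with h1 | h1
        · left
          change b < φ (s • y + t • z)
          have hz' : b < φ z := hz
          rw [map_add, map_smul, map_smul, smul_eq_mul, smul_eq_mul, hle y hy]
          have e1 := mul_lt_mul_of_pos_left hz' h1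
          have e3 : s * b + t * b = b := by rw [← add_mul, hst, one_mul]
          linarith
        · right
          have : s = 1 := by linarith
          rw [← h1, this, zero_smul, one_smul, add_zero]
          exact hy
      · right
        exact (convex_convexHull ℝ _) hy hz hs ht hst
  have hST : S ⊆ T := by
    intro s hs
    rcases (h s hs).lt_or_eq with h1 | h1
    · left; exact h1
    · right; exact subset_convexHull ℝ _ ⟨hs, h1.symm⟩
  rcases convexHull_min hST hconv hx with h1 | h1
  · exfalso
    have : b < φ x := h1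
    linarith
  · exact h1

/-- The comparison map: if `A` sends integer points to integer points, `F` is a face of `c`, and
there are `n + 1` linearly independent integer points `p_i` with `A p_i ∈ F`, then the convex hull
of the integer points of `A⁻¹ F` is a face of `A⁻¹ c`. -/
theorem hasFace_comap {n : ℕ} (A : Sp n ≃ₗ[ℝ] Sp n) (hA : ∀ x, IsInt x → IsInt (A x))
    {F : Set (Sp n)} {p : Fin (n + 1) → Sp n} (hp : LinearIndependent ℝ p)
    (hpF : ∀ i, IsInt (p i) ∧ A (p i) ∈ F) {c : CF n} (hc : HasFace c F) :
    HasFace (act A.symm c) (convexHull ℝ {x | IsInt x ∧ A x ∈ F}) := by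
  obtain ⟨u, hu, hcu, φ, b, hφ, hK, hF, hdim⟩ := hc
  have hint : ∀ z, z ∈ cone (fun i => A.symm (u i)) → IsInt z → z ≠ 0 → A z ∈ hull u := by
    intro z hz hzi hz0
    refine subset_convexHull ℝ _ ⟨?_, hA z hzi, ?_⟩
    · obtain ⟨d, hd, rfl⟩ := hz
      exact ⟨d, hd, by simp [map_sum]⟩
    · intro h
      exact hz0 (by simpa using h)
  have hb : ∀ z ∈ {x | x ∈ cone (fun i => A.symm (u i)) ∧ IsInt x ∧ x ≠ 0},
      b ≤ (φ.comp A.toLinearMap) z := fun z hz => hK _ (hint z hz.1 hz.2.1 hz.2.2)
  have hbK : ∀ x ∈ hull (fun i => A.symm (u i)), b ≤ (φ.comp A.toLinearMap) x := by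
    have hcv : Convex ℝ {x : Sp n | b ≤ (φ.comp A.toLinearMap) x} :=
      (convex_Ici b).linear_preimage (φ.comp A.toLinearMap)
    exact convexHull_min hb hcv
  refine ⟨fun i => A.symm (u i), li_map A.symm hu, act_range A.symm c hcu,
    φ.comp A.toLinearMap, b, ?_, hbK, ?_, ?_⟩
  · intro h
    apply hφ
    ext x
    have := congrArg (fun f => f (A.symm (Pi.single x 1))) h
    simpa using this
  · apply Set.Subset.antisymm
    · apply convexHull_min
      · rintro x ⟨hxi, hxF⟩
        have hAx : A x ∈ hull u ∧ φ (A x) = b := by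
          rw [hF] at hxF
          exact hxF
        refine ⟨subset_convexHull ℝ _ ⟨?_, hxi, ?_⟩, hAx.2⟩
        · obtain ⟨d, hd, hde⟩ := hull_subset_cone u hAx.1
          refine ⟨d, hd, ?_⟩
          apply A.injective
          rw [map_sum, ← hde]
          simp
        · rintro rfl
          apply zero_notMem_hull hu
          simpa using hAx.1
      · have h1 : Convex ℝ {x : Sp n | (φ.comp A.toLinearMap) x = b} :=
          (convex_singleton b).linear_preimage (φ.comp A.toLinearMap)
        exact (convex_convexHull ℝ _).inter h1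
    · rintro x ⟨hx, hxb⟩
      have := mem_convexHull_face hb hx hxb
      refine convexHull_mono ?_ this
      rintro z ⟨⟨hz1, hz2, hz3⟩, hz4⟩
      refine ⟨hz2, ?_⟩
      rw [hF]
      exact ⟨hint z hz1 hz2 hz3, hz4⟩
  · -- dimension
    apply le_antisymm
    · have hsub : vectorSpan ℝ (convexHull ℝ {x | IsInt x ∧ A x ∈ F}) ≤
          LinearMap.ker (φ.comp A.toLinearMap) := by
        have h1 : ∀ x ∈ convexHull ℝ {x | IsInt x ∧ A x ∈ F}, (φ.comp A.toLinearMap) x = b := by
          have hcv : Convex ℝ {x : Sp n | (φ.comp A.toLinearMap) x = b} :=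
            (convex_singleton b).linear_preimage (φ.comp A.toLinearMap)
          apply convexHull_min _ hcv
          rintro x ⟨_, hxF⟩
          rw [hF] at hxF
          exact hxF.2
        rw [vectorSpan_def, Submodule.span_le]
        rintro y ⟨s, hs, t, ht, rfl⟩
        change (φ.comp A.toLinearMap) (s -ᵥ t) = 0
        rw [vsub_eq_sub, map_sub, h1 s hs, h1 t ht, sub_self]
      have hne : φ.comp A.toLinearMap ≠ 0 := by
        intro h
        apply hφ
        ext x
        have := congrArg (fun f => f (A.symm (Pi.single x 1))) h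
        simpa using this
      have hker : Module.finrank ℝ (LinearMap.ker (φ.comp A.toLinearMap)) = n := by
        have h2 := LinearMap.finrank_range_add_finrank_ker (φ.comp A.toLinearMap)
        have h3 : LinearMap.range (φ.comp A.toLinearMap) = ⊤ :=
          LinearMap.range_eq_top.2 (LinearMap.surjective hne)
        rw [h3, finrank_top] at h2
        simp at h2
        omega
      calc _ ≤ Module.finrank ℝ (LinearMap.ker (φ.comp A.toLinearMap)) :=
            Submodule.finrank_mono hsub
        _ = n := hker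
    · have haff : AffineIndependent ℝ p := hp.affineIndependent
      have h1 := haff.finrank_vectorSpan (n := n) (by simp)
      refine h1.symm.le.trans ?_
      apply Submodule.finrank_mono
      apply vectorSpan_mono
      rintro _ ⟨i, rfl⟩
      exact subset_convexHull ℝ _ (hpF i)

/-- The measure inequality that follows. -/
theorem measure_le {n : ℕ} [MeasurableSpace (CF n)] {μ : Measure (CF n)} (hμ : Invariant μ)
    (A : Sp n ≃ₗ[ℝ] Sp n) (hA : ∀ x, IsInt x → IsInt (A x))
    {F : Set (Sp n)} {p : Fin (n + 1) → Sp n} (hp : LinearIndependent ℝ p)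
    (hpF : ∀ i, IsInt (p i) ∧ A (p i) ∈ F) :
    μ (withFace F) ≤ μ (withFace (convexHull ℝ {x | IsInt x ∧ A x ∈ F})) := by
  rw [← measure_preimage hμ A.symm (withFace (convexHull ℝ {x | IsInt x ∧ A x ∈ F}))]
  exact measure_mono fun c hc => hasFace_comap A hA hp hpF hc

end Pool.Agent.R69.Klein
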