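import Pool.Agent.R69.Klein

/-!
# The reduction to totally unimodular faces
-/

set_option autoImplicit false

open MeasureTheory

namespace Pool.Agent.R69.Klein

/-- the determinant of `n + 1` vectors of `ℝ^{n+1}` -/
noncomputable def dt {n : ℕ} (y : Fin (n + 1) → Sp n) : ℝ := (Matrix.of y).det

theorem dt_eq {n : ℕ} (y : Fin (n + 1) → Sp n) :
    dt y = Matrix.detRowAlternating (R := ℝ) y := rfl

/-- the maximum of `|det|` over tuples of points of a convex hull is attained at generators -/
theorem dt_le_of_convexHull {n : ℕ} {W : Set (Sp n)} {M : ℝ}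
    (hM : ∀ y : Fin (n + 1) → Sp n, (∀ i, y i ∈ W) → |dt y| ≤ M) :
    ∀ y : Fin (n + 1) → Sp n, (∀ i, y i ∈ convexHull ℝ W) → |dt y| ≤ M := by
  classical
  have key : ∀ S : Finset (Fin (n + 1)), ∀ y : Fin (n + 1) → Sp n,
      (∀ i ∈ S, y i ∈ convexHull ℝ W) → (∀ i, i ∉ S → y i ∈ W) → |dt y| ≤ M := by
    intro S
    induction S using Finset.induction_on with
    | empty => intro y _ hy; exact hM y fun i => hy i (by simp)
    | insert i S hiS ih =>
      intro y hy1 hy2
      let L : Sp n →ₗ[ℝ] ℝ :=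
        (Matrix.detRowAlternating (R := ℝ) (n := Fin (n + 1))).toMultilinearMap.toLinearMap y i
      have hL : ∀ t, L t = dt (Function.update y i t) := fun t => rfl
      have hconv : ConvexOn ℝ (convexHull ℝ W) (fun t => |L t|) := by
        have h1 : ConvexOn ℝ Set.univ (fun t => |L t|) := by
          have h := (convexOn_norm (E := ℝ) convex_univ).comp_linearMap L
          rw [Set.preimage_univ] at h
          exact h
        exact (h1.subset (Set.subset_univ _) (convex_convexHull ℝ W))
      obtain ⟨t, htW, ht⟩ := hconv.exists_ge_of_mem_convexHull (subset_convexHull ℝ W)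
        (hy1 i (Finset.mem_insert_self i S))
      have h2 : |dt y| ≤ |dt (Function.update y i t)| := by
        have : L (y i) = dt y := by rw [hL, Function.update_eq_self]
        rw [← this, ← hL]
        exact ht
      refine h2.trans (ih _ ?_ ?_)
      · intro j hj
        have hji : j ≠ i := fun h => hiS (h ▸ hj)
        rw [Function.update_of_ne hji]
        exact hy1 j (Finset.mem_insert_of_mem hj)
      · intro j hj
        by_cases hji : j = i
        · subst hji
          rw [Function.update_self]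
          exact htW
        · rw [Function.update_of_ne hji]
          exact hy2 j (by simp [hji, hj])
  intro y hy
  exact key Finset.univ y (fun i _ => hy i) (fun i hi => absurd (Finset.mem_univ i) hi)

/-- integer vector as a point -/
def toR {n : ℕ} (z : Fin (n + 1) → ℤ) : Sp n := fun i => (z i : ℝ)

theorem isInt_toR {n : ℕ} (z : Fin (n + 1) → ℤ) : IsInt (toR z) := fun i => ⟨z i, rfl⟩

theorem exists_toR {n : ℕ} {x : Sp n} (h : IsInt x) : ∃ z : Fin (n + 1) → ℤ, x = toR z := by
  choose z hz using h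
  exact ⟨z, funext hz⟩

theorem toR_injective {n : ℕ} : Function.Injective (toR (n := n)) := by
  intro a b h
  funext i
  have h1 : ((a i : ℤ) : ℝ) = ((b i : ℤ) : ℝ) := congrFun h i
  exact_mod_cast h1

/-- `Z` is a totally unimodular configuration: a finite set of integer points on the hyperplane
`x₀ + ⋯ + x_n = 1` that contains the standard basis, is the set of all integer points of its
convex hull, and in which all determinants of `n + 1` points are `0`, `1` or `-1`. -/
def Unimod {n : ℕ} (Z : Finset (Fin (n + 1) → ℤ)) : Prop :=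
  (∀ i, Pi.single i 1 ∈ Z) ∧ (∀ z ∈ Z, ∑ i, z i = 1) ∧
    (∀ x, toR x ∈ convexHull ℝ (toR '' (Z : Set (Fin (n + 1) → ℤ))) → x ∈ Z) ∧
    (∀ t : Fin (n + 1) → (Fin (n + 1) → ℤ), (∀ i, t i ∈ Z) → |(Matrix.of t).det| ≤ 1)

theorem dt_toR {n : ℕ} (t : Fin (n + 1) → (Fin (n + 1) → ℤ)) :
    dt (fun i => toR (t i)) = ((Matrix.of t).det : ℝ) := by
  unfold dt
  have : (Matrix.of fun i => toR (t i)) = (Matrix.of t).map (Int.castRingHom ℝ) := by
    ext i j; rfl
  rw [this, ← RingHom.mapMatrix_apply, ← RingHom.map_det]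
  rfl

/-- the coordinates of a point as determinants -/
theorem det_update_one {n : ℕ} (x : Fin (n + 1) → ℤ) (i : Fin (n + 1)) :
    (Matrix.of (Function.update (fun j => (Pi.single j 1 : Fin (n + 1) → ℤ)) i x)).det = x i := by
  have h1 : (Matrix.of (Function.update (fun j => (Pi.single j 1 : Fin (n + 1) → ℤ)) i x)) =
      ((1 : Matrix (Fin (n + 1)) (Fin (n + 1)) ℤ).updateCol i x).transpose := by
    ext a b
    by_cases h : a = i
    · subst h
      simp
    · simp [h, Matrix.one_apply, Pi.single_apply]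
  rw [h1, Matrix.det_transpose, ← Matrix.cramer_apply, Matrix.cramer_one]
  rfl

theorem Unimod.coord {n : ℕ} {Z : Finset (Fin (n + 1) → ℤ)} (h : Unimod Z)
    {z : Fin (n + 1) → ℤ} (hz : z ∈ Z) (i : Fin (n + 1)) : |z i| ≤ 1 := by
  have := h.2.2.2 (Function.update (fun j => (Pi.single j 1 : Fin (n + 1) → ℤ)) i z) (by
    intro j
    by_cases hj : j = i
    · subst hj; rw [Function.update_self]; exact hz
    · rw [Function.update_of_ne hj]; exact h.1 j)
  rwa [det_update_one] at this

/-- The linear automorphism that sends the standard basis to the basis `w`. -/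
noncomputable def autOf {n : ℕ} {w : Fin (n + 1) → Sp n} (hw : LinearIndependent ℝ w) :
    Sp n ≃ₗ[ℝ] Sp n :=
  (basisOfLinearIndependentOfCardEqFinrank hw (by simp)).equivFun.symm

theorem autOf_apply {n : ℕ} {w : Fin (n + 1) → Sp n} (hw : LinearIndependent ℝ w) (c : Sp n) :
    autOf hw c = ∑ i, c i • w i := by
  unfold autOf
  rw [Module.Basis.equivFun_symm_apply]
  simp

theorem autOf_single {n : ℕ} {w : Fin (n + 1) → Sp n} (hw : LinearIndependent ℝ w)
    (i : Fin (n + 1)) : autOf hw (toR (Pi.single i 1)) = w i := by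
  classical
  rw [autOf_apply]
  have : ∀ j, toR (Pi.single i 1 : Fin (n + 1) → ℤ) j • w j = if j = i then w j else 0 := by
    intro j
    by_cases h : j = i
    · subst h; simp [toR]
    · simp [toR, h]
  simp [this]

theorem isInt_autOf {n : ℕ} {w : Fin (n + 1) → Sp n} (hw : LinearIndependent ℝ w)
    (hwi : ∀ i, IsInt (w i)) (x : Sp n) (hx : IsInt x) : IsInt (autOf hw x) := by
  rw [autOf_apply]
  choose a ha using hx
  choose b hb using hwi
  intro j
  refine ⟨∑ i, a i * b i j, ?_⟩
  rw [Finset.sum_apply]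
  push_cast
  refine Finset.sum_congr rfl fun i _ => ?_
  rw [Pi.smul_apply, smul_eq_mul, ha, hb]

theorem dt_autOf {n : ℕ} {w : Fin (n + 1) → Sp n} (hw : LinearIndependent ℝ w)
    (y : Fin (n + 1) → Sp n) : dt (fun i => autOf hw (y i)) = dt y * dt w := by
  unfold dt
  rw [← Matrix.det_mul]
  congr 1
  ext i j
  rw [Matrix.mul_apply]
  simp [autOf_apply, Matrix.of_apply, Finset.sum_apply, smul_eq_mul]

theorem li_std {n : ℕ} : LinearIndependent ℝ (fun i => toR (Pi.single i 1 : Fin (n + 1) → ℤ)) := by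
  have h := (Pi.basisFun ℝ (Fin (n + 1))).linearIndependent
  have h2 : (fun i => toR (Pi.single i 1 : Fin (n + 1) → ℤ)) = ⇑(Pi.basisFun ℝ (Fin (n + 1))) := by
    funext i
    ext j
    by_cases hij : j = i
    · subst hij; simp [toR]
    · simp [toR, hij]
  rw [h2]
  exact h

/-- The functional that cuts out a lattice polytope which is a face is positive on it. -/
theorem facet_pos {n : ℕ} {W : Set (Sp n)} (hWf : W.Finite) (hWi : ∀ w ∈ W, IsInt w)
    {u : Fin (n + 1) → Sp n} (hu : LinearIndependent ℝ u) {φ : Sp n →ₗ[ℝ] ℝ} {b : ℝ}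
    (hK : ∀ x ∈ hull u, b ≤ φ x) (hF : convexHull ℝ W = {x | x ∈ hull u ∧ φ x = b})
    (hne : W.Nonempty) : 0 < b := by
  obtain ⟨w, hw⟩ := hne
  have hwF : w ∈ hull u ∧ φ w = b := by
    have : w ∈ convexHull ℝ W := subset_convexHull ℝ W hw
    rw [hF] at this
    exact this
  have hw0 : w ≠ 0 := fun h => zero_notMem_hull hu (h ▸ hwF.1)
  have hmul : ∀ m : ℕ, (((m : ℝ) + 1) • w) ∈ hull u := by
    intro m
    refine subset_convexHull ℝ _ ⟨?_, ?_, ?_⟩
    · obtain ⟨c, hc, hcw⟩ := hull_subset_cone u hwF.1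
      refine ⟨fun i => ((m : ℝ) + 1) * c i, fun i => by have := hc i; positivity, ?_⟩
      rw [← hcw, Finset.smul_sum]
      exact Finset.sum_congr rfl fun i _ => by rw [mul_smul]
    · intro i
      obtain ⟨a, ha⟩ := hWi w hw i
      exact ⟨((m : ℤ) + 1) * a, by rw [Pi.smul_apply, smul_eq_mul, ha]; push_cast; ring⟩
    · exact smul_ne_zero (by positivity) hw0
  have hnn : 0 ≤ b := by
    have := hK _ (hmul 1)
    rw [map_smul, hwF.2, smul_eq_mul] at this
    push_cast at this
    linarith
  rcases hnn.lt_or_eq with h | h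
  · exact h
  · exfalso
    -- then the face is unbounded
    have hbdd : Bornology.IsBounded (convexHull ℝ W) := isBounded_convexHull.2 hWf.isBounded
    obtain ⟨R, hR⟩ := hbdd.exists_norm_le
    have hwn : 0 < ‖w‖ := norm_pos_iff.2 hw0
    obtain ⟨m, hm⟩ := exists_nat_gt (R / ‖w‖)
    have h1 : (((m : ℝ) + 1) • w) ∈ convexHull ℝ W := by
      rw [hF]
      refine ⟨hmul m, ?_⟩
      rw [map_smul, hwF.2, ← h, smul_zero]
    have h2 := hR _ h1
    rw [norm_smul, Real.norm_of_nonneg (by positivity)] at h2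
    have h3 : R < m * ‖w‖ := by rwa [div_lt_iff₀ hwn] at hm
    nlinarith

theorem dt_ne_zero_of_li {n : ℕ} {w : Fin (n + 1) → Sp n} (hw : LinearIndependent ℝ w) :
    dt w ≠ 0 := by
  have h : LinearIndependent ℝ (Matrix.of w).row := hw
  exact ((Matrix.isUnit_iff_isUnit_det _).1 (Matrix.linearIndependent_rows_iff_isUnit.1 h)).ne_zero

theorem li_of_dt_ne_zero {n : ℕ} {w : Fin (n + 1) → Sp n} (hw : dt w ≠ 0) :
    LinearIndependent ℝ w := by
  have h : IsUnit (Matrix.of w) := (Matrix.isUnit_iff_isUnit_det _).2 (isUnit_iff_ne_zero.2 hw)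
  exact Matrix.linearIndependent_rows_iff_isUnit.2 h

/-- a spanning tuple inside the generators of a face -/
theorem exists_li {n : ℕ} (hn : 1 ≤ n) {W : Set (Sp n)} (hWf : W.Finite)
    (hWi : ∀ w ∈ W, IsInt w) {u : Fin (n + 1) → Sp n} (hu : LinearIndependent ℝ u)
    (hF : IsFacet (hull u) (convexHull ℝ W)) :
    ∃ w : Fin (n + 1) → Sp n, (∀ i, w i ∈ W) ∧ LinearIndependent ℝ w := by
  obtain ⟨φ, b, hφ, hK, hFe, hdim⟩ := hF
  have hne : W.Nonempty := by
    rw [Set.nonempty_iff_ne_empty]
    rintro rfl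
    rw [convexHull_empty, vectorSpan_empty, finrank_bot] at hdim
    omega
  have hb := facet_pos hWf hWi hu hK hFe hne
  have hφW : ∀ w ∈ W, φ w = b := by
    intro w hw
    have : w ∈ convexHull ℝ W := subset_convexHull ℝ W hw
    rw [hFe] at this
    exact this.2
  have hsub : vectorSpan ℝ (convexHull ℝ W) ≤ Submodule.span ℝ W := by
    have h1 : convexHull ℝ W ⊆ (Submodule.span ℝ W : Set (Sp n)) :=
      convexHull_min Submodule.subset_span (Submodule.convex _)
    rw [vectorSpan_def, Submodule.span_le]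
    rintro y ⟨s, hs, t, ht, rfl⟩
    exact Submodule.sub_mem _ (h1 hs) (h1 ht)
  have hker : vectorSpan ℝ (convexHull ℝ W) ≤ LinearMap.ker φ := by
    rw [vectorSpan_def, Submodule.span_le]
    rintro y ⟨s, hs, t, ht, rfl⟩
    rw [hFe] at hs ht
    change φ (s -ᵥ t) = 0
    rw [vsub_eq_sub, map_sub, hs.2, ht.2, sub_self]
  have hspan : Module.finrank ℝ (Submodule.span ℝ W) = n + 1 := by
    apply le_antisymm
    · have := Submodule.finrank_le (Submodule.span ℝ W)
      simpa using this
    · by_contra hcon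
      push Not at hcon
      have h0 : Module.finrank ℝ (Submodule.span ℝ W) ≤
          Module.finrank ℝ (vectorSpan ℝ (convexHull ℝ W)) := by
        rw [hdim]
        exact Nat.lt_succ_iff.1 hcon
      have h1 : vectorSpan ℝ (convexHull ℝ W) = Submodule.span ℝ W :=
        Submodule.eq_of_le_of_finrank_le hsub h0
      obtain ⟨w, hw⟩ := hne
      have h2 : w ∈ LinearMap.ker φ := hker (h1 ▸ Submodule.subset_span hw)
      rw [LinearMap.mem_ker, hφW w hw] at h2
      exact hb.ne' h2
  obtain ⟨B, hBW, hBs, hBli⟩ := exists_linearIndependent ℝ W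
  have hBf : B.Finite := hWf.subset hBW
  have : Fintype B := hBf.fintype
  have hcard : Fintype.card B = n + 1 := by
    have := finrank_span_set_eq_card hBli
    rw [hBs, hspan] at this
    rw [this, Set.toFinset_card]
  let e : Fin (n + 1) ≃ B := (Fintype.equivFinOfCardEq hcard).symm
  refine ⟨fun i => (e i : Sp n), fun i => hBW (e i).2, ?_⟩
  exact hBli.comp e e.injective

/-- the standard basis is totally unimodular -/
theorem unimod_std (n : ℕ) :
    Unimod (Finset.univ.image (fun i : Fin (n + 1) => (Pi.single i 1 : Fin (n + 1) → ℤ))) := by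
  classical
  refine ⟨?_, ?_, ?_, ?_⟩
  · intro i
    exact Finset.mem_image_of_mem _ (Finset.mem_univ i)
  · intro z hz
    obtain ⟨i, _, rfl⟩ := Finset.mem_image.1 hz
    simp
  · intro x hx
    have hcv : Convex ℝ {y : Sp n | (∀ i, 0 ≤ y i) ∧ ∑ i, y i = 1} := convex_stdSimplex ℝ _
    have h1 : toR x ∈ {y : Sp n | (∀ i, 0 ≤ y i) ∧ ∑ i, y i = 1} := by
      refine convexHull_min ?_ hcv hx
      rintro y ⟨z, hz, rfl⟩
      obtain ⟨i, _, rfl⟩ := Finset.mem_image.1 (Finset.mem_coe.1 hz)
      refine ⟨fun j => ?_, ?_⟩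
      · by_cases h : j = i
        · subst h; simp [toR]
        · simp [toR, h]
      · have : ∀ j, toR (Pi.single i 1 : Fin (n + 1) → ℤ) j = if j = i then 1 else 0 := by
          intro j
          by_cases h : j = i
          · subst h; simp [toR]
          · simp [toR, h]
        simp [this]
    have hnn : ∀ i, 0 ≤ x i := fun i => by
      have : (0 : ℝ) ≤ (x i : ℝ) := h1.1 i
      exact_mod_cast this
    have hsum : ∑ i, x i = 1 := by
      have : ∑ i, (x i : ℝ) = 1 := h1.2
      exact_mod_cast this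
    obtain ⟨i, hi⟩ : ∃ i, 0 < x i := by
      by_contra hcon
      push Not at hcon
      have : ∑ i, x i ≤ 0 := Finset.sum_nonpos fun i _ => hcon i
      omega
    refine Finset.mem_image.2 ⟨i, Finset.mem_univ i, ?_⟩
    have h2 := Finset.add_sum_erase Finset.univ x (Finset.mem_univ i)
    have h3 : 0 ≤ ∑ j ∈ Finset.univ.erase i, x j := Finset.sum_nonneg fun j _ => hnn j
    have h4 : ∑ j ∈ Finset.univ.erase i, x j = 0 := by omega
    have h5 := (Finset.sum_eq_zero_iff_of_nonneg (fun j _ => hnn j)).1 h4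
    funext j
    by_cases h : j = i
    · subst h
      simp
      omega
    · rw [Pi.single_eq_of_ne h, h5 j (Finset.mem_erase.2 ⟨h, Finset.mem_univ j⟩)]
  · intro t ht
    have ht' : ∀ i, ∃ j, (Pi.single j 1 : Fin (n + 1) → ℤ) = t i := by
      intro i
      obtain ⟨j, _, hj⟩ := Finset.mem_image.1 (ht i)
      exact ⟨j, hj⟩
    choose σ hσ using ht'
    by_cases hinj : Function.Injective σ
    · let τ : Equiv.Perm (Fin (n + 1)) := Equiv.ofBijective σ (Finite.injective_iff_bijective.1 hinj)
      have h1 : Matrix.of t = (1 : Matrix (Fin (n + 1)) (Fin (n + 1)) ℤ).submatrix τ id := by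
        ext i j
        rw [Matrix.of_apply, ← hσ i, Matrix.submatrix_apply, Matrix.one_apply]
        change (Pi.single (σ i) 1 : Fin (n + 1) → ℤ) j = if σ i = j then 1 else 0
        rw [Pi.single_apply]
        by_cases h : j = σ i
        · simp [h]
        · simp [h, Ne.symm h]
      rw [h1, Matrix.det_permute, Matrix.det_one, mul_one]
      rcases Int.units_eq_one_or (Equiv.Perm.sign τ) with h | h <;> simp [h]
    · unfold Function.Injective at hinj
      push Not at hinj
      obtain ⟨i, j, hij, hne⟩ := hinj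
      have : (Matrix.of t).det = 0 := by
        refine Matrix.det_zero_of_row_eq hne ?_
        funext k
        rw [Matrix.of_apply, Matrix.of_apply, ← hσ i, ← hσ j, hij]
      rw [this]
      simp

/-- The main reduction. -/
theorem reduction {n : ℕ} (hn : 1 ≤ n) [MeasurableSpace (CF n)] {μ : Measure (CF n)}
    (hμ : Invariant μ) {F : Set (Sp n)} (hF : IsLatticePolytope F) :
    ∃ Z : Finset (Fin (n + 1) → ℤ), Unimod Z ∧
      μ (withFace F) ≤ μ (withFace (convexHull ℝ (toR '' (Z : Set (Fin (n + 1) → ℤ))))) := by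
  classical
  obtain ⟨W, hWf, hWi, rfl⟩ := hF
  by_cases hemp : withFace (convexHull ℝ W) = ∅
  · refine ⟨_, unimod_std n, ?_⟩
    rw [hemp, measure_empty]
    exact bot_le
  obtain ⟨c, u, hu, hcu, hfac⟩ := Set.nonempty_iff_ne_empty.2 hemp
  obtain ⟨w₀, hw₀W, hw₀⟩ := exists_li hn hWf hWi hu hfac
  obtain ⟨φ, b, hφ, hK, hFe, hdim⟩ := hfac
  have hb := facet_pos hWf hWi hu hK hFe ⟨_, hw₀W 0⟩
  have hφW : ∀ x ∈ convexHull ℝ W, φ x = b := by
    intro x hx
    rw [hFe] at hx
    exact hx.2
  -- a tuple with maximal determinant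
  obtain ⟨w, hwmem, hwmax⟩ := Finset.exists_max_image
    (Fintype.piFinset (fun _ : Fin (n + 1) => hWf.toFinset)) (fun y => |dt y|)
    ⟨w₀, by simpa using hw₀W⟩
  have hwW : ∀ i, w i ∈ W := by simpa using hwmem
  have hmax : ∀ y : Fin (n + 1) → Sp n, (∀ i, y i ∈ W) → |dt y| ≤ |dt w| := by
    intro y hy
    exact hwmax y (by simpa using hy)
  have hdw : 0 < |dt w| := by
    have h1 := hmax w₀ hw₀W
    have h2 : 0 < |dt w₀| := abs_pos.2 (dt_ne_zero_of_li hw₀)
    linarith
  have hw : LinearIndependent ℝ w := li_of_dt_ne_zero (abs_pos.1 hdw)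
  have hbound : ∀ y : Fin (n + 1) → Sp n, (∀ i, autOf hw (y i) ∈ convexHull ℝ W) →
      |dt y| ≤ 1 := by
    intro y hy
    have h1 := dt_le_of_convexHull hmax (fun i => autOf hw (y i)) hy
    rw [dt_autOf, abs_mul] at h1
    by_contra hcon
    push Not at hcon
    nlinarith
  let Z : Finset (Fin (n + 1) → ℤ) :=
    (Fintype.piFinset fun _ => ({-1, 0, 1} : Finset ℤ)).filter
      (fun z => autOf hw (toR z) ∈ convexHull ℝ W)
  have hZmem : ∀ z, autOf hw (toR z) ∈ convexHull ℝ W → z ∈ Z := by
    intro z hz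
    refine Finset.mem_filter.2 ⟨?_, hz⟩
    rw [Fintype.mem_piFinset]
    intro i
    have h1 := hbound (fun j => toR (Function.update
      (fun j => (Pi.single j 1 : Fin (n + 1) → ℤ)) i z j)) (by
        intro j
        by_cases hj : j = i
        · subst hj; rw [Function.update_self]; exact hz
        · rw [Function.update_of_ne hj, autOf_single]
          exact subset_convexHull ℝ W (hwW j))
    rw [dt_toR, det_update_one] at h1
    have h2 : |z i| ≤ 1 := by exact_mod_cast h1
    rw [abs_le] at h2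
    simp only [Finset.mem_insert, Finset.mem_singleton]
    omega
  have hset : {x | IsInt x ∧ autOf hw x ∈ convexHull ℝ W} =
      toR '' (Z : Set (Fin (n + 1) → ℤ)) := by
    ext x
    constructor
    · rintro ⟨hx, hxF⟩
      obtain ⟨z, rfl⟩ := exists_toR hx
      exact ⟨z, Finset.mem_coe.2 (hZmem z hxF), rfl⟩
    · rintro ⟨z, hz, rfl⟩
      exact ⟨isInt_toR z, (Finset.mem_filter.1 (Finset.mem_coe.1 hz)).2⟩
  refine ⟨Z, ⟨?_, ?_, ?_, ?_⟩, ?_⟩
  · intro i
    apply hZmem
    rw [autOf_single]
    exact subset_convexHull ℝ W (hwW i)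
  · intro z hz
    have h1 := hφW _ (Finset.mem_filter.1 hz).2
    rw [autOf_apply, map_sum] at h1
    have h2 : ∑ i, φ (toR z i • w i) = (∑ i, (z i : ℝ)) * b := by
      rw [Finset.sum_mul]
      refine Finset.sum_congr rfl fun i _ => ?_
      rw [map_smul, smul_eq_mul, hφW _ (subset_convexHull ℝ W (hwW i))]
      rfl
    rw [h2] at h1
    have h3 : (∑ i, (z i : ℝ)) = 1 := by
      have : ((∑ i, (z i : ℝ)) - 1) * b = 0 := by linarith
      rcases mul_eq_zero.1 this with h | h
      · linarith
      · exact absurd h hb.ne'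
    exact_mod_cast h3
  · intro x hx
    apply hZmem
    have hcv : Convex ℝ {y : Sp n | autOf hw y ∈ convexHull ℝ W} :=
      (convex_convexHull ℝ W).linear_preimage (autOf hw).toLinearMap
    refine convexHull_min ?_ hcv hx
    rw [← hset]
    exact fun y hy => hy.2
  · intro t ht
    have h1 := hbound (fun i => toR (t i)) (fun i => (Finset.mem_filter.1 (ht i)).2)
    rw [dt_toR] at h1
    exact_mod_cast h1
  · have h1 := measure_le hμ (autOf hw) (isInt_autOf hw fun i => hWi _ (hwW i))
      (F := convexHull ℝ W) (p := fun i => toR (Pi.single i 1 : Fin (n + 1) → ℤ)) li_std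
      (fun i => ⟨isInt_toR _, by rw [autOf_single]; exact subset_convexHull ℝ W (hwW i)⟩)
    rwa [hset] at h1

end Pool.Agent.R69.Klein
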