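import Mathlib

/-!
# Ramsey-nice families of oriented graphs: definitions and a counterexample

The family consisting of the directed path on four vertices, the transitive triangle and the
cyclic triangle is `k`-nice for no `k ≥ 1`.
-/

set_option autoImplicit false

namespace Pool.Agent.R69.Nice

open SimpleGraph

/-- An oriented graph: no loops, and never two opposite arcs (both follow from `asymm`). -/
structure OGraph (V : Type) where
  arc : V → V → Prop
  asymm : ∀ u v, arc u v → ¬ arc v u

namespace OGraph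
variable {V : Type}

/-- The underlying undirected graph. -/
def underlying (D : OGraph V) : SimpleGraph V where
  Adj u v := D.arc u v ∨ D.arc v u
  symm := ⟨fun _ _ h => h.symm⟩
  loopless := ⟨fun v h => h.elim (fun h => D.asymm v v h h) (fun h => D.asymm v v h h)⟩

/-- A tournament: every two distinct vertices are joined by an arc. -/
def IsTournament (D : OGraph V) : Prop := ∀ u v, u ≠ v → D.arc u v ∨ D.arc v u

/-- An oriented forest: the underlying undirected graph is a forest. -/
def IsForest (D : OGraph V) : Prop := D.underlying.IsAcyclic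

end OGraph

/-- A family of finite oriented graphs (with vertex sets `{0, …, n - 1}`). -/
abbrev Family : Type := Set (Σ n : ℕ, OGraph (Fin n))

/-- The `k`-colouring `c` of the arcs of `D` is `𝓕`-good: no colour class contains a copy of a
member of `𝓕`. (Only the values of `c` at the arcs of `D` matter.) -/
def Good (𝓕 : Family) {V : Type} (D : OGraph V) {k : ℕ} (c : V → V → Fin k) : Prop :=
  ∀ F ∈ 𝓕, ∀ i : Fin k,
    ¬ ∃ f : Fin F.1 ↪ V, ∀ a b, F.2.arc a b → D.arc (f a) (f b) ∧ c (f a) (f b) = i

/-- `p_k(𝓕)`: the largest number of vertices of a tournament with an `𝓕`-good `k`-colouring. -/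
noncomputable def p (𝓕 : Family) (k : ℕ) : ℕ∞ :=
  sSup {x : ℕ∞ | ∃ (n : ℕ) (D : OGraph (Fin n)) (c : Fin n → Fin n → Fin k),
    D.IsTournament ∧ Good 𝓕 D c ∧ x = n}

/-- `q_k(𝓕)`: the largest chromatic number of an oriented graph with an `𝓕`-good
`k`-colouring. -/
noncomputable def q (𝓕 : Family) (k : ℕ) : ℕ∞ :=
  sSup {x : ℕ∞ | ∃ (n : ℕ) (D : OGraph (Fin n)) (c : Fin n → Fin n → Fin k),
    Good 𝓕 D c ∧ x = D.underlying.chromaticNumber}

/-- `𝓕` is `k`-nice. -/
def IsNice (𝓕 : Family) (k : ℕ) : Prop := p 𝓕 k = q 𝓕 k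

/-! ### The three members -/

/-- the directed path on four vertices -/
def dpath : OGraph (Fin 4) where
  arc a b := (a : ℕ) + 1 = b
  asymm a b h1 h2 := by omega

/-- the transitive triangle -/
def ttri : OGraph (Fin 3) where
  arc a b := a < b
  asymm a b h1 h2 := by omega

/-- the cyclic triangle -/
def ctri : OGraph (Fin 3) where
  arc a b := b = a + 1
  asymm := by decide

theorem darc01 : dpath.arc 0 1 := rfl
theorem darc12 : dpath.arc 1 2 := rfl
theorem darc23 : dpath.arc 2 3 := rfl
theorem tarc01 : ttri.arc 0 1 := show (0 : Fin 3) < 1 by decide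
theorem tarc12 : ttri.arc 1 2 := show (1 : Fin 3) < 2 by decide
theorem tarc02 : ttri.arc 0 2 := show (0 : Fin 3) < 2 by decide
theorem carc01 : ctri.arc 0 1 := rfl
theorem carc12 : ctri.arc 1 2 := rfl
theorem carc20 : ctri.arc 2 0 := rfl

/-- the counterexample -/
def bad : Family := {⟨4, dpath⟩, ⟨3, ttri⟩, ⟨3, ctri⟩}

theorem bad_finite : bad.Finite := by
  unfold bad
  simp

theorem path_acyclic (n : ℕ) : (pathGraph n).IsAcyclic := by
  rw [isAcyclic_iff_forall_adj_isBridge]
  have main : ∀ ⦃v w : Fin n⦄, v.val + 1 = w.val → (pathGraph n).IsBridge s(v, w) := by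
    intro v w hvw
    rw [isBridge_iff]
    rintro ⟨p⟩
    have inv : ∀ {x y : Fin n} (q : ((pathGraph n).deleteEdges {s(v, w)}).Walk x y),
        x.val ≤ v.val → y.val ≤ v.val := by
      intro x y q
      induction q with
      | nil => exact id
      | @cons a b c h q ih =>
        intro ha
        apply ih
        rw [deleteEdges_adj, pathGraph_adj] at h
        obtain ⟨h1, h2⟩ := h
        rcases h1 with h1 | h1
        · by_contra hlt
          apply h2
          have e1 : a = v := Fin.ext (by omega)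
          have e2 : b = w := Fin.ext (by omega)
          rw [e1, e2]
          exact Set.mem_singleton _
        · omega
    have := inv p le_rfl
    omega
  intro v w hvw
  rw [pathGraph_adj] at hvw
  rcases hvw with h | h
  · exact main h
  · rw [Sym2.eq_swap]
    exact main h

theorem dpath_forest : dpath.IsForest := by
  have h : dpath.underlying = pathGraph 4 := by
    ext a b
    rw [pathGraph_adj]
    rfl
  unfold OGraph.IsForest
  rw [h]
  exact path_acyclic 4

/-! ### Good colourings: the levels of a vertex in a colour class -/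

section upper
variable {V : Type} {D : OGraph V} {k : ℕ} {c : V → V → Fin k}

/-- the arcs of colour `i` -/
def cls (D : OGraph V) (c : V → V → Fin k) (i : Fin k) (u v : V) : Prop := D.arc u v ∧ c u v = i

theorem no_ttri (h : Good bad D c) (i : Fin k) {x y z : V} (h1 : cls D c i x y)
    (h2 : cls D c i y z) (h3 : cls D c i x z) : False := by
  have hxy : x ≠ y := fun e => D.asymm x y h1.1 (e ▸ h1.1)
  have hyz : y ≠ z := fun e => D.asymm y z h2.1 (e ▸ h2.1)
  have hxz : x ≠ z := fun e => D.asymm x z h3.1 (e ▸ h3.1)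
  refine h ⟨3, ttri⟩ (by simp [bad]) i ⟨⟨![x, y, z], ?_⟩, ?_⟩
  · intro a b hab
    fin_cases a <;> fin_cases b <;> simp_all
  · intro a b hab
    change a < b at hab
    fin_cases a <;> fin_cases b <;>
      first | exact h1 | exact h2 | exact h3 | exact absurd hab (by decide)

theorem no_ctri (h : Good bad D c) (i : Fin k) {x y z : V} (h1 : cls D c i x y)
    (h2 : cls D c i y z) (h3 : cls D c i z x) : False := by
  have hxy : x ≠ y := fun e => D.asymm x y h1.1 (e ▸ h1.1)
  have hyz : y ≠ z := fun e => D.asymm y z h2.1 (e ▸ h2.1)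
  have hxz : x ≠ z := fun e => D.asymm z x h3.1 (e ▸ h3.1)
  refine h ⟨3, ctri⟩ (by simp [bad]) i ⟨⟨![x, y, z], ?_⟩, ?_⟩
  · intro a b hab
    fin_cases a <;> fin_cases b <;> simp_all
  · intro a b hab
    change b = a + 1 at hab
    subst hab
    fin_cases a
    · exact h1
    · exact h2
    · exact h3

theorem no_dpath (h : Good bad D c) (i : Fin k) {x y z w : V} (h1 : cls D c i x y)
    (h2 : cls D c i y z) (h3 : cls D c i z w) : False := by
  have hxy : x ≠ y := fun e => D.asymm x y h1.1 (e ▸ h1.1)
  have hyz : y ≠ z := fun e => D.asymm y z h2.1 (e ▸ h2.1)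
  have hzw : z ≠ w := fun e => D.asymm z w h3.1 (e ▸ h3.1)
  have hxz : x ≠ z := fun e => D.asymm x y h1.1 (e ▸ h2.1)
  have hyw : y ≠ w := fun e => D.asymm y z h2.1 (e ▸ h3.1)
  by_cases hxw : x = w
  · subst hxw
    exact no_ctri h i h1 h2 h3
  refine h ⟨4, dpath⟩ (by simp [bad]) i ⟨⟨![x, y, z, w], ?_⟩, ?_⟩
  · intro a b hab
    fin_cases a <;> fin_cases b <;> simp_all
  · intro a b hab
    change (a : ℕ) + 1 = b at hab
    fin_cases a <;> fin_cases b <;>
      first | exact h1 | exact h2 | exact h3 | exact absurd hab (by decide)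

open Classical in
/-- the level of a vertex in the colour class `i`: the length (capped at `2`) of a longest
directed walk of colour `i` that ends there -/
noncomputable def level (D : OGraph V) (c : V → V → Fin k) (v : V) (i : Fin k) : Fin 3 :=
  if ∃ u w, cls D c i u w ∧ cls D c i w v then 2 else if ∃ w, cls D c i w v then 1 else 0

theorem level_lt (h : Good bad D c) (i : Fin k) {u v : V} (huv : cls D c i u v) :
    level D c u i < level D c v i := by
  unfold level
  by_cases h2 : ∃ w x, cls D c i w x ∧ cls D c i x u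
  · obtain ⟨w, x, h3, h4⟩ := h2
    exact (no_dpath h i h3 h4 huv).elim
  · rw [if_neg h2]
    by_cases h1 : ∃ w, cls D c i w u
    · obtain ⟨w, hw⟩ := h1
      rw [if_pos ⟨w, hw⟩, if_pos ⟨w, u, hw, huv⟩]
      decide
    · rw [if_neg h1]
      by_cases h3 : ∃ w x, cls D c i w x ∧ cls D c i x v
      · rw [if_pos h3]; decide
      · rw [if_neg h3, if_pos ⟨u, huv⟩]; decide

theorem level_ne (h : Good bad D c) {u v : V} (huv : D.underlying.Adj u v) :
    level D c u ≠ level D c v := by
  intro e
  rcases huv with huv | huv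
  · have := level_lt h (c u v) ⟨huv, rfl⟩
    rw [e] at this
    exact lt_irrefl _ this
  · have := level_lt h (c v u) ⟨huv, rfl⟩
    rw [e] at this
    exact lt_irrefl _ this

/-- three vertices of a tournament whose levels agree outside the colour `i` cannot exist -/
theorem no_line (h : Good bad D c) (hT : D.IsTournament) (i : Fin k) {x y z : V}
    (hxy : ∀ j ≠ i, level D c x j = level D c y j) (hyz : ∀ j ≠ i, level D c y j = level D c z j)
    (h1 : level D c x i < level D c y i) (h2 : level D c y i < level D c z i) : False := by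
  have key : ∀ u v : V, (∀ j ≠ i, level D c u j = level D c v j) →
      level D c u i < level D c v i → cls D c i u v := by
    intro u v huv hlt
    have hne : u ≠ v := fun e => by rw [e] at hlt; exact lt_irrefl _ hlt
    rcases hT u v hne with ha | ha
    · refine ⟨ha, ?_⟩
      by_contra hc
      have := level_lt h (c u v) ⟨ha, rfl⟩
      rw [huv _ hc] at this
      exact lt_irrefl _ this
    · have h3 := level_lt h (c v u) ⟨ha, rfl⟩
      by_cases hc : c v u = i
      · rw [hc] at h3
        exact absurd hlt (not_lt.2 h3.le)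
      · rw [huv _ hc] at h3
        exact (lt_irrefl _ h3).elim
  exact no_ttri h i (key x y hxy h1) (key y z hyz h2)
    (key x z (fun j hj => (hxy j hj).trans (hyz j hj)) (h1.trans h2))

end upper

/-- a set of functions `Fin k → Fin 3` containing no full line in direction `0` has at most
`2 * 3 ^ (k - 1)` elements; here in terms of an injective map -/
theorem card_le_of_no_line {n k : ℕ} (F : Fin n → (Fin (k + 1) → Fin 3))
    (hF : Function.Injective F)
    (hline : ∀ x y z : Fin n, (∀ j ≠ 0, F x j = F y j) → (∀ j ≠ 0, F y j = F z j) →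
      F x 0 < F y 0 → F y 0 < F z 0 → False) : n ≤ 2 * 3 ^ k := by
  classical
  let G : Fin n → (Fin k → Fin 3) := fun x j => F x j.succ
  have hfib : ∀ g ∈ (Finset.univ : Finset (Fin k → Fin 3)),
      (Finset.univ.filter fun x : Fin n => G x = g).card ≤ 2 := by
    intro g _
    by_contra hcon
    rw [not_le, Finset.two_lt_card] at hcon
    obtain ⟨a, ha, b, hb, e, he, hab, hae, hbe⟩ := hcon
    rw [Finset.mem_filter] at ha hb he
    have hG : ∀ x y : Fin n, G x = g → G y = g → ∀ j ≠ 0, F x j = F y j := by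
      intro x y hx hy j hj
      obtain ⟨j', rfl⟩ := Fin.exists_succ_eq.2 hj
      exact congrFun (hx.trans hy.symm) j'
    have h0 : ∀ x y : Fin n, G x = g → G y = g → x ≠ y → F x 0 ≠ F y 0 := by
      intro x y hx hy hxy h
      apply hxy
      apply hF
      funext j
      by_cases hj : j = 0
      · rw [hj, h]
      · exact hG x y hx hy j hj
    have h1 := h0 a b ha.2 hb.2 hab
    have h2 := h0 a e ha.2 he.2 hae
    have h3 := h0 b e hb.2 he.2 hbe
    have Lab := hG a b ha.2 hb.2
    have Lba := hG b a hb.2 ha.2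
    have Lae := hG a e ha.2 he.2
    have Lea := hG e a he.2 ha.2
    have Lbe := hG b e hb.2 he.2
    have Leb := hG e b he.2 hb.2
    rcases lt_or_gt_of_ne h1 with h1 | h1 <;> rcases lt_or_gt_of_ne h2 with h2 | h2 <;>
      rcases lt_or_gt_of_ne h3 with h3 | h3
    · exact hline a b e Lab Lbe h1 h3
    · exact hline a e b Lae Leb h2 h3
    · exact absurd (h1.trans h3) (not_lt.2 h2.le)
    · exact hline e a b Lea Lab h2 h1
    · exact hline b a e Lba Lae h1 h2
    · exact absurd (h2.trans h3) (not_lt.2 h1.le)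
    · exact hline b e a Lbe Lea h3 h2
    · exact hline e b a Leb Lba h3 h1
  have h := Finset.card_le_mul_card_image_of_maps_to (s := (Finset.univ : Finset (Fin n)))
    (t := (Finset.univ : Finset (Fin k → Fin 3))) (f := G) (fun _ _ => Finset.mem_univ _) 2 hfib
  simpa using h

theorem p_le (k : ℕ) : p bad (k + 1) ≤ 2 * 3 ^ k := by
  refine sSup_le ?_
  rintro x ⟨n, D, c, hT, hG, rfl⟩
  have h := card_le_of_no_line (fun v => level D c v) (by
    intro u v huv
    by_contra hne
    exact level_ne hG (hT u v hne) huv) (fun x y z h1 h2 h3 h4 => no_line hG hT 0 h1 h2 h3 h4)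
  exact_mod_cast h

theorem q_le (k : ℕ) : q bad k ≤ 3 ^ k := by
  refine sSup_le ?_
  rintro x ⟨n, D, c, hG, rfl⟩
  have h : D.underlying.Colorable (Fintype.card (Fin k → Fin 3)) :=
    (SimpleGraph.Coloring.mk (fun v => level D c v) (fun huv => level_ne hG huv)).colorable
  have := h.chromaticNumber_le
  simpa using this

/-! ### Triangle-free graphs with a given chromatic number -/

/-- no three mutually adjacent vertices -/
def TriFree {V : Type} (G : SimpleGraph V) : Prop := ∀ x y z, G.Adj x y → G.Adj y z → G.Adj x z → False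

/-- adjacency of the Mycielskian -/
def mycAdj {V : Type} (G : SimpleGraph V) : (V ⊕ V ⊕ Unit) → (V ⊕ V ⊕ Unit) → Prop
  | .inl x, .inl y => G.Adj x y
  | .inl x, .inr (.inl y) => G.Adj x y
  | .inr (.inl x), .inl y => G.Adj x y
  | .inr (.inl _), .inr (.inr _) => True
  | .inr (.inr _), .inr (.inl _) => True
  | _, _ => False

/-- the Mycielskian -/
def myc {V : Type} (G : SimpleGraph V) : SimpleGraph (V ⊕ V ⊕ Unit) where
  Adj := mycAdj G
  symm := ⟨by
    rintro (x | x | x) (y | y | y) h <;> simp only [mycAdj] at h ⊢ <;>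
      exact SimpleGraph.Adj.symm h⟩
  loopless := ⟨by
    rintro (x | x | x) h <;> simp only [mycAdj] at h
    exact G.loopless.irrefl _ h⟩

theorem myc_triFree {V : Type} {G : SimpleGraph V} (h : TriFree G) : TriFree (myc G) := by
  rintro (x | x | x) (y | y | y) (z | z | z) h1 h2 h3 <;>
    simp only [myc, mycAdj] at h1 h2 h3 <;> exact h _ _ _ h1 h2 h3

theorem myc_colorable {V : Type} {G : SimpleGraph V} {m : ℕ} (h : G.Colorable m) :
    (myc G).Colorable (m + 1) := by
  obtain ⟨C⟩ := h
  refine ⟨SimpleGraph.Coloring.mk (fun v => match v with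
    | .inl x => (C x).castSucc
    | .inr (.inl x) => (C x).castSucc
    | .inr (.inr _) => Fin.last m) ?_⟩
  rintro (x | x | x) (y | y | y) h <;> simp only [myc, mycAdj] at h <;>
    simp only [ne_eq, Fin.castSucc_inj]
  · exact C.valid h
  · exact C.valid h
  · exact C.valid h
  · exact (Fin.castSucc_lt_last _).ne
  · exact (Fin.castSucc_lt_last _).ne'

theorem colorable_of_myc {V : Type} {G : SimpleGraph V} {m : ℕ} (h : (myc G).Colorable (m + 1)) :
    G.Colorable m := by
  classical
  obtain ⟨C⟩ := h
  -- the colour of the apex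
  set t := C (.inr (.inr ())) with ht
  have hne : ∀ x : V, C (.inr (.inl x)) ≠ t := fun x =>
    C.valid (show (myc G).Adj (.inr (.inl x)) (.inr (.inr ())) from trivial)
  let f : V → {a : Fin (m + 1) // a ≠ t} := fun x =>
    if hx : C (.inl x) = t then ⟨C (.inr (.inl x)), hne x⟩ else ⟨C (.inl x), hx⟩
  have hf : G.Coloring {a : Fin (m + 1) // a ≠ t} := SimpleGraph.Coloring.mk f (by
    intro x y hxy heq
    have h1 : C (.inl x) ≠ C (.inl y) := C.valid (show (myc G).Adj (.inl x) (.inl y) from hxy)
    have h2 : C (.inl x) ≠ C (.inr (.inl y)) :=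
      C.valid (show (myc G).Adj (.inl x) (.inr (.inl y)) from hxy)
    have h3 : C (.inr (.inl x)) ≠ C (.inl y) :=
      C.valid (show (myc G).Adj (.inr (.inl x)) (.inl y) from hxy)
    simp only [f] at heq
    by_cases hx : C (.inl x) = t <;> by_cases hy : C (.inl y) = t
    · exact h1 (hx.trans hy.symm)
    · rw [dif_pos hx, dif_neg hy, Subtype.mk.injEq] at heq
      exact h3 heq
    · rw [dif_neg hx, dif_pos hy, Subtype.mk.injEq] at heq
      exact h2 heq
    · rw [dif_neg hx, dif_neg hy, Subtype.mk.injEq] at heq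
      exact h1 heq)
  have := hf.colorable
  rwa [Fintype.card_subtype_compl, Fintype.card_fin, Fintype.card_subtype_eq,
    Nat.add_sub_cancel] at this

theorem exists_graph (m : ℕ) (hm : 1 ≤ m) : ∃ (V : Type) (_ : Fintype V) (G : SimpleGraph V),
    TriFree G ∧ G.Colorable m ∧ ¬ G.Colorable (m - 1) := by
  induction m, hm using Nat.le_induction with
  | base =>
    refine ⟨Unit, inferInstance, ⊥, fun x y z h _ _ => h.elim, ?_, ?_⟩
    · exact ⟨SimpleGraph.Coloring.mk (fun _ => 0) (fun h => h.elim)⟩
    · rintro ⟨C⟩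
      exact (C ()).elim0
  | succ m hm ih =>
    obtain ⟨V, _, G, h1, h2, h3⟩ := ih
    refine ⟨V ⊕ V ⊕ Unit, inferInstance, myc G, myc_triFree h1, myc_colorable h2, ?_⟩
    intro h4
    apply h3
    obtain ⟨m, rfl⟩ : ∃ m', m = m' + 1 := ⟨m - 1, by omega⟩
    exact colorable_of_myc h4

theorem exists_graph_fin (m : ℕ) (hm : 1 ≤ m) : ∃ (n : ℕ) (G : SimpleGraph (Fin n)),
    TriFree G ∧ G.Colorable m ∧ ¬ G.Colorable (m - 1) := by
  obtain ⟨V, hV, G, h1, h2, h3⟩ := exists_graph m hm
  let e := Fintype.equivFin V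
  let I : G.map e.toEmbedding ≃g G := (SimpleGraph.Iso.map e G).symm
  refine ⟨Fintype.card V, G.map e.toEmbedding, ?_, ?_, ?_⟩
  · intro x y z hxy hyz hxz
    exact h1 (I x) (I y) (I z) (I.map_adj_iff.2 hxy) (I.map_adj_iff.2 hyz) (I.map_adj_iff.2 hxz)
  · obtain ⟨C⟩ := h2
    exact ⟨C.comp I.toHom⟩
  · rintro ⟨C⟩
    exact h3 ⟨C.comp I.symm.toHom⟩

/-! ### The lower bound for `q_k` -/

open Classical in
/-- the first coordinate in which two words differ -/
noncomputable def firstDiff {k : ℕ} (f g : Fin (k + 1) → Fin 3) : Fin (k + 1) :=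
  if h : ∃ i, f i ≠ g i ∧ ∀ j < i, f j = g j then h.choose else 0

theorem q_ge (k : ℕ) : (3 ^ (k + 1) : ℕ∞) ≤ q bad (k + 1) := by
  classical
  obtain ⟨n, G, hfree, hcol, hncol⟩ := exists_graph_fin (3 ^ (k + 1))
    (Nat.one_le_pow _ _ (by norm_num))
  have hcard : Fintype.card (Fin (k + 1) → Fin 3) = 3 ^ (k + 1) := by simp
  obtain ⟨C⟩ : Nonempty (G.Coloring (Fin (k + 1) → Fin 3)) := by
    rw [← hcard] at hcol
    exact ⟨hcol.toColoring le_rfl⟩
  let D : OGraph (Fin n) :=
    { arc := fun u v => G.Adj u v ∧ ∃ i, C u i < C v i ∧ ∀ j < i, C u j = C v j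
      asymm := by
        rintro u v ⟨_, i, hi, hi'⟩ ⟨_, j, hj, hj'⟩
        rcases lt_trichotomy i j with h | h | h
        · have := hj' i h
          rw [this] at hi
          exact lt_irrefl _ hi
        · subst h
          exact lt_irrefl _ (hi.trans hj)
        · have := hi' j h
          rw [this] at hj
          exact lt_irrefl _ hj }
  have hex : ∀ u v, D.arc u v → C u (firstDiff (C u) (C v)) < C v (firstDiff (C u) (C v)) := by
    rintro u v ⟨_, i, hi, hi'⟩
    have h : ∃ i, C u i ≠ C v i ∧ ∀ j < i, C u j = C v j := ⟨i, hi.ne, hi'⟩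
    have h2 : firstDiff (C u) (C v) = i := by
      unfold firstDiff
      rw [dif_pos h]
      have h3 := h.choose_spec
      rcases lt_trichotomy h.choose i with h4 | h4 | h4
      · exact absurd (hi' _ h4) h3.1
      · exact h4
      · exact absurd (h3.2 _ h4) hi.ne
    rw [h2]
    exact hi
  have hund : D.underlying = G := by
    ext u v
    constructor
    · rintro (h | h)
      · exact h.1
      · exact h.1.symm
    · intro h
      have hne : C u ≠ C v := C.valid h
      obtain ⟨i, hi, hi'⟩ : ∃ i, C u i ≠ C v i ∧ ∀ j < i, C u j = C v j := by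
        have hS : (Finset.univ.filter fun i => C u i ≠ C v i).Nonempty := by
          obtain ⟨i, hi⟩ := Function.ne_iff.1 hne
          exact ⟨i, by simpa using hi⟩
        refine ⟨_, (Finset.mem_filter.1 (Finset.min'_mem _ hS)).2, fun j hj => ?_⟩
        by_contra hne
        exact absurd (Finset.min'_le _ j (by simpa using hne)) (not_le.2 hj)
      rcases lt_or_gt_of_ne hi with h1 | h1
      · exact Or.inl ⟨h, i, h1, hi'⟩
      · exact Or.inr ⟨h.symm, i, h1, fun j hj => (hi' j hj).symm⟩
  have hgood : Good bad D (fun u v => firstDiff (C u) (C v)) := by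
    intro F hF i
    rintro ⟨f, hf⟩
    have harc : ∀ a b, F.2.arc a b → C (f a) i < C (f b) i := by
      intro a b hab
      obtain ⟨h1, h2⟩ := hf a b hab
      change firstDiff (C (f a)) (C (f b)) = i at h2
      have := hex _ _ h1
      rw [h2] at this
      exact this
    rcases hF with rfl | rfl | rfl
    · have h1 := harc 0 1 darc01
      have h2 := harc 1 2 darc12
      have h3 := harc 2 3 darc23
      have := (C (f 3) i).isLt
      simp only [Fin.lt_def] at h1 h2 h3
      omega
    · exact hfree (f 0) (f 1) (f 2) (hf 0 1 tarc01).1.1 (hf 1 2 tarc12).1.1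
        (hf 0 2 tarc02).1.1
    · exact hfree (f 0) (f 1) (f 2) (hf 0 1 carc01).1.1 (hf 1 2 carc12).1.1
        (hf 2 0 carc20).1.1.symm
  refine le_sSup_of_le ⟨n, D, _, hgood, rfl⟩ ?_
  rw [hund]
  by_contra hlt
  rw [not_le] at hlt
  apply hncol
  have h1 : G.chromaticNumber ≤ ((3 ^ (k + 1) - 1 : ℕ) : ℕ∞) := by
    rw [ENat.natCast_sub]
    push_cast
    exact ENat.le_sub_one_of_lt hlt
  exact SimpleGraph.chromaticNumber_le_iff_colorable.1 h1

/-- For every `k ≥ 1`: `p_k ≤ 2 * 3 ^ (k - 1)` and `q_k = 3 ^ k` for the family `bad`. -/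
theorem main (k : ℕ) (hk : 1 ≤ k) : p bad k ≤ 2 * 3 ^ (k - 1) ∧ q bad k = 3 ^ k := by
  obtain ⟨k, rfl⟩ : ∃ k', k = k' + 1 := ⟨k - 1, by omega⟩
  exact ⟨p_le k, le_antisymm (q_le _) (q_ge k)⟩

theorem not_nice (k : ℕ) (hk : 1 ≤ k) : ¬ IsNice bad k := by
  obtain ⟨h1, h2⟩ := main k hk
  intro h
  unfold IsNice at h
  rw [h, h2] at h1
  obtain ⟨k, rfl⟩ : ∃ k', k = k' + 1 := ⟨k - 1, by omega⟩
  have h3 : (3 : ℕ) ^ (k + 1) ≤ 2 * 3 ^ k := by exact_mod_cast h1
  have h4 : 0 < 3 ^ k := by positivity
  rw [pow_succ] at h3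
  omega

end Pool.Agent.R69.Nice
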