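import Mathlib

/-!
# Off-diagonal stepping up

For all `C D` there are `k` and a 2-colouring of the 4-subsets of every set of at most
`exp (C k ^ D)` points such that no `k` points span only 4-sets of the colour `0`, and no `7` points
span only 4-sets of the colour `1`.
-/

set_option autoImplicit false

namespace Pool.Agent.R69.StepUp

open Finset

/-! ### Erdős's lower bound -/

/-- there is a colouring of the pairs of `Fin M` without monochromatic `s`-set -/
theorem exists_colouring (M s : ℕ) (h : 2 * M.choose s < 2 ^ (s.choose 2)) :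
    ∃ c : Fin M × Fin M → Bool, ∀ T : Finset (Fin M), T.card = s → ∀ b : Bool,
      ∃ i ∈ T, ∃ j ∈ T, i < j ∧ c (i, j) ≠ b := by
  classical
  by_contra hcon
  push Not at hcon
  -- the pairs of a set
  let P : Finset (Fin M) → Finset (Fin M × Fin M) := fun T => (T ×ˢ T).filter fun p => p.1 < p.2
  have hP : ∀ T : Finset (Fin M), (P T).card = T.card.choose 2 := by
    intro T
    rw [← Finset.card_powersetCard 2 T]
    refine Finset.card_bij (fun p _ => {p.1, p.2}) ?_ ?_ ?_
    · rintro ⟨i, j⟩ hp
      simp only [P, mem_filter, mem_product] at hp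
      rw [mem_powersetCard]
      refine ⟨?_, Finset.card_pair hp.2.ne⟩
      intro x hx
      simp only [mem_insert, mem_singleton] at hx
      rcases hx with rfl | rfl
      · exact hp.1.1
      · exact hp.1.2
    · rintro ⟨i, j⟩ hp ⟨i', j'⟩ hp' heq
      simp only [P, mem_filter, mem_product] at hp hp'
      simp only at heq
      have h1 : i ∈ ({i', j'} : Finset (Fin M)) := heq ▸ mem_insert_self i _
      have h2 : j ∈ ({i', j'} : Finset (Fin M)) :=
        heq ▸ (mem_insert_of_mem (mem_singleton_self j))
      simp only [mem_insert, mem_singleton] at h1 h2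
      have h3 := hp.2
      have h4 := hp'.2
      rcases h1 with rfl | rfl <;> rcases h2 with rfl | rfl
      · exact absurd h3 (lt_irrefl _)
      · rfl
      · exact absurd (h3.trans h4) (lt_irrefl _)
      · exact absurd h3 (lt_irrefl _)
    · intro A hA
      rw [mem_powersetCard] at hA
      obtain ⟨hA1, hA2⟩ := hA
      obtain ⟨x, y, hxy, rfl⟩ := Finset.card_eq_two.1 hA2
      have hx : x ∈ T := hA1 (mem_insert_self _ _)
      have hy : y ∈ T := hA1 (mem_insert_of_mem (mem_singleton_self _))
      rcases lt_or_gt_of_ne hxy with h1 | h1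
      · exact ⟨(x, y), by simp [P, hx, hy, h1], rfl⟩
      · exact ⟨(y, x), by simp [P, hx, hy, h1], Finset.pair_comm _ _⟩
  -- the colourings constant on a set of pairs
  let A : Finset (Fin M) × Bool → Finset (Fin M × Fin M → Bool) := fun q =>
    Fintype.piFinset fun p => if p ∈ P q.1 then {q.2} else univ
  have hcover : (univ : Finset (Fin M × Fin M → Bool)) ⊆
      ((univ : Finset (Fin M)).powersetCard s ×ˢ (univ : Finset Bool)).biUnion A := by
    intro c _
    obtain ⟨T, hT, b, hb⟩ := hcon c
    rw [mem_biUnion]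
    refine ⟨(T, b), by simp [mem_powersetCard, hT], ?_⟩
    simp only [A, Fintype.mem_piFinset]
    rintro ⟨i, j⟩
    split_ifs with hp
    · simp only [P, mem_filter, mem_product] at hp
      rw [mem_singleton]
      exact hb i hp.1.1 j hp.1.2 hp.2
    · exact mem_univ _
  have hA : ∀ q ∈ ((univ : Finset (Fin M)).powersetCard s ×ˢ (univ : Finset Bool)),
      (A q).card * 2 ^ (s.choose 2) = 2 ^ (M * M) := by
    rintro ⟨T, b⟩ hq
    rw [mem_product, mem_powersetCard] at hq
    have hT : T.card = s := hq.1.2
    simp only [A, Fintype.card_piFinset]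
    have h1 : ∀ p : Fin M × Fin M, (if p ∈ P T then ({b} : Finset Bool) else univ).card =
        if p ∈ P T then 1 else 2 := by
      intro p
      split_ifs <;> simp
    simp only [h1]
    rw [Finset.prod_ite]
    simp only [prod_const_one, one_mul, prod_const]
    have h2 : (univ.filter fun p : Fin M × Fin M => p ∉ P T).card + s.choose 2 = M * M := by
      rw [← hT, ← hP T]
      have h3 : (univ.filter fun p : Fin M × Fin M => p ∉ P T) = (P T)ᶜ := by
        ext p; simp
      rw [h3, Finset.card_compl_add_card]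
      simp
    rw [← pow_add, h2]
  have h3 : 2 ^ (M * M) * 2 ^ (s.choose 2) ≤ 2 * M.choose s * 2 ^ (M * M) := by
    have h4 : (univ : Finset (Fin M × Fin M → Bool)).card ≤
        ∑ q ∈ ((univ : Finset (Fin M)).powersetCard s ×ˢ (univ : Finset Bool)), (A q).card :=
      (card_le_card hcover).trans card_biUnion_le
    have h5 : (univ : Finset (Fin M × Fin M → Bool)).card = 2 ^ (M * M) := by
      simp
    rw [h5] at h4
    calc 2 ^ (M * M) * 2 ^ (s.choose 2)
        ≤ (∑ q ∈ ((univ : Finset (Fin M)).powersetCard s ×ˢ (univ : Finset Bool)), (A q).card) *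
          2 ^ (s.choose 2) := Nat.mul_le_mul_right _ h4
      _ = ∑ q ∈ ((univ : Finset (Fin M)).powersetCard s ×ˢ (univ : Finset Bool)),
          2 ^ (M * M) := by
          rw [Finset.sum_mul]
          exact Finset.sum_congr rfl hA
      _ = 2 * M.choose s * 2 ^ (M * M) := by
          simp [card_product, mul_comm]
  have h6 : 2 ^ (M * M) * 2 ^ (s.choose 2) ≤ 2 ^ (M * M) * (2 * M.choose s) := by
    rw [mul_comm (2 ^ (M * M)) (2 * M.choose s)]
    exact h3
  have h7 := Nat.le_of_mul_le_mul_left h6 (by positivity)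
  omega

/-! ### The level of two integers -/

theorem exists_eq_div (x y : ℕ) : ∃ j, x / 2 ^ j = y / 2 ^ j := by
  refine ⟨x + y, ?_⟩
  rw [Nat.div_eq_of_lt, Nat.div_eq_of_lt]
  · exact (Nat.lt_two_pow_self).trans_le (Nat.pow_le_pow_right (by norm_num) (by omega))
  · exact (Nat.lt_two_pow_self).trans_le (Nat.pow_le_pow_right (by norm_num) (by omega))

/-- the least `j` such that `x` and `y` agree after deleting their last `j` binary digits -/
def lev (x y : ℕ) : ℕ := Nat.find (exists_eq_div x y)

theorem lev_spec (x y : ℕ) : x / 2 ^ lev x y = y / 2 ^ lev x y := Nat.find_spec (exists_eq_div x y)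

theorem eq_div_iff (x y j : ℕ) : x / 2 ^ j = y / 2 ^ j ↔ lev x y ≤ j := by
  constructor
  · exact fun h => Nat.find_min' _ h
  · intro h
    obtain ⟨i, rfl⟩ := Nat.exists_eq_add_of_le h
    rw [pow_add, ← Nat.div_div_eq_div_mul, ← Nat.div_div_eq_div_mul, lev_spec]

theorem lev_max {x y z : ℕ} (h1 : x < y) (h2 : y < z) : lev x z = max (lev x y) (lev y z) := by
  have key : ∀ j, lev x z ≤ j ↔ max (lev x y) (lev y z) ≤ j := by
    intro j
    rw [max_le_iff, ← eq_div_iff, ← eq_div_iff, ← eq_div_iff]
    have h3 : x / 2 ^ j ≤ y / 2 ^ j := Nat.div_le_div_right h1.le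
    have h4 : y / 2 ^ j ≤ z / 2 ^ j := Nat.div_le_div_right h2.le
    omega
  exact le_antisymm ((key _).2 le_rfl) ((key _).1 le_rfl)

theorem lev_ne {x y z : ℕ} (h1 : x < y) (h2 : y < z) : lev x y ≠ lev y z := by
  intro h
  have hx := lev_spec x y
  have hz := lev_spec y z
  rw [← h] at hz
  obtain ⟨j, hj⟩ : ∃ j, lev x y = j + 1 := by
    cases h0 : lev x y with
    | zero => rw [h0] at hx; simp at hx; omega
    | succ j => exact ⟨j, rfl⟩
  rw [hj] at hx hz
  have h3 : x / 2 ^ j ≠ y / 2 ^ j := by
    intro h4; have := (eq_div_iff x y j).1 h4; omega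
  have h4 : y / 2 ^ j ≠ z / 2 ^ j := by
    intro h4; have := (eq_div_iff y z j).1 h4; omega
  have h5 : x / 2 ^ j ≤ y / 2 ^ j := Nat.div_le_div_right h1.le
  have h6 : y / 2 ^ j ≤ z / 2 ^ j := Nat.div_le_div_right h2.le
  rw [pow_succ, ← Nat.div_div_eq_div_mul, ← Nat.div_div_eq_div_mul] at hx hz
  omega

theorem lev_le {x y m : ℕ} (hx : x < 2 ^ m) (hy : y < 2 ^ m) : lev x y ≤ m := by
  rw [← eq_div_iff, Nat.div_eq_of_lt hx, Nat.div_eq_of_lt hy]

/-! ### The colouring of the 4-sets -/

section colouring
variable (c : ℕ → ℕ → Bool)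

/-- the triples `a < b < d` of levels which are coloured `1` -/
def E3 (a b d : ℕ) : Prop := c a b = false ∧ c b d = true

/-- the quadruples `x < y < z < w` which are coloured `1` -/
def Q (x y z w : ℕ) : Prop :=
  (lev x y < lev y z ∧ lev z w < lev y z) ∨
  (lev x y < lev y z ∧ lev y z < lev z w ∧ E3 c (lev x y) (lev y z) (lev z w)) ∨
  (lev z w < lev y z ∧ lev y z < lev x y ∧ E3 c (lev z w) (lev y z) (lev x y))

theorem seq6 (a b c d e f : ℕ) (n0 : a < b ∨ b < a) (n1 : b < c ∨ c < b) (n2 : c < d ∨ d < c)
    (n3 : d < e ∨ e < d) (n4 : e < f ∨ f < e) (m0 : ¬ (b < a ∧ b < c)) (m1 : ¬ (c < b ∧ c < d))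
    (m2 : ¬ (d < c ∧ d < e)) (m3 : ¬ (e < d ∧ e < f)) (i0 : ¬ (a < b ∧ b < c ∧ c < d))
    (d2 : ¬ (d < c ∧ e < d ∧ f < e)) : False := by
  rcases n2 with n2 | n2
  · rcases n1 with n1 | n1
    · rcases n0 with n0 | n0
      · exact i0 ⟨n0, n1, n2⟩
      · exact m0 ⟨n0, n1⟩
    · exact m1 ⟨n1, n2⟩
  · rcases n3 with n3 | n3
    · exact m2 ⟨n2, n3⟩
    · rcases n4 with n4 | n4
      · exact m3 ⟨n3, n4⟩
      · exact d2 ⟨n2, n3, n4⟩

/-- no seven points with all quadruples coloured `1` -/
theorem no_seven (x : ℕ → ℕ) (hx : ∀ i j, i < j → j < 7 → x i < x j)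
    (hQ : ∀ i, i + 3 < 7 → Q c (x i) (x (i+1)) (x (i+2)) (x (i+3))) : False := by
  set d : ℕ → ℕ := fun i => lev (x i) (x (i + 1)) with hd
  have hQ' : ∀ i, i + 3 < 7 → (d i < d (i+1) ∧ d (i+2) < d (i+1)) ∨
      (d i < d (i+1) ∧ d (i+1) < d (i+2) ∧ E3 c (d i) (d (i+1)) (d (i+2))) ∨
      (d (i+2) < d (i+1) ∧ d (i+1) < d i ∧ E3 c (d (i+2)) (d (i+1)) (d i)) := hQ
  have hne : ∀ i, i + 2 < 7 → d i < d (i+1) ∨ d (i+1) < d i := fun i hi =>
    lt_or_gt_of_ne (lev_ne (hx _ _ (by omega) (by omega)) (hx _ _ (by omega) (by omega)))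
  clear_value d
  -- no local minimum
  have hmin : ∀ i, i + 3 < 7 → ¬ (d (i+1) < d i ∧ d (i+1) < d (i+2)) := by
    intro i hi h
    rcases hQ' i hi with h1 | h1 | h1 <;> omega
  have hinc : ∀ i, i + 4 < 7 → ¬ (d i < d (i+1) ∧ d (i+1) < d (i+2) ∧ d (i+2) < d (i+3)) := by
    rintro i hi ⟨h1, h2, h3⟩
    have h4 : E3 c (d i) (d (i+1)) (d (i+2)) := by
      rcases hQ' i (by omega) with h | h | h
      · omega
      · exact h.2.2
      · omega
    have h5 : E3 c (d (i+1)) (d (i+2)) (d (i+3)) := by
      have h6 := hQ' (i+1) (by omega)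
      simp only [add_assoc, Nat.reduceAdd] at h6
      rcases h6 with h | h | h
      · omega
      · exact h.2.2
      · omega
    have h6 := h4.2
    rw [h5.1] at h6
    exact Bool.noConfusion h6
  have hdec : ∀ i, i + 4 < 7 → ¬ (d (i+1) < d i ∧ d (i+2) < d (i+1) ∧ d (i+3) < d (i+2)) := by
    rintro i hi ⟨h1, h2, h3⟩
    have h4 : E3 c (d (i+2)) (d (i+1)) (d i) := by
      rcases hQ' i (by omega) with h | h | h
      · omega
      · omega
      · exact h.2.2
    have h5 : E3 c (d (i+3)) (d (i+2)) (d (i+1)) := by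
      have h6 := hQ' (i+1) (by omega)
      simp only [add_assoc, Nat.reduceAdd] at h6
      rcases h6 with h | h | h
      · omega
      · omega
      · exact h.2.2
    have h6 := h5.2
    rw [h4.1] at h6
    exact Bool.noConfusion h6
  exact seq6 (d 0) (d 1) (d 2) (d 3) (d 4) (d 5) (hne 0 (by omega)) (hne 1 (by omega))
    (hne 2 (by omega)) (hne 3 (by omega)) (hne 4 (by omega)) (hmin 0 (by omega))
    (hmin 1 (by omega)) (hmin 2 (by omega)) (hmin 3 (by omega)) (hinc 0 (by omega))
    (hdec 2 (by omega))

/-- a set of levels without a triple of colour `1` contains a large monochromatic set -/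
theorem exists_mono (L : Finset ℕ) (s : ℕ) (hs : 2 * s ≤ L.card + 1)
    (h : ∀ a ∈ L, ∀ b ∈ L, ∀ d ∈ L, a < b → b < d → ¬ E3 c a b d) :
    ∃ T ⊆ L, T.card = s ∧ ∃ b : Bool, ∀ i ∈ T, ∀ j ∈ T, i < j → c i j = b := by
  classical
  let L1 := L.filter fun b => ∀ a ∈ L, a < b → c a b = true
  let L2 := L.filter fun b => ∀ d ∈ L, b < d → c b d = false
  have hL : L = L1 ∪ L2 := by
    ext b
    simp only [L1, L2, mem_union, mem_filter]
    constructor
    · intro hb
      by_cases h1 : ∀ a ∈ L, a < b → c a b = true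
      · exact Or.inl ⟨hb, h1⟩
      · right
        refine ⟨hb, fun d hd hbd => ?_⟩
        push Not at h1
        obtain ⟨a, ha, hab, hc⟩ := h1
        by_contra hcon
        exact h a ha b hb d hd hab hbd ⟨by simpa using hc, by simpa using hcon⟩
    · rintro (h | h) <;> exact h.1
  have hcard : L.card ≤ L1.card + L2.card := by
    conv_lhs => rw [hL]
    exact card_union_le _ _
  by_cases h1 : s ≤ L1.card
  · obtain ⟨T, hT, hTc⟩ := Finset.exists_subset_card_eq h1
    refine ⟨T, hT.trans (filter_subset _ _), hTc, true, fun i hi j hj hij => ?_⟩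
    have h2 := (mem_filter.1 (hT hj)).2
    exact h2 i (mem_filter.1 (hT hi)).1 hij
  · have h2 : s ≤ L2.card := by omega
    obtain ⟨T, hT, hTc⟩ := Finset.exists_subset_card_eq h2
    refine ⟨T, hT.trans (filter_subset _ _), hTc, false, fun i hi j hj hij => ?_⟩
    have h2 := (mem_filter.1 (hT hi)).2
    exact h2 j (mem_filter.1 (hT hj)).1 hij

/-- points `x 0 < ⋯ < x (4 s)` with no quadruple of colour `1` give a monochromatic `s`-set of
levels -/
theorem no_many (m s : ℕ) (hs : 1 ≤ s) (x : ℕ → ℕ) (hx : ∀ i j, i < j → j < 4 * s + 2 → x i < x j)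
    (hm : ∀ i, i < 4 * s + 2 → x i < 2 ^ m)
    (hQ : ∀ i j k l, i < j → j < k → k < l → l < 4 * s + 2 → ¬ Q c (x i) (x j) (x k) (x l)) :
    ∃ T ⊆ range (m + 1), T.card = s ∧ ∃ b : Bool, ∀ i ∈ T, ∀ j ∈ T, i < j → c i j = b := by
  classical
  set d : ℕ → ℕ := fun i => lev (x i) (x (i + 1)) with hd
  have hne : ∀ i, i + 2 < 4 * s + 2 → d i ≠ d (i + 1) := fun i hi =>
    lev_ne (hx _ _ (by omega) (by omega)) (hx _ _ (by omega) (by omega))
  have hdm : ∀ i, i + 1 < 4 * s + 2 → d i ≤ m := fun i hi =>
    lev_le (hm _ (by omega)) (hm _ (by omega))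
  -- no local maximum
  have hmax : ∀ i, i + 3 < 4 * s + 2 → d i < d (i + 1) → d (i + 1) < d (i + 2) := by
    intro i hi h1
    by_contra hcon
    have h2 := hne (i + 1) (by omega)
    exact hQ i (i+1) (i+2) (i+3) (by omega) (by omega) (by omega) (by omega)
      (Or.inl ⟨h1, by show d (i + 2) < d (i + 1); simp only [add_assoc, Nat.reduceAdd] at h2; omega⟩)
  -- once increasing, always increasing
  have hup : ∀ n i, d i < d (i + 1) → i + n + 2 < 4 * s + 2 → d (i + n) < d (i + n + 1) := by
    intro n
    induction n with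
    | zero => intro i h _; exact h
    | succ n ih =>
      intro i h hi
      have h1 := ih i h (by omega)
      have h2 := hmax (i + n) (by omega) h1
      have e1 : i + (n + 1) = i + n + 1 := by omega
      rw [e1]
      exact h2
  by_cases hcase : d (2 * s) < d (2 * s + 1)
  · -- increasing part
    have hinc1 : ∀ i, 2 * s ≤ i → i + 2 < 4 * s + 2 → d i < d (i + 1) := by
      intro i h1 h2
      have := hup (i - 2 * s) (2 * s) hcase (by omega)
      rwa [show 2 * s + (i - 2 * s) = i by omega] at this
    have hinc : ∀ n i, 2 * s ≤ i → i + n + 1 + 1 < 4 * s + 2 → d i < d (i + n + 1) := by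
      intro n
      induction n with
      | zero => intro i h1 h2; exact hinc1 i h1 (by omega)
      | succ n ih =>
        intro i h1 h2
        have h3 := ih i h1 (by omega)
        have h4 := hinc1 (i + n + 1) (by omega) (by omega)
        exact h3.trans h4
    have hlt : ∀ i j, 2 * s ≤ i → i < j → j + 1 < 4 * s + 2 → d i < d j := by
      intro i j h1 h2 h3
      have := hinc (j - i - 1) i h1 (by omega)
      rwa [show i + (j - i - 1) + 1 = j by omega] at this
    -- the level of two distant points
    have hlev : ∀ n i, 2 * s ≤ i → i + n + 1 < 4 * s + 2 → lev (x i) (x (i + n + 1)) = d (i + n) := by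
      intro n
      induction n with
      | zero => intro i _ _; rfl
      | succ n ih =>
        intro i h1 h2
        have h3 := ih i h1 (by omega)
        have h4 : lev (x i) (x (i + (n + 1) + 1)) =
            max (lev (x i) (x (i + n + 1))) (lev (x (i + n + 1)) (x (i + (n + 1) + 1))) :=
          lev_max (hx _ _ (by omega) (by omega)) (hx _ _ (by omega) (by omega))
        rw [h4, h3]
        have h5 : lev (x (i + n + 1)) (x (i + (n + 1) + 1)) = d (i + (n + 1)) := rfl
        rw [h5]
        exact max_eq_right (hlt (i + n) (i + (n + 1)) (by omega) (by omega) (by omega)).le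
    have hlev' : ∀ i j, 2 * s ≤ i → i < j → j < 4 * s + 2 → lev (x i) (x j) = d (j - 1) := by
      intro i j h1 h2 h3
      have := hlev (j - i - 1) i h1 (by omega)
      rw [show i + (j - i - 1) + 1 = j by omega, show i + (j - i - 1) = j - 1 by omega] at this
      exact this
    let L := (Ico (2 * s) (4 * s + 1)).image d
    have hinj : Set.InjOn d (Ico (2 * s) (4 * s + 1)) := by
      intro i hi j hj hij
      rw [coe_Ico, Set.mem_Ico] at hi hj
      rcases lt_trichotomy i j with h | h | h
      · exact absurd hij (hlt i j hi.1 h (by omega)).ne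
      · exact h
      · exact absurd hij (hlt j i hj.1 h (by omega)).ne'
    have hLc : L.card = 2 * s + 1 := by
      rw [card_image_of_injOn hinj, Nat.card_Ico]; omega
    have hLlt : ∀ i j, i ∈ Ico (2 * s) (4 * s + 1) → j ∈ Ico (2 * s) (4 * s + 1) → d i < d j →
        i < j := by
      intro i j hi hj hij
      rw [mem_Ico] at hi hj
      by_contra hcon
      rcases Nat.lt_or_ge j i with h | h
      · exact absurd (hlt j i hj.1 h (by omega)) (not_lt.2 hij.le)
      · have : i = j := by omega
        subst this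
        exact lt_irrefl _ hij
    obtain ⟨T, hT, hTc, b, hb⟩ := exists_mono c L s (by omega) (by
      intro a ha b hb e he hab hbe hE
      simp only [L, mem_image] at ha hb he
      obtain ⟨i, hi, rfl⟩ := ha
      obtain ⟨j, hj, rfl⟩ := hb
      obtain ⟨k, hk, rfl⟩ := he
      have hij := hLlt i j hi hj hab
      have hjk := hLlt j k hj hk hbe
      rw [mem_Ico] at hi hj hk
      have e1 : lev (x i) (x (i + 1)) = d i := rfl
      have e2 : lev (x (i + 1)) (x (j + 1)) = d j := by
        rw [hlev' (i + 1) (j + 1) (by omega) (by omega) (by omega)]; rfl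
      have e3 : lev (x (j + 1)) (x (k + 1)) = d k := by
        rw [hlev' (j + 1) (k + 1) (by omega) (by omega) (by omega)]; rfl
      refine hQ i (i + 1) (j + 1) (k + 1) (by omega) (by omega) (by omega) (by omega)
        (Or.inr (Or.inl ?_))
      rw [e1, e2, e3]
      exact ⟨hab, hbe, hE⟩)
    refine ⟨T, hT.trans ?_, hTc, b, hb⟩
    intro y hy
    simp only [L, mem_image, mem_Ico] at hy
    obtain ⟨i, hi, rfl⟩ := hy
    rw [mem_range]
    have := hdm i (by omega)
    omega
  · -- decreasing part
    have hdec1 : ∀ i, i ≤ 2 * s → d (i + 1) < d i := by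
      intro i hi
      by_contra hcon
      have h1 := hne i (by omega)
      have h2 : d i < d (i + 1) := by omega
      have h3 := hup (2 * s - i) i h2 (by omega)
      rw [show i + (2 * s - i) = 2 * s by omega] at h3
      exact hcase h3
    have hdec : ∀ n i, i + n ≤ 2 * s → d (i + n + 1) < d i := by
      intro n
      induction n with
      | zero => intro i h; exact hdec1 i (by omega)
      | succ n ih =>
        intro i h
        have h3 := ih i (by omega)
        have h4 := hdec1 (i + n + 1) (by omega)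
        exact h4.trans h3
    have hlt : ∀ i j, i < j → j ≤ 2 * s + 1 → d j < d i := by
      intro i j h1 h2
      have := hdec (j - i - 1) i (by omega)
      rwa [show i + (j - i - 1) + 1 = j by omega] at this
    have hlev : ∀ n i, i + n ≤ 2 * s + 1 → lev (x i) (x (i + n + 1)) = d i := by
      intro n
      induction n with
      | zero => intro i _; rfl
      | succ n ih =>
        intro i h2
        have h3 := ih i (by omega)
        have h4 : lev (x i) (x (i + (n + 1) + 1)) =
            max (lev (x i) (x (i + n + 1))) (lev (x (i + n + 1)) (x (i + (n + 1) + 1))) :=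
          lev_max (hx _ _ (by omega) (by omega)) (hx _ _ (by omega) (by omega))
        rw [h4, h3]
        have h5 : lev (x (i + n + 1)) (x (i + (n + 1) + 1)) = d (i + (n + 1)) := rfl
        rw [h5]
        exact max_eq_left (hlt i (i + (n + 1)) (by omega) (by omega)).le
    have hlev' : ∀ i j, i < j → j ≤ 2 * s + 2 → lev (x i) (x j) = d i := by
      intro i j h1 h2
      have := hlev (j - i - 1) i (by omega)
      rw [show i + (j - i - 1) + 1 = j by omega] at this
      exact this
    let L := (range (2 * s + 1)).image d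
    have hinj : Set.InjOn d (range (2 * s + 1)) := by
      intro i hi j hj hij
      rw [coe_range, Set.mem_Iio] at hi hj
      rcases lt_trichotomy i j with h | h | h
      · exact absurd hij (hlt i j h (by omega)).ne'
      · exact h
      · exact absurd hij (hlt j i h (by omega)).ne
    have hLc : L.card = 2 * s + 1 := by
      rw [card_image_of_injOn hinj, card_range]
    have hLlt : ∀ i j, i ∈ range (2 * s + 1) → j ∈ range (2 * s + 1) → d i < d j → j < i := by
      intro i j hi hj hij
      rw [mem_range] at hi hj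
      by_contra hcon
      rcases Nat.lt_or_ge i j with h | h
      · exact absurd (hlt i j h (by omega)) (not_lt.2 hij.le)
      · have : i = j := by omega
        subst this
        exact lt_irrefl _ hij
    obtain ⟨T, hT, hTc, b, hb⟩ := exists_mono c L s (by omega) (by
      intro a ha b hb e he hab hbe hE
      simp only [L, mem_image] at ha hb he
      obtain ⟨i, hi, rfl⟩ := ha
      obtain ⟨j, hj, rfl⟩ := hb
      obtain ⟨k, hk, rfl⟩ := he
      have hij := hLlt i j hi hj hab
      have hjk := hLlt j k hj hk hbe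
      rw [mem_range] at hi hj hk
      have e1 : lev (x k) (x j) = d k := hlev' k j (by omega) (by omega)
      have e2 : lev (x j) (x i) = d j := hlev' j i (by omega) (by omega)
      have e3 : lev (x i) (x (i + 1)) = d i := rfl
      refine hQ k j i (i + 1) (by omega) (by omega) (by omega) (by omega)
        (Or.inr (Or.inr ?_))
      rw [e1, e2, e3]
      exact ⟨hab, hbe, hE⟩)
    refine ⟨T, hT.trans ?_, hTc, b, hb⟩
    intro y hy
    simp only [L, mem_image, mem_range] at hy
    obtain ⟨i, hi, rfl⟩ := hy
    rw [mem_range]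
    have := hdm i (by omega)
    omega

end colouring

end Pool.Agent.R69.StepUp
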