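import Pool.Agent.R69.StepUp

set_option autoImplicit false

namespace Pool.Agent.R69.StepUp

open Finset

section count
variable {α : Type} [DecidableEq α]

/-- the number of `(r+1)`-subsets through a point -/
theorem card_through (S : Finset α) (v : α) (hv : v ∈ S) (r : ℕ) :
    ((S.powersetCard (r + 1)).filter fun e => v ∈ e).card = (S.card - 1).choose r := by
  rw [← card_erase_of_mem hv, ← card_powersetCard]
  symm
  refine card_bij (fun e _ => insert v e) ?_ ?_ ?_
  · intro e he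
    rw [mem_powersetCard] at he
    have hve : v ∉ e := fun h => (mem_erase.1 (he.1 h)).1 rfl
    rw [mem_filter, mem_powersetCard, card_insert_of_notMem hve, he.2]
    refine ⟨⟨?_, rfl⟩, mem_insert_self _ _⟩
    intro x hx
    rcases mem_insert.1 hx with rfl | hx
    · exact hv
    · exact (mem_erase.1 (he.1 hx)).2
  · intro e he e' he' heq
    rw [mem_powersetCard] at he he'
    have hve : v ∉ e := fun h => (mem_erase.1 (he.1 h)).1 rfl
    have hve' : v ∉ e' := fun h => (mem_erase.1 (he'.1 h)).1 rfl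
    rw [← erase_insert hve, ← erase_insert hve']
    exact congrArg (fun s => s.erase v) heq
  · intro e he
    rw [mem_filter, mem_powersetCard] at he
    refine ⟨e.erase v, ?_, insert_erase he.2⟩
    rw [mem_powersetCard, card_erase_of_mem he.2, he.1.2]
    exact ⟨erase_subset_erase v he.1.1, rfl⟩

/-- the number of `7`-subsets that contain a given `4`-subset -/
theorem card_supersets (S e : Finset α) (he : e ⊆ S) (hec : e.card = 4) :
    ((S.powersetCard 7).filter fun T => e ⊆ T).card = (S.card - 4).choose 3 := by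
  have h1 : S.card - 4 = (S \ e).card := by rw [card_sdiff_of_subset he, hec]
  rw [h1, ← card_powersetCard]
  symm
  refine card_bij (fun U _ => e ∪ U) ?_ ?_ ?_
  · intro U hU
    rw [mem_powersetCard] at hU
    have hd : Disjoint e U := disjoint_left.2 fun x hx hx' => (mem_sdiff.1 (hU.1 hx')).2 hx
    rw [mem_filter, mem_powersetCard, card_union_of_disjoint hd, hec, hU.2]
    exact ⟨⟨union_subset he (hU.1.trans sdiff_subset), rfl⟩, subset_union_left⟩
  · intro U hU U' hU' heq
    rw [mem_powersetCard] at hU hU'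
    have hd : Disjoint e U := disjoint_left.2 fun x hx hx' => (mem_sdiff.1 (hU.1 hx')).2 hx
    have hd' : Disjoint e U' := disjoint_left.2 fun x hx hx' => (mem_sdiff.1 (hU'.1 hx')).2 hx
    have h2 : (e ∪ U) \ e = (e ∪ U') \ e := congrArg (fun s => s \ e) heq
    rwa [union_sdiff_cancel_left hd, union_sdiff_cancel_left hd'] at h2
  · intro T hT
    rw [mem_filter, mem_powersetCard] at hT
    refine ⟨T \ e, ?_, union_sdiff_of_subset hT.2⟩
    rw [mem_powersetCard, card_sdiff_of_subset hT.2, hT.1.2, hec]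
    exact ⟨sdiff_subset_sdiff hT.1.1 subset_rfl, rfl⟩

/-- averaging: few bad `4`-sets leave a `7`-set without bad `4`-sets -/
theorem exists_seven (S : Finset α) (h7 : 7 ≤ S.card) (bad : Finset α → Prop) [DecidablePred bad]
    (hb : 35 * ((S.powersetCard 4).filter bad).card < S.card.choose 4) :
    ∃ T ⊆ S, T.card = 7 ∧ ∀ e ⊆ T, e.card = 4 → ¬ bad e := by
  by_contra hcon
  push Not at hcon
  have h1 : (S.powersetCard 7).card ≤ ∑ T ∈ S.powersetCard 7,
      (((S.powersetCard 4).filter bad).filter fun e => e ⊆ T).card := by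
    rw [card_eq_sum_ones]
    refine sum_le_sum fun T hT => ?_
    rw [mem_powersetCard] at hT
    obtain ⟨e, he, hec, hbe⟩ := hcon T hT.1 hT.2
    rw [Nat.one_le_iff_ne_zero, ← Nat.pos_iff_ne_zero, card_pos]
    exact ⟨e, by simp [mem_powersetCard, he.trans hT.1, hec, hbe, he]⟩
  have h2 : ∑ T ∈ S.powersetCard 7, (((S.powersetCard 4).filter bad).filter fun e => e ⊆ T).card =
      ∑ e ∈ (S.powersetCard 4).filter bad, ((S.powersetCard 7).filter fun T => e ⊆ T).card :=
    (sum_card_bipartiteAbove_eq_sum_card_bipartiteBelow (fun (e T : Finset α) => e ⊆ T)).symm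
  have h3 : ∑ e ∈ (S.powersetCard 4).filter bad, ((S.powersetCard 7).filter fun T => e ⊆ T).card =
      ((S.powersetCard 4).filter bad).card * (S.card - 4).choose 3 := by
    rw [card_eq_sum_ones, sum_mul]
    refine sum_congr rfl fun e he => ?_
    rw [mem_filter, mem_powersetCard] at he
    rw [one_mul]
    exact card_supersets S e he.1.1 he.1.2
  rw [h2, h3, card_powersetCard] at h1
  have h4 : S.card.choose 7 * Nat.choose 7 4 = S.card.choose 4 * (S.card - 4).choose (7 - 4) :=
    Nat.choose_mul (by norm_num)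
  have h5 : Nat.choose 7 4 = 35 := by decide
  rw [h5] at h4
  norm_num at h4
  have h6 : 0 < (S.card - 4).choose 3 := Nat.choose_pos (by omega)
  have h7 : S.card.choose 4 * (S.card - 4).choose 3 ≤
      35 * ((S.powersetCard 4).filter bad).card * (S.card - 4).choose 3 := by
    rw [← h4]
    nlinarith
  have := Nat.le_of_mul_le_mul_right h7 h6
  omega

end count

/-- If all vertices of `S` have colour-`1` degree at least `(49/50) C(|S|-1, 3)`, then seven points
of `S` span only `4`-sets of colour `1`. -/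
theorem seven_of_degree {n : ℕ} (φ : Finset (Fin n) → Fin 2) (S : Finset (Fin n)) (h7 : 7 ≤ S.card)
    (hdeg : ∀ v ∈ S, (49 / 50 : ℝ) * (((S.card - 1).choose 3 : ℕ) : ℝ) ≤
      (((S.powersetCard 4).filter (fun e => v ∈ e ∧ φ e = 1)).card : ℝ)) :
    ∃ T ⊆ S, T.card = 7 ∧ ∀ e ⊆ T, e.card = 4 → φ e = 1 := by
  classical
  set B := (S.powersetCard 4).filter fun e => φ e = 1 with hB
  set A := (S.powersetCard 4).filter fun e => φ e ≠ 1 with hA
  have hAB : B.card + A.card = S.card.choose 4 := by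
    rw [← card_powersetCard]
    exact card_filter_add_card_filter_not (s := S.powersetCard 4) (fun e => φ e = 1)
  have h1 : ∑ v ∈ S, ((S.powersetCard 4).filter (fun e => v ∈ e ∧ φ e = 1)).card = 4 * B.card := by
    have h2 : ∀ v ∈ S, ((S.powersetCard 4).filter (fun e => v ∈ e ∧ φ e = 1)).card =
        (B.filter fun e => v ∈ e).card := by
      intro v _
      congr 1
      ext e
      simp only [hB, mem_filter]
      tauto
    rw [sum_congr rfl h2]
    have h3 : ∑ v ∈ S, (B.filter fun e => v ∈ e).card =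
        ∑ e ∈ B, (S.filter fun v => v ∈ e).card :=
      sum_card_bipartiteAbove_eq_sum_card_bipartiteBelow (fun v e => v ∈ e)
    rw [h3]
    have h4 : ∀ e ∈ B, (S.filter fun v => v ∈ e).card = 4 := by
      intro e he
      rw [hB, mem_filter, mem_powersetCard] at he
      have : (S.filter fun v => v ∈ e) = e := by
        ext v
        rw [mem_filter]
        exact ⟨fun h => h.2, fun h => ⟨he.1.1 h, h⟩⟩
      rw [this, he.1.2]
    rw [sum_congr rfl h4, sum_const, smul_eq_mul, mul_comm]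
  have h5 : (S.card : ℝ) * ((49 / 50 : ℝ) * (((S.card - 1).choose 3 : ℕ) : ℝ)) ≤ 4 * B.card := by
    have h6 : ∑ v ∈ S, (49 / 50 : ℝ) * (((S.card - 1).choose 3 : ℕ) : ℝ) ≤
        ∑ v ∈ S, (((S.powersetCard 4).filter (fun e => v ∈ e ∧ φ e = 1)).card : ℝ) :=
      sum_le_sum hdeg
    rw [sum_const, nsmul_eq_mul] at h6
    refine h6.trans (le_of_eq ?_)
    exact_mod_cast h1
  have h6 : (S.card : ℝ) * (((S.card - 1).choose 3 : ℕ) : ℝ) = (S.card.choose 4 : ℕ) * 4 := by
    have h7 := Nat.add_one_mul_choose_eq (S.card - 1) 3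
    rw [show S.card - 1 + 1 = S.card by omega] at h7
    exact_mod_cast h7
  have h7' : (35 * A.card : ℝ) < S.card.choose 4 := by
    have h8 : (B.card : ℝ) + A.card = S.card.choose 4 := by exact_mod_cast hAB
    have h9 : (0 : ℝ) < S.card.choose 4 := by
      exact_mod_cast Nat.choose_pos (by omega)
    nlinarith
  have h8 : 35 * A.card < S.card.choose 4 := by exact_mod_cast h7'
  obtain ⟨T, hT, hTc, hTe⟩ := exists_seven S h7 (fun e => φ e ≠ 1) h8
  exact ⟨T, hT, hTc, fun e he hec => by simpa using hTe e he hec⟩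

/-- If all vertices of `S` have full colour-`0` degree then all `4`-subsets of `S` have colour
`0`. -/
theorem all_zero_of_degree {n : ℕ} (φ : Finset (Fin n) → Fin 2) (S : Finset (Fin n))
    (hdeg : ∀ v ∈ S, (((S.card - 1).choose 3 : ℕ) : ℝ) ≤
      (((S.powersetCard 4).filter (fun e => v ∈ e ∧ φ e = 0)).card : ℝ)) :
    ∀ e ⊆ S, e.card = 4 → φ e = 0 := by
  classical
  intro e he hec
  obtain ⟨v, hv⟩ : e.Nonempty := by rw [← card_pos, hec]; norm_num
  have hvS := he hv
  have h1 : (S.card - 1).choose 3 ≤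
      ((S.powersetCard 4).filter (fun e => v ∈ e ∧ φ e = 0)).card := by
    exact_mod_cast hdeg v hvS
  rw [← card_through S v hvS 3] at h1
  have hsub : (S.powersetCard 4).filter (fun e => v ∈ e ∧ φ e = 0) ⊆
      (S.powersetCard (3 + 1)).filter (fun e => v ∈ e) := by
    intro x hx
    rw [mem_filter] at hx ⊢
    exact ⟨hx.1, hx.2.1⟩
  have h2 := eq_of_subset_of_card_le hsub h1
  have h3 : e ∈ (S.powersetCard (3 + 1)).filter (fun e => v ∈ e) := by
    rw [mem_filter, mem_powersetCard]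
    exact ⟨⟨he, hec⟩, hv⟩
  rw [← h2, mem_filter] at h3
  exact h3.2.2

open Classical in
/-- the colouring of the 4-subsets -/
noncomputable def col (c : ℕ → ℕ → Bool) {n : ℕ} (e : Finset (Fin n)) : Fin 2 :=
  match e.sort (· ≤ ·) with
  | [x, y, z, w] => if Q c x y z w then 1 else 0
  | _ => 0

open Classical in
theorem col_quad (c : ℕ → ℕ → Bool) {n : ℕ} {x y z w : Fin n} (h1 : x < y) (h2 : y < z)
    (h3 : z < w) : col c {x, y, z, w} = if Q c x y z w then 1 else 0 := by
  have hs : ({x, y, z, w} : Finset (Fin n)).sort (· ≤ ·) = [x, y, z, w] := by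
    have hnd : ([x, y, z, w] : List (Fin n)).Nodup := by
      simp [h1.ne, h2.ne, h3.ne, (h1.trans h2).ne, (h2.trans h3).ne, (h1.trans (h2.trans h3)).ne]
    have hset : ({x, y, z, w} : Finset (Fin n)) = [x, y, z, w].toFinset := by simp
    rw [hset, List.toFinset_sort (· ≤ ·) hnd]
    simp [List.pairwise_cons, h1.le, h2.le, h3.le, (h1.trans h2).le, (h2.trans h3).le,
      (h1.trans (h2.trans h3)).le]
  unfold col
  rw [hs]

/-- seven points with only `4`-sets of colour `1` do not exist -/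
theorem col_seven (c : ℕ → ℕ → Bool) {n : ℕ} (T : Finset (Fin n)) (hT : T.card = 7)
    (h : ∀ e ⊆ T, e.card = 4 → col c e = 1) : False := by
  classical
  let f := T.orderEmbOfFin hT
  let x : ℕ → ℕ := fun i => if hi : i < 7 then (f ⟨i, hi⟩ : Fin n).val else 0
  have hxv : ∀ i (hi : i < 7), x i = (f ⟨i, hi⟩ : Fin n).val := fun i hi => dif_pos hi
  refine no_seven c x ?_ ?_
  · intro i j hij hj
    rw [hxv i (by omega), hxv j hj]
    exact f.strictMono (Fin.mk_lt_mk.2 hij)
  · intro i hi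
    rw [hxv i (by omega), hxv (i+1) (by omega), hxv (i+2) (by omega), hxv (i+3) (by omega)]
    have l1 : f ⟨i, by omega⟩ < f ⟨i+1, by omega⟩ := f.strictMono (Fin.mk_lt_mk.2 (by omega))
    have l2 : f ⟨i+1, by omega⟩ < f ⟨i+2, by omega⟩ := f.strictMono (Fin.mk_lt_mk.2 (by omega))
    have l3 : f ⟨i+2, by omega⟩ < f ⟨i+3, by omega⟩ := f.strictMono (Fin.mk_lt_mk.2 (by omega))
    have h1 := h {f ⟨i, by omega⟩, f ⟨i+1, by omega⟩, f ⟨i+2, by omega⟩, f ⟨i+3, by omega⟩} (by
      intro y hy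
      simp only [mem_insert, mem_singleton] at hy
      rcases hy with rfl | rfl | rfl | rfl <;> exact orderEmbOfFin_mem T hT _) (by
      rw [card_insert_of_notMem, card_insert_of_notMem, card_insert_of_notMem, card_singleton]
      · simp [l3.ne]
      · simp [l2.ne, (l2.trans l3).ne]
      · simp [l1.ne, (l1.trans l2).ne, (l1.trans (l2.trans l3)).ne])
    rw [col_quad c l1 l2 l3] at h1
    by_contra hQ
    rw [if_neg hQ] at h1
    exact absurd h1 (by decide)

/-- a large set with only `4`-sets of colour `0` gives a monochromatic set of levels -/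
theorem col_many (c : ℕ → ℕ → Bool) {n m s : ℕ} (hs : 1 ≤ s) (hn : n ≤ 2 ^ m)
    (S : Finset (Fin n)) (hS : 4 * s + 2 ≤ S.card) (h : ∀ e ⊆ S, e.card = 4 → col c e = 0) :
    ∃ T ⊆ range (m + 1), T.card = s ∧ ∃ b : Bool, ∀ i ∈ T, ∀ j ∈ T, i < j → c i j = b := by
  classical
  obtain ⟨T, hTS, hT⟩ := Finset.exists_subset_card_eq hS
  let f := T.orderEmbOfFin hT
  let x : ℕ → ℕ := fun i => if hi : i < 4 * s + 2 then (f ⟨i, hi⟩ : Fin n).val else 0
  have hxv : ∀ i (hi : i < 4 * s + 2), x i = (f ⟨i, hi⟩ : Fin n).val := fun i hi => dif_pos hi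
  refine no_many c m s hs x ?_ ?_ ?_
  · intro i j hij hj
    rw [hxv i (by omega), hxv j hj]
    exact f.strictMono (Fin.mk_lt_mk.2 hij)
  · intro i hi
    rw [hxv i hi]
    exact (Fin.is_lt _).trans_le hn
  · intro i j k l hij hjk hkl hl hQ
    rw [hxv i (by omega), hxv j (by omega), hxv k (by omega), hxv l hl] at hQ
    have l1 : f ⟨i, by omega⟩ < f ⟨j, by omega⟩ := f.strictMono (Fin.mk_lt_mk.2 (by omega))
    have l2 : f ⟨j, by omega⟩ < f ⟨k, by omega⟩ := f.strictMono (Fin.mk_lt_mk.2 (by omega))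
    have l3 : f ⟨k, by omega⟩ < f ⟨l, by omega⟩ := f.strictMono (Fin.mk_lt_mk.2 (by omega))
    have h1 := h {f ⟨i, by omega⟩, f ⟨j, by omega⟩, f ⟨k, by omega⟩, f ⟨l, by omega⟩} (by
      intro y hy
      simp only [mem_insert, mem_singleton] at hy
      apply hTS
      rcases hy with rfl | rfl | rfl | rfl <;> exact orderEmbOfFin_mem T hT _) (by
      rw [card_insert_of_notMem, card_insert_of_notMem, card_insert_of_notMem, card_singleton]
      · simp [l3.ne]
      · simp [l2.ne, (l2.trans l3).ne]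
      · simp [l1.ne, (l1.trans l2).ne, (l1.trans (l2.trans l3)).ne])
    rw [col_quad c l1 l2 l3, if_pos hQ] at h1
    exact absurd h1 (by decide)

/-- the colouring used in the end -/
theorem exists_col (n m s : ℕ) (hs : 1 ≤ s) (hn : n ≤ 2 ^ m)
    (hM : 2 * (m + 1).choose s < 2 ^ (s.choose 2)) :
    ∃ φ : Finset (Fin n) → Fin 2,
      (∀ T : Finset (Fin n), T.card = 7 → ¬ ∀ e ⊆ T, e.card = 4 → φ e = 1) ∧
      (∀ S : Finset (Fin n), 4 * s + 2 ≤ S.card → ¬ ∀ e ⊆ S, e.card = 4 → φ e = 0) := by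
  obtain ⟨c', hc'⟩ := exists_colouring (m + 1) s hM
  let c : ℕ → ℕ → Bool := fun i j =>
    if h : i < m + 1 ∧ j < m + 1 then c' (⟨i, h.1⟩, ⟨j, h.2⟩) else false
  refine ⟨col c, fun T hT h => col_seven c T hT h, fun S hS h => ?_⟩
  obtain ⟨T, hT, hTc, b, hb⟩ := col_many c hs hn S hS h
  have hlt : ∀ i ∈ T, i < m + 1 := fun i hi => mem_range.1 (hT hi)
  let T' : Finset (Fin (m + 1)) := T.attach.image fun i => ⟨i.1, hlt i.1 i.2⟩
  have hT' : T'.card = s := by
    rw [card_image_of_injective _ (fun a b hab => by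
      apply Subtype.ext
      exact (Fin.mk.inj_iff.1 hab)), card_attach, hTc]
  obtain ⟨i, hi, j, hj, hij, hne⟩ := hc' T' hT' b
  simp only [T', mem_image, mem_attach, true_and, Subtype.exists] at hi hj
  obtain ⟨i', hi', rfl⟩ := hi
  obtain ⟨j', hj', rfl⟩ := hj
  apply hne
  have h1 := hb i' hi' j' hj' hij
  simp only [c] at h1
  rwa [dif_pos ⟨hlt i' hi', hlt j' hj'⟩] at h1

/-- the choice of the parameter `s` -/
theorem exists_param (C D : ℕ) : ∃ s : ℕ, 2 ≤ s ∧
    2 * (2 * C * (4 * s + 2) ^ D + 1).choose s < 2 ^ (s.choose 2) := by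
  have hlim := tendsto_pow_const_div_const_pow_of_one_lt (2 * D) (r := (2 : ℝ)) (by norm_num)
  set K : ℝ := 8 * (2 * C + 1) ^ 2 * 6 ^ (2 * D) with hK
  have hK0 : 0 < K := by positivity
  have hev := hlim.eventually (gt_mem_nhds (show (0 : ℝ) < 1 / K by positivity))
  obtain ⟨s, hs, hs2⟩ := (hev.and (Filter.eventually_ge_atTop 2)).exists
  refine ⟨s, hs2, ?_⟩
  set X : ℕ := 2 * C * (4 * s + 2) ^ D + 1 with hX
  have hX1 : 1 ≤ X := by omega
  have hXle : X ≤ (2 * C + 1) * (6 * s) ^ D := by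
    have h1 : (4 * s + 2) ^ D ≤ (6 * s) ^ D := Nat.pow_le_pow_left (by omega) D
    have h2 : 1 ≤ (6 * s) ^ D := Nat.one_le_pow _ _ (by omega)
    calc X ≤ 2 * C * (6 * s) ^ D + (6 * s) ^ D := by
          rw [hX]
          exact add_le_add (Nat.mul_le_mul_left _ h1) h2
      _ = (2 * C + 1) * (6 * s) ^ D := by ring
  -- `4 X ^ 2 ≤ 2 ^ (s - 1)`
  have hkey : 4 * X ^ 2 ≤ 2 ^ (s - 1) := by
    have h1 : K * (s : ℝ) ^ (2 * D) ≤ 2 ^ s := by
      have h2 : (s : ℝ) ^ (2 * D) / 2 ^ s < 1 / K := hs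
      rw [div_lt_div_iff₀ (by positivity) hK0] at h2
      nlinarith
    have h3 : (8 * X ^ 2 : ℝ) ≤ 2 ^ s := by
      refine le_trans ?_ h1
      have h4 : (X : ℝ) ≤ (2 * C + 1) * (6 * s) ^ D := by exact_mod_cast hXle
      have h5 : (X : ℝ) ^ 2 ≤ ((2 * C + 1) * (6 * s) ^ D) ^ 2 :=
        pow_le_pow_left₀ (by positivity) h4 2
      calc (8 * X ^ 2 : ℝ) ≤ 8 * ((2 * C + 1) * (6 * s) ^ D) ^ 2 := by linarith
        _ = K * (s : ℝ) ^ (2 * D) := by
          rw [hK, mul_pow (2 * (C : ℝ) + 1), ← pow_mul, mul_pow 6 (s : ℝ), mul_comm D 2]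
          ring
    have h6 : 8 * X ^ 2 ≤ 2 ^ s := by exact_mod_cast h3
    obtain ⟨t, rfl⟩ : ∃ t, s = t + 1 := ⟨s - 1, by omega⟩
    rw [pow_succ 2 t] at h6
    simp only [Nat.add_sub_cancel]
    omega
  have h1 : X.choose s ≤ X ^ s := Nat.choose_le_pow X s
  have h2 : (2 * X ^ s) ^ 2 < (2 ^ (s.choose 2)) ^ 2 := by
    have h3 : (2 ^ (s.choose 2)) ^ 2 = (2 ^ (s - 1)) ^ s := by
      rw [← pow_mul, ← pow_mul]
      congr 1
      rw [Nat.choose_two_right, Nat.div_mul_cancel (Nat.even_mul_pred_self s).two_dvd, mul_comm]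
    rw [h3]
    calc (2 * X ^ s) ^ 2 = 4 * (X ^ 2) ^ s := by
          rw [mul_pow, ← pow_mul, ← pow_mul, mul_comm s 2]
          norm_num
      _ < 4 ^ s * (X ^ 2) ^ s := by
          apply Nat.mul_lt_mul_of_pos_right _ (by positivity)
          calc 4 = 4 ^ 1 := by norm_num
            _ < 4 ^ s := Nat.pow_lt_pow_right (by norm_num) (by omega)
      _ = (4 * X ^ 2) ^ s := by rw [mul_pow]
      _ ≤ (2 ^ (s - 1)) ^ s := Nat.pow_le_pow_left hkey s
  have h4 : 2 * X ^ s < 2 ^ (s.choose 2) := lt_of_pow_lt_pow_left' 2 h2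
  omega

end Pool.Agent.R69.StepUp
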