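import Mathlib

/-!
# Sum-free sets in `𝔽₂ ^ n` meeting all `d`-dimensional subspaces, `n` close to `2 d`

The deletion method: take a random set, and delete a maximal family of pairwise disjoint triples
`{x, y, x + y}`.
-/

set_option autoImplicit false

namespace Pool.Agent.R69.SumFree

open Finset

section count
variable {V : Type} [Fintype V] [DecidableEq V]

/-- the number of functions with prescribed value `0` on `P` -/
theorem card_zero_on (P : Finset V) (q : ℕ) :
    ((univ : Finset (V → Fin (q + 1))).filter fun f => ∀ v ∈ P, f v = 0).card *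
      (q + 1) ^ P.card = (q + 1) ^ Fintype.card V := by
  have h1 : ((univ : Finset (V → Fin (q + 1))).filter fun f => ∀ v ∈ P, f v = 0) =
      Fintype.piFinset fun v => if v ∈ P then {0} else univ := by
    ext f
    simp only [mem_filter, mem_univ, true_and, Fintype.mem_piFinset]
    constructor
    · intro h v
      split_ifs with hv
      · rw [mem_singleton]; exact h v hv
      · exact mem_univ _
    · intro h v hv
      have := h v
      rw [if_pos hv, mem_singleton] at this
      exact this
  rw [h1, Fintype.card_piFinset]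
  have h2 : ∀ v : V, (if v ∈ P then ({0} : Finset (Fin (q + 1))) else univ).card =
      if v ∈ P then 1 else q + 1 := by
    intro v
    split_ifs <;> simp
  simp only [h2]
  rw [prod_ite]
  simp only [prod_const_one, one_mul, prod_const]
  have h3 : (univ.filter fun v : V => v ∉ P) = Pᶜ := by ext v; simp
  rw [h3, ← pow_add, card_compl_add_card]

/-- the number of functions without the value `0` on `L` -/
theorem card_nonzero_on (L : Finset V) (q : ℕ) :
    ((univ : Finset (V → Fin (q + 1))).filter fun f => ∀ v ∈ L, f v ≠ 0).card *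
      (q + 1) ^ L.card = q ^ L.card * (q + 1) ^ Fintype.card V := by
  have h1 : ((univ : Finset (V → Fin (q + 1))).filter fun f => ∀ v ∈ L, f v ≠ 0) =
      Fintype.piFinset fun v => if v ∈ L then univ.erase 0 else univ := by
    ext f
    simp only [mem_filter, mem_univ, true_and, Fintype.mem_piFinset]
    constructor
    · intro h v
      split_ifs with hv
      · rw [mem_erase]; exact ⟨h v hv, mem_univ _⟩
      · exact mem_univ _
    · intro h v hv
      have := h v
      rw [if_pos hv, mem_erase] at this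
      exact this.1
  rw [h1, Fintype.card_piFinset]
  have h2 : ∀ v : V, (if v ∈ L then (univ : Finset (Fin (q + 1))).erase 0 else univ).card =
      if v ∈ L then q else q + 1 := by
    intro v
    split_ifs <;> simp
  simp only [h2]
  rw [prod_ite]
  simp only [prod_const]
  have h3 : (univ.filter fun v : V => v ∉ L) = Lᶜ := by ext v; simp
  have h4 : (univ.filter fun v : V => v ∈ L) = L := by ext v; simp
  rw [h3, h4, mul_assoc, ← pow_add, card_compl_add_card]

end count

/-- the vector space `𝔽₂ ^ n` -/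
abbrev F2 (n : ℕ) : Type := Fin n → ZMod 2

theorem add_self' {n : ℕ} (x : F2 n) : x + x = 0 := by
  funext i
  exact CharTwo.add_self_eq_zero (x i)

theorem card_F2 (n : ℕ) : Fintype.card (F2 n) = 2 ^ n := by
  rw [Fintype.card_fun, ZMod.card, Fintype.card_fin]

/-- linear maps `𝔽₂ ^ d → 𝔽₂ ^ n` given by the images of the unit vectors -/
def lin {d n : ℕ} (M : Fin d → F2 n) (a : F2 d) : F2 n := ∑ i, a i • M i

/-- a triple `{x, y, x + y}` of nonzero vectors, the nonzero vectors of a plane -/
def IsTri {n : ℕ} (t : Finset (F2 n)) : Prop :=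
  ∃ x y : F2 n, x ≠ 0 ∧ y ≠ 0 ∧ x ≠ y ∧ t = {x, y, x + y}

theorem IsTri.card {n : ℕ} {t : Finset (F2 n)} (h : IsTri t) : t.card = 3 := by
  obtain ⟨x, y, hx, hy, hxy, rfl⟩ := h
  rw [card_insert_of_notMem, card_insert_of_notMem, card_singleton]
  · simpa using hx
  · simp only [mem_insert, mem_singleton, not_or]
    exact ⟨hxy, by simpa using hy⟩

theorem IsTri.rep {n : ℕ} {t : Finset (F2 n)} (h : IsTri t) {w : F2 n} (hw : w ∈ t) :
    ∃ y, t = {w, y, w + y} := by
  obtain ⟨x, y, hx, hy, hxy, rfl⟩ := h
  simp only [mem_insert, mem_singleton] at hw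
  rcases hw with rfl | rfl | rfl
  · exact ⟨y, rfl⟩
  · refine ⟨x, ?_⟩
    rw [add_comm x w, insert_comm]
  · refine ⟨x, ?_⟩
    have : x + y + x = y := by
      rw [add_comm x y, add_assoc, add_self', add_zero]
    rw [this]
    ext z
    simp only [mem_insert, mem_singleton]
    tauto

/-- the data of an event of the first kind: `m` vectors of the subspace and `m` further vectors -/
abbrev Data (d n m : ℕ) : Type := Fin m → F2 d × F2 n

/-- the points of the `m` triples -/
def pts {d n m : ℕ} (M : Fin d → F2 n) (D : Data d n m) : Finset (F2 n) :=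
  univ.biUnion fun i => {lin M (D i).1, (D i).2, lin M (D i).1 + (D i).2}

/-- **Key lemma.** If the counting inequality holds, there is a set without triples
`{x, y, x + y}` that meets every `d`-dimensional subspace. -/
theorem exists_set (d n m q : ℕ) (hm : 3 * m ≤ 2 ^ d - 1)
    (h1 : 4 * 2 ^ (n * d) * 2 ^ ((d + n) * m) ≤ (q + 1) ^ (3 * m))
    (h2 : 4 * 2 ^ (n * d) * (2 ^ d) ^ (3 * m) * q ^ (2 ^ d - 1 - 3 * m) ≤
      (q + 1) ^ (2 ^ d - 1 - 3 * m)) :
    ∃ A : Finset (F2 n), 0 ∉ A ∧ (∀ t ⊆ A, ¬ IsTri t) ∧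
      ∀ M : Fin d → F2 n, Function.Injective (lin M) → ∃ a : F2 d, a ≠ 0 ∧ lin M a ∈ A := by
  classical
  -- the bad functions
  let E1 : (Fin d → F2 n) → Finset (F2 n → Fin (q + 1)) := fun M =>
    ((univ : Finset (Data d n m)).filter fun D => (pts M D).card = 3 * m).biUnion fun D =>
      univ.filter fun f => ∀ v ∈ pts M D, f v = 0
  let E2 : (Fin d → F2 n) → Finset (F2 n → Fin (q + 1)) := fun M =>
    if Function.Injective (lin M) then
      (((univ : Finset (F2 d)).erase 0).powersetCard (3 * m)).biUnion fun B =>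
        univ.filter fun f => ∀ v ∈ ((univ.erase 0) \ B).image (lin M), f v ≠ 0
    else ∅
  have hE1 : ∀ M, (E1 M).card * (q + 1) ^ (3 * m) ≤
      2 ^ ((d + n) * m) * (q + 1) ^ Fintype.card (F2 n) := by
    intro M
    have h3 : (E1 M).card ≤ ∑ D ∈ ((univ : Finset (Data d n m)).filter
        fun D => (pts M D).card = 3 * m), ((univ : Finset (F2 n → Fin (q + 1))).filter
          fun f => ∀ v ∈ pts M D, f v = 0).card := card_biUnion_le
    calc (E1 M).card * (q + 1) ^ (3 * m)
        ≤ (∑ D ∈ ((univ : Finset (Data d n m)).filter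
        fun D => (pts M D).card = 3 * m), ((univ : Finset (F2 n → Fin (q + 1))).filter
          fun f => ∀ v ∈ pts M D, f v = 0).card) * (q + 1) ^ (3 * m) :=
          Nat.mul_le_mul_right _ h3
      _ = ∑ D ∈ ((univ : Finset (Data d n m)).filter
        fun D => (pts M D).card = 3 * m), (q + 1) ^ Fintype.card (F2 n) := by
          rw [sum_mul]
          refine sum_congr rfl fun D hD => ?_
          rw [mem_filter] at hD
          rw [← card_zero_on (pts M D) q, hD.2]
      _ ≤ ∑ D ∈ (univ : Finset (Data d n m)), (q + 1) ^ Fintype.card (F2 n) :=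
          sum_le_sum_of_subset (filter_subset _ _)
      _ = 2 ^ ((d + n) * m) * (q + 1) ^ Fintype.card (F2 n) := by
          rw [sum_const, smul_eq_mul, card_univ, Fintype.card_fun, Fintype.card_prod, card_F2,
            card_F2, Fintype.card_fin, ← pow_add, ← pow_mul]
  have hE2 : ∀ M, (E2 M).card * (q + 1) ^ (2 ^ d - 1 - 3 * m) ≤
      (2 ^ d) ^ (3 * m) * q ^ (2 ^ d - 1 - 3 * m) * (q + 1) ^ Fintype.card (F2 n) := by
    intro M
    by_cases hM : Function.Injective (lin M)
    · simp only [E2, if_pos hM]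
      have hcardB : ∀ B ∈ ((univ : Finset (F2 d)).erase 0).powersetCard (3 * m),
          (((univ.erase 0) \ B).image (lin M)).card = 2 ^ d - 1 - 3 * m := by
        intro B hB
        rw [mem_powersetCard] at hB
        rw [card_image_of_injective _ hM, card_sdiff_of_subset hB.1, hB.2,
          card_erase_of_mem (mem_univ _), card_univ, card_F2]
      have h3 := card_biUnion_le (s := ((univ : Finset (F2 d)).erase 0).powersetCard (3 * m))
        (t := fun B => (univ : Finset (F2 n → Fin (q + 1))).filter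
          fun f => ∀ v ∈ ((univ.erase 0) \ B).image (lin M), f v ≠ 0)
      calc _ ≤ (∑ B ∈ ((univ : Finset (F2 d)).erase 0).powersetCard (3 * m),
            ((univ : Finset (F2 n → Fin (q + 1))).filter
              fun f => ∀ v ∈ ((univ.erase 0) \ B).image (lin M), f v ≠ 0).card) *
              (q + 1) ^ (2 ^ d - 1 - 3 * m) := Nat.mul_le_mul_right _ h3
        _ = ∑ B ∈ ((univ : Finset (F2 d)).erase 0).powersetCard (3 * m),
            q ^ (2 ^ d - 1 - 3 * m) * (q + 1) ^ Fintype.card (F2 n) := by
            rw [sum_mul]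
            refine sum_congr rfl fun B hB => ?_
            have := card_nonzero_on (((univ.erase 0) \ B).image (lin M)) q
            rw [hcardB B hB] at this
            exact this
        _ = ((2 ^ d - 1).choose (3 * m)) *
            (q ^ (2 ^ d - 1 - 3 * m) * (q + 1) ^ Fintype.card (F2 n)) := by
            rw [sum_const, smul_eq_mul, card_powersetCard, card_erase_of_mem (mem_univ _),
              card_univ, card_F2]
        _ ≤ (2 ^ d) ^ (3 * m) *
            (q ^ (2 ^ d - 1 - 3 * m) * (q + 1) ^ Fintype.card (F2 n)) := by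
            apply Nat.mul_le_mul_right
            exact (Nat.choose_le_pow _ _).trans (Nat.pow_le_pow_left (Nat.sub_le _ _) _)
        _ = _ := by ring
    · simp only [E2, if_neg hM]
      simp
  -- some function is good
  obtain ⟨f, hf⟩ : ∃ f : F2 n → Fin (q + 1), ∀ M, f ∉ E1 M ∧ f ∉ E2 M := by
    by_contra hcon
    push Not at hcon
    have hsub : (univ : Finset (F2 n → Fin (q + 1))) ⊆
        (univ.biUnion E1) ∪ (univ.biUnion E2) := by
      intro f _
      obtain ⟨M, hM⟩ := hcon f
      rw [mem_union, mem_biUnion, mem_biUnion]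
      by_cases h3 : f ∈ E1 M
      · exact Or.inl ⟨M, mem_univ _, h3⟩
      · exact Or.inr ⟨M, mem_univ _, hM h3⟩
    have h3 := (card_le_card hsub).trans (card_union_le _ _)
    have h4 : (univ.biUnion E1).card ≤ ∑ M, (E1 M).card := card_biUnion_le
    have h5 : (univ.biUnion E2).card ≤ ∑ M, (E2 M).card := card_biUnion_le
    have hcM : (univ : Finset (Fin d → F2 n)).card = 2 ^ (n * d) := by
      rw [card_univ, Fintype.card_fun, card_F2, Fintype.card_fin, ← pow_mul]
    set N := (q + 1) ^ Fintype.card (F2 n) with hN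
    have hNpos : 0 < N := by positivity
    have h6 : 4 * ∑ M, (E1 M).card ≤ N := by
      have h7 : (∑ M, (E1 M).card) * (q + 1) ^ (3 * m) ≤ 2 ^ (n * d) * (2 ^ ((d + n) * m) * N) := by
        rw [sum_mul]
        calc ∑ M, (E1 M).card * (q + 1) ^ (3 * m) ≤ ∑ _M : Fin d → F2 n, 2 ^ ((d + n) * m) * N :=
              sum_le_sum fun M _ => hE1 M
          _ = 2 ^ (n * d) * (2 ^ ((d + n) * m) * N) := by
              rw [sum_const, smul_eq_mul, hcM]
      have h8 : (4 * ∑ M, (E1 M).card) * (q + 1) ^ (3 * m) ≤ N * (q + 1) ^ (3 * m) := by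
        calc (4 * ∑ M, (E1 M).card) * (q + 1) ^ (3 * m)
            = 4 * ((∑ M, (E1 M).card) * (q + 1) ^ (3 * m)) := by ring
          _ ≤ 4 * (2 ^ (n * d) * (2 ^ ((d + n) * m) * N)) := Nat.mul_le_mul_left _ h7
          _ = (4 * 2 ^ (n * d) * 2 ^ ((d + n) * m)) * N := by ring
          _ ≤ (q + 1) ^ (3 * m) * N := Nat.mul_le_mul_right _ h1
          _ = N * (q + 1) ^ (3 * m) := by ring
      exact Nat.le_of_mul_le_mul_right h8 (by positivity)
    have h7 : 4 * ∑ M, (E2 M).card ≤ N := by
      have h7 : (∑ M, (E2 M).card) * (q + 1) ^ (2 ^ d - 1 - 3 * m) ≤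
          2 ^ (n * d) * ((2 ^ d) ^ (3 * m) * q ^ (2 ^ d - 1 - 3 * m) * N) := by
        rw [sum_mul]
        calc ∑ M, (E2 M).card * (q + 1) ^ (2 ^ d - 1 - 3 * m)
            ≤ ∑ _M : Fin d → F2 n, (2 ^ d) ^ (3 * m) * q ^ (2 ^ d - 1 - 3 * m) * N :=
              sum_le_sum fun M _ => hE2 M
          _ = 2 ^ (n * d) * ((2 ^ d) ^ (3 * m) * q ^ (2 ^ d - 1 - 3 * m) * N) := by
              rw [sum_const, smul_eq_mul, hcM]
      have h8 : (4 * ∑ M, (E2 M).card) * (q + 1) ^ (2 ^ d - 1 - 3 * m) ≤
          N * (q + 1) ^ (2 ^ d - 1 - 3 * m) := by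
        calc (4 * ∑ M, (E2 M).card) * (q + 1) ^ (2 ^ d - 1 - 3 * m)
            = 4 * ((∑ M, (E2 M).card) * (q + 1) ^ (2 ^ d - 1 - 3 * m)) := by ring
          _ ≤ 4 * (2 ^ (n * d) * ((2 ^ d) ^ (3 * m) * q ^ (2 ^ d - 1 - 3 * m) * N)) :=
              Nat.mul_le_mul_left _ h7
          _ = (4 * 2 ^ (n * d) * (2 ^ d) ^ (3 * m) * q ^ (2 ^ d - 1 - 3 * m)) * N := by ring
          _ ≤ (q + 1) ^ (2 ^ d - 1 - 3 * m) * N := Nat.mul_le_mul_right _ h2
          _ = N * (q + 1) ^ (2 ^ d - 1 - 3 * m) := by ring
      exact Nat.le_of_mul_le_mul_right h8 (by positivity)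
    have h8 : (univ : Finset (F2 n → Fin (q + 1))).card = N := by
      rw [card_univ, Fintype.card_fun, Fintype.card_fin]
    rw [h8] at h3
    omega
  -- the random set and a maximal family of disjoint triples
  let A : Finset (F2 n) := univ.filter fun v => v ≠ 0 ∧ f v = 0
  let Fam : Finset (Finset (Finset (F2 n))) := univ.filter fun 𝒯 =>
    (∀ t ∈ 𝒯, t ⊆ A ∧ IsTri t) ∧ (∀ t ∈ 𝒯, ∀ t' ∈ 𝒯, t ≠ t' → Disjoint t t')
  have hFam : Fam.Nonempty := ⟨∅, by simp [Fam]⟩
  obtain ⟨𝒯, h𝒯, hmax⟩ := Fam.exists_max_image (fun 𝒯 => 𝒯.card) hFam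
  simp only [Fam, mem_filter, mem_univ, true_and] at h𝒯
  let U : Finset (F2 n) := 𝒯.biUnion id
  refine ⟨A \ U, ?_, ?_, ?_⟩
  · intro h
    have := (mem_sdiff.1 h).1
    simp [A] at this
  · intro t ht hT
    have hdisj : ∀ t' ∈ 𝒯, Disjoint t t' := by
      intro t' ht'
      rw [disjoint_left]
      intro x hx hx'
      exact (mem_sdiff.1 (ht hx)).2 (mem_biUnion.2 ⟨t', ht', hx'⟩)
    have hnot : t ∉ 𝒯 := by
      intro h
      have h3 := hdisj t h
      rw [disjoint_self, bot_eq_empty] at h3
      have := hT.card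
      rw [h3] at this
      simp at this
    have hmem : insert t 𝒯 ∈ Fam := by
      simp only [Fam, mem_filter, mem_univ, true_and, mem_insert]
      constructor
      · rintro t' (rfl | ht')
        · exact ⟨ht.trans sdiff_subset, hT⟩
        · exact h𝒯.1 t' ht'
      · rintro t1 (rfl | h1) t2 (rfl | h2) hne
        · exact absurd rfl hne
        · exact hdisj t2 h2
        · exact (hdisj t1 h1).symm
        · exact h𝒯.2 t1 h1 t2 h2 hne
    have h3 := hmax _ hmem
    rw [card_insert_of_notMem hnot] at h3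
    omega
  · intro M hM
    by_contra hcon
    push Not at hcon
    -- all points of `A` in the subspace are covered by triples
    have hcov : ∀ a : F2 d, a ≠ 0 → f (lin M a) = 0 → lin M a ∈ U := by
      intro a ha hfa
      by_contra hU
      refine hcon a ha (mem_sdiff.2 ⟨?_, hU⟩)
      have h0 : lin M (0 : F2 d) = 0 := by simp [lin]
      have : lin M a ≠ 0 := fun h => ha (hM (h.trans h0.symm))
      simp [A, this, hfa]
    -- triples meeting the subspace
    let 𝒲 : Finset (Finset (F2 n)) := 𝒯.filter fun t => ∃ a : F2 d, lin M a ∈ t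
    by_cases hW : m ≤ 𝒲.card
    · -- event 1
      obtain ⟨𝒮, h𝒮, h𝒮c⟩ := exists_subset_card_eq hW
      let e := 𝒮.equivFinOfCardEq h𝒮c
      have hprop : ∀ i : Fin m, ∃ D : F2 d × F2 n,
          ((e.symm i : Finset (F2 n))) = {lin M D.1, D.2, lin M D.1 + D.2} := by
        intro i
        have h3 := mem_filter.1 (h𝒮 (e.symm i).2)
        obtain ⟨a, ha⟩ := h3.2
        obtain ⟨y, hy⟩ := (h𝒯.1 _ h3.1).2.rep ha
        exact ⟨(a, y), hy⟩
      choose D hD using hprop
      apply (hf M).1
      simp only [E1, mem_biUnion, mem_filter, mem_univ, true_and]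
      refine ⟨D, ?_, ?_⟩
      · unfold pts
        rw [card_biUnion]
        · have h3 : ∀ i : Fin m,
              ({lin M (D i).1, (D i).2, lin M (D i).1 + (D i).2} : Finset (F2 n)).card = 3 := by
            intro i
            rw [← hD i]
            exact (h𝒯.1 _ (mem_filter.1 (h𝒮 (e.symm i).2)).1).2.card
          simp only [h3, sum_const, card_univ, Fintype.card_fin, smul_eq_mul]
          ring
        · intro i _ j _ hij
          simp only [Function.onFun]
          rw [← hD i, ← hD j]
          refine h𝒯.2 _ (mem_filter.1 (h𝒮 (e.symm i).2)).1 _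
            (mem_filter.1 (h𝒮 (e.symm j).2)).1 ?_
          intro h
          exact hij (e.symm.injective (Subtype.ext h))
      · intro v hv
        simp only [pts, mem_biUnion, mem_univ, true_and] at hv
        obtain ⟨i, hi⟩ := hv
        rw [← hD i] at hi
        have h3 := (h𝒯.1 _ (mem_filter.1 (h𝒮 (e.symm i).2)).1).1 hi
        simp only [A, mem_filter, mem_univ, true_and] at h3
        exact h3.2
    · -- event 2
      rw [not_le] at hW
      let Z : Finset (F2 d) := (univ.erase 0).filter fun a => f (lin M a) = 0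
      have hZ : Z.card ≤ 3 * m := by
        have h3 : Z.image (lin M) ⊆ 𝒲.biUnion id := by
          intro v hv
          obtain ⟨a, ha, rfl⟩ := mem_image.1 hv
          simp only [Z, mem_filter, mem_erase, mem_univ, and_true] at ha
          obtain ⟨t, ht, hat⟩ := mem_biUnion.1 (hcov a ha.1 ha.2)
          exact mem_biUnion.2 ⟨t, mem_filter.2 ⟨ht, a, hat⟩, hat⟩
        have h4 := card_le_card h3
        rw [card_image_of_injective _ hM] at h4
        refine h4.trans ?_
        have h5 : (𝒲.biUnion id).card ≤ 𝒲.card * 3 := by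
          apply card_biUnion_le_card_mul
          intro t ht
          exact ((h𝒯.1 _ (mem_filter.1 ht).1).2.card).le
        omega
      obtain ⟨B, hZB, hB, hBc⟩ := exists_subsuperset_card_eq
        (show Z ⊆ (univ : Finset (F2 d)).erase 0 from filter_subset _ _) hZ
        (by rw [card_erase_of_mem (mem_univ _), card_univ, card_F2]; exact hm)
      apply (hf M).2
      simp only [E2, if_pos hM, mem_biUnion, mem_filter, mem_univ, true_and]
      refine ⟨B, mem_powersetCard.2 ⟨hB, hBc⟩, ?_⟩
      intro v hv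
      obtain ⟨a, ha, rfl⟩ := mem_image.1 hv
      rw [mem_sdiff] at ha
      intro h
      exact ha.2 (hZB (mem_filter.2 ⟨ha.1, h⟩))

end Pool.Agent.R69.SumFree
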