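import Pool.Agent.R69.SumFree

/-!
# The parameters of the deletion method
-/

set_option autoImplicit false

namespace Pool.Agent.R69.SumFree

open Finset

/-- `2 (Q - 1) ^ Q ≤ Q ^ Q` -/
theorem two_mul_pow_le (q : ℕ) : 2 * q ^ (q + 1) ≤ (q + 1) ^ (q + 1) := by
  rcases Nat.eq_zero_or_pos q with rfl | hq
  · norm_num
  · have h : (1 : ℚ) + ((q + 1 : ℕ) : ℚ) * (1 / (q : ℚ)) ≤ (1 + 1 / (q : ℚ)) ^ (q + 1) :=
      one_add_mul_le_pow (by
        have : (0 : ℚ) ≤ 1 / (q : ℚ) := by positivity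
        linarith) _
    have hq' : (0 : ℚ) < q := by exact_mod_cast hq
    have h2 : (2 : ℚ) ≤ (1 + 1 / (q : ℚ)) ^ (q + 1) := by
      refine le_trans ?_ h
      have : ((q + 1 : ℕ) : ℚ) * (1 / (q : ℚ)) = 1 + 1 / q := by
        push_cast
        field_simp
      rw [this]
      have : (0 : ℚ) < 1 / (q : ℚ) := by positivity
      linarith
    have h3 : (1 + 1 / (q : ℚ)) ^ (q + 1) * (q : ℚ) ^ (q + 1) = ((q : ℚ) + 1) ^ (q + 1) := by
      rw [← mul_pow]
      congr 1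
      field_simp
    have h4 : (2 : ℚ) * (q : ℚ) ^ (q + 1) ≤ ((q : ℚ) + 1) ^ (q + 1) := by
      rw [← h3]
      exact mul_le_mul_of_nonneg_right h2 (by positivity)
    exact_mod_cast h4

theorem two_pow_mul_pow_le (q s L : ℕ) (hL : (q + 1) * s ≤ L) :
    2 ^ s * q ^ L ≤ (q + 1) ^ L := by
  obtain ⟨k, rfl⟩ := Nat.exists_eq_add_of_le hL
  rw [pow_add, pow_add, pow_mul, pow_mul, ← mul_assoc, ← mul_pow]
  exact Nat.mul_le_mul (Nat.pow_le_pow_left (two_mul_pow_le q) _)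
    (Nat.pow_le_pow_left (Nat.le_succ q) _)

/-- the numerical conditions hold for `n ≤ 2 d - 3 t - 1` if `2 ^ t ≥ 17 d ^ 3` -/
theorem exists_set' (d n t : ℕ) (hd : 1 ≤ d) (ht : 17 * d ^ 3 ≤ 2 ^ t) (htd : 2 * t ≤ d)
    (hn : n + 3 * t + 1 ≤ 2 * d) :
    ∃ A : Finset (F2 n), 0 ∉ A ∧ (∀ t ⊆ A, ¬ IsTri t) ∧
      ∀ M : Fin d → F2 n, Function.Injective (lin M) → ∃ a : F2 d, a ≠ 0 ∧ lin M a ∈ A := by
  obtain ⟨j, rfl⟩ := Nat.exists_eq_add_of_le (show t ≤ d by omega)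
  set d := t + j with hd'
  have hQ : 0 < 2 ^ j := by positivity
  obtain ⟨q, hq⟩ := Nat.exists_eq_add_of_lt hQ
  rw [zero_add] at hq
  set m := n * d + 2 with hm
  set s := 2 + n * d + 3 * d * m with hs
  have hn2 : n ≤ 2 * d := by omega
  have hs1 : s + 1 ≤ 2 ^ t := by
    refine le_trans ?_ ht
    have h1 : n * d ≤ 2 * d * d := Nat.mul_le_mul_right _ hn2
    have h2 : 3 * d * m ≤ 3 * d * (2 * d * d + 2) := by
      apply Nat.mul_le_mul_left
      omega
    have h3 : d ≤ d ^ 3 := Nat.le_self_pow (by norm_num) d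
    have h4 : d * d ≤ d ^ 3 := by
      calc d * d = d * d * 1 := by ring
        _ ≤ d * d * d := Nat.mul_le_mul_left _ hd
        _ = d ^ 3 := by ring
    have h5 : 1 ≤ d ^ 3 := Nat.one_le_pow _ _ hd
    calc s + 1 ≤ 2 + 2 * d * d + 3 * d * (2 * d * d + 2) + 1 := by omega
      _ = 3 * 1 + 2 * (d * d) + 6 * d ^ 3 + 6 * d := by ring
      _ ≤ 17 * d ^ 3 := by omega
  have h3m : 3 * m + 1 ≤ 2 ^ j := by
    have h1 : (2 : ℕ) ^ t ≤ 2 ^ j := Nat.pow_le_pow_right (by norm_num) (by omega)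
    have h2 : 3 * m ≤ 3 * d * m := by
      have : 3 * 1 * m ≤ 3 * d * m := Nat.mul_le_mul_right _ (Nat.mul_le_mul_left _ hd)
      simpa using this
    omega
  have hLs : 2 ^ j * s ≤ 2 ^ d - 1 - 3 * m := by
    have h1 : 2 ^ d = 2 ^ j * 2 ^ t := by rw [hd', pow_add, mul_comm]
    have h2 : 2 ^ j * (s + 1) ≤ 2 ^ j * 2 ^ t := Nat.mul_le_mul_left _ hs1
    rw [mul_add, mul_one] at h2
    rw [h1]
    omega
  have hq1 : q + 1 = 2 ^ j := hq.symm
  refine exists_set d n m q ?_ ?_ ?_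
  · have h1 : (2 : ℕ) ^ j ≤ 2 ^ d := Nat.pow_le_pow_right (by norm_num) (by omega)
    omega
  · rw [hq1]
    have h1 : 4 * 2 ^ (n * d) = 2 ^ m := by rw [hm, pow_add]; ring
    rw [h1, ← pow_add, ← pow_mul]
    apply Nat.pow_le_pow_right (by norm_num)
    calc m + (d + n) * m = (d + n + 1) * m := by ring
      _ ≤ (3 * j) * m := Nat.mul_le_mul_right _ (by omega)
      _ = j * (3 * m) := by ring
  · have h1 : 4 * 2 ^ (n * d) * (2 ^ d) ^ (3 * m) = 2 ^ s := by
      rw [← pow_mul, hs]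
      have : 2 + n * d + 3 * d * m = 2 + (n * d + d * (3 * m)) := by ring
      rw [this, pow_add, pow_add]
      ring
    rw [h1]
    apply two_pow_mul_pow_le
    rw [hq1]
    exact hLs

/-- for large `d` one may take every `n` with `n < (2 - ε) d` -/
theorem exists_set_eventually (ε : ℝ) (hε : 0 < ε) :
    ∃ d₀ : ℕ, ∀ d ≥ d₀, ∀ n : ℕ, (n : ℝ) < (2 - ε) * d →
    ∃ A : Finset (F2 n), 0 ∉ A ∧ (∀ t ⊆ A, ¬ IsTri t) ∧
      ∀ M : Fin d → F2 n, Function.Injective (lin M) → ∃ a : F2 d, a ≠ 0 ∧ lin M a ∈ A := by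
  -- we may assume that `ε` is the inverse of a natural number
  obtain ⟨k, hk⟩ : ∃ k : ℕ, 1 / ε < k := exists_nat_gt _
  have hk0 : 0 < k := by
    rcases Nat.eq_zero_or_pos k with h | h
    · exfalso
      rw [h] at hk
      have : 0 < 1 / ε := by positivity
      simp only [Nat.cast_zero] at hk
      linarith
    · exact h
  have hkε : 1 ≤ ε * k := by
    rw [div_lt_iff₀ hε] at hk
    linarith
  -- growth
  have hlim : Filter.Tendsto (fun t : ℕ => (t : ℝ) ^ 3 / (2 : ℝ) ^ t) Filter.atTop (nhds 0) :=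
    tendsto_pow_const_div_const_pow_of_one_lt 3 (by norm_num)
  have hc : (0 : ℝ) < 1 / (17 * (8 * k) ^ 3) := by positivity
  have h1 := (hlim.eventually (gt_mem_nhds hc))
  rw [Filter.eventually_atTop] at h1
  obtain ⟨t₀, ht₀⟩ := h1
  refine ⟨4 * k * (t₀ + 1) + 2 * k, fun d hd n hn => ?_⟩
  -- `t = ⌊d / (4 k)⌋`
  set t := d / (4 * k) with ht
  have ht1 : t * (4 * k) ≤ d := Nat.div_mul_le_self d (4 * k)
  have ht2 : d < (t + 1) * (4 * k) := by
    have := Nat.lt_div_mul_add (a := d) (b := 4 * k) (by omega)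
    rw [ht]
    linarith
  have ht3 : t₀ + 1 ≤ t := by
    rw [ht, Nat.le_div_iff_mul_le (by omega)]
    nlinarith
  refine exists_set' d n t ?_ ?_ ?_ ?_
  · nlinarith
  · have h2 := ht₀ t (by omega)
    rw [div_lt_iff₀ (by positivity), one_div, inv_mul_eq_div, lt_div_iff₀ (by positivity)] at h2
    have h3 : d ≤ 8 * k * t := by nlinarith
    have h4 : (17 * d ^ 3 : ℕ) ≤ 17 * (8 * k * t) ^ 3 :=
      Nat.mul_le_mul_left _ (Nat.pow_le_pow_left h3 3)
    refine h4.trans ?_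
    have h5 : ((17 * (8 * k * t) ^ 3 : ℕ) : ℝ) ≤ ((2 ^ t : ℕ) : ℝ) := by
      push_cast
      nlinarith
    exact_mod_cast h5
  · nlinarith
  · -- `n + 3 t + 1 ≤ 2 d`
    have h2 : (n : ℝ) < 2 * d - ε * d := by linarith
    have h3 : (d : ℝ) ≤ ε * k * d := by
      have : (0 : ℝ) ≤ d := by positivity
      nlinarith
    have h4 : (k : ℝ) * n < k * (2 * d) - d := by
      have hk' : (0 : ℝ) < k := by exact_mod_cast hk0
      nlinarith
    have h5 : k * n + d < k * (2 * d) := by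
      have : ((k * n + d : ℕ) : ℝ) < ((k * (2 * d) : ℕ) : ℝ) := by
        push_cast
        linarith
      exact_mod_cast this
    by_contra hcon
    rw [not_le] at hcon
    have h6 : 2 * d ≤ n + 3 * t := by omega
    have h7 : k * (2 * d) ≤ k * (n + 3 * t) := Nat.mul_le_mul_left _ h6
    nlinarith

end Pool.Agent.R69.SumFree
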