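import Pool.Agent.R69.TypedFolkman2

/-!
# Gadgets for arrowing with cliques
-/

set_option autoImplicit false

namespace Pool.Agent.R69.TypedFolkman

open Finset

/-- a set of `a` pairwise adjacent vertices of `G`, all pairs having colour `i` -/
def MonoClique {V κ : Type} (G : SimpleGraph V) (χ : Sym2 V → κ) (i : κ) (a : ℕ) : Prop :=
  ∃ s : Finset V, s.card = a ∧ ∀ x ∈ s, ∀ y ∈ s, x ≠ y → G.Adj x y ∧ χ s(x, y) = i

theorem MonoClique.mono {V κ : Type} {G : SimpleGraph V} {χ : Sym2 V → κ} {i : κ} {a b : ℕ}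
    (h : MonoClique G χ i a) (hba : b ≤ a) : MonoClique G χ i b := by
  obtain ⟨s, hs, h1⟩ := h
  obtain ⟨t, ht, htc⟩ := exists_subset_card_eq (hba.trans hs.ge)
  exact ⟨t, htc, fun x hx y hy hxy => h1 x (ht hx) y (ht hy) hxy⟩

/-- the union of the graphs of all types -/
def unionGraph {V T : Type} (Γ : T → SimpleGraph V) : SimpleGraph V where
  Adj x y := ∃ u, (Γ u).Adj x y
  symm := ⟨fun _ _ ⟨u, h⟩ => ⟨u, h.symm⟩⟩
  loopless := ⟨fun _ ⟨_, h⟩ => h.ne rfl⟩

/-- If all types have cliques of size less than `k u + 1` and are disjoint, there is a colouring of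
the union with the types. -/
theorem exists_type_colouring {V T : Type} [Nonempty T] (Γ : T → SimpleGraph V)
    (hd : ∀ u v x y, (Γ u).Adj x y → (Γ v).Adj x y → u = v) :
    ∃ χ : Sym2 V → T, ∀ u x y, (Γ u).Adj x y → χ s(x, y) = u := by
  classical
  let f : V → V → T := fun x y => if h : ∃ u, (Γ u).Adj x y then h.choose
    else Classical.arbitrary T
  have hf : ∀ u x y, (Γ u).Adj x y → f x y = u := by
    intro u x y h
    have hex : ∃ u, (Γ u).Adj x y := ⟨u, h⟩
    simp only [f, dif_pos hex]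
    exact hd _ _ _ _ hex.choose_spec h
  have hsymm : ∀ x y, f x y = f y x := by
    intro x y
    by_cases hex : ∃ u, (Γ u).Adj x y
    · obtain ⟨u, hu⟩ := hex
      rw [hf u x y hu, hf u y x hu.symm]
    · have hex' : ¬ ∃ u, (Γ u).Adj y x := fun ⟨u, hu⟩ => hex ⟨u, hu.symm⟩
      simp only [f, dif_neg hex, dif_neg hex']
  exact ⟨Sym2.lift ⟨f, hsymm⟩, fun u x y h => by simpa using hf u x y h⟩

/-- the typed structure consisting of disjoint pieces, given by the types of the pairs -/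
def pieces {ι T : Type} {m : ℕ} (typ : ι → Fin m → Fin m → Option T)
    (hs : ∀ g x y, typ g x y = typ g y x) (u : T) : SimpleGraph (ι × Fin m) where
  Adj p q := p.1 = q.1 ∧ p.2 ≠ q.2 ∧ typ p.1 p.2 q.2 = some u
  symm := ⟨fun p q h => ⟨h.1.symm, h.2.1.symm, by rw [hs, ← h.1]; exact h.2.2⟩⟩
  loopless := ⟨fun _ h => h.2.1 rfl⟩

theorem pieces_disj {ι T : Type} {m : ℕ} (typ : ι → Fin m → Fin m → Option T)
    (hs : ∀ g x y, typ g x y = typ g y x) (u v : T) (p q : ι × Fin m)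
    (h1 : (pieces typ hs u).Adj p q) (h2 : (pieces typ hs v).Adj p q) : u = v :=
  Option.some_injective _ (h1.2.2.symm.trans h2.2.2)

theorem pieces_cliqueFree {ι T : Type} {m : ℕ} (typ : ι → Fin m → Fin m → Option T)
    (hs : ∀ g x y, typ g x y = typ g y x) (u : T) (n : ℕ) (hn : 1 ≤ n)
    (h : ∀ g, ∀ s : Finset (Fin m), s.card = n →
      ∃ x ∈ s, ∃ y ∈ s, x ≠ y ∧ typ g x y ≠ some u) :
    (pieces typ hs u).CliqueFree n := by
  classical
  intro s hcl
  have hcard := hcl.card_eq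
  have hcl := hcl.isClique
  obtain ⟨p, hp⟩ : s.Nonempty := by rw [← card_pos]; omega
  have hfst : ∀ q ∈ s, q.1 = p.1 := by
    intro q hq
    by_cases hqp : q = p
    · rw [hqp]
    · exact (hcl hq hp hqp).1
  have hinj : Set.InjOn Prod.snd (s : Set (ι × Fin m)) := by
    intro q hq q' hq' h'
    exact Prod.ext ((hfst q hq).trans (hfst q' hq').symm) h'
  obtain ⟨x, hx, y, hy, hxy, hne⟩ := h p.1 (s.image Prod.snd)
    (by rw [card_image_of_injOn hinj, hcard])
  rw [mem_image] at hx hy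
  obtain ⟨q, hq, rfl⟩ := hx
  obtain ⟨q', hq', rfl⟩ := hy
  have hqq : q ≠ q' := fun h => hxy (by rw [h])
  have := (hcl hq hq' hqq).2.2
  rw [hfst q hq] at this
  exact hne this

/-- the special pairs `01` and `23` -/
def sp {m : ℕ} (x y : Fin m) : Bool :=
  ((x : ℕ) == 0 && (y : ℕ) == 1) || ((x : ℕ) == 1 && (y : ℕ) == 0) ||
  ((x : ℕ) == 2 && (y : ℕ) == 3) || ((x : ℕ) == 3 && (y : ℕ) == 2)

theorem sp_symm {m : ℕ} (x y : Fin m) : sp x y = sp y x := by
  rw [Bool.eq_iff_iff]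
  simp only [sp, Bool.or_eq_true, Bool.and_eq_true, beq_iff_eq]
  tauto

/-- all but one of the vertices contain a special pair -/
theorem exists_sp {k : ℕ} (hk : 3 ≤ k) (s : Finset (Fin (k + 1))) (hs : s.card = k) :
    ∃ x ∈ s, ∃ y ∈ s, x ≠ y ∧ sp x y = true := by
  classical
  have hc : sᶜ.card = 1 := by
    rw [card_compl, Fintype.card_fin, hs]
    omega
  obtain ⟨z, hz⟩ := card_eq_one.1 hc
  have hmem : ∀ x : Fin (k + 1), x ≠ z → x ∈ s := by
    intro x hx
    by_contra hcon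
    have : x ∈ sᶜ := mem_compl.2 hcon
    rw [hz, mem_singleton] at this
    exact hx this
  by_cases h : (z : ℕ) = 0 ∨ (z : ℕ) = 1
  · refine ⟨⟨2, by omega⟩, hmem _ ?_, ⟨3, by omega⟩, hmem _ ?_, by simp, by simp [sp]⟩
    · intro h'
      rw [← h'] at h
      simp at h
    · intro h'
      rw [← h'] at h
      simp at h
  · push Not at h
    refine ⟨⟨0, by omega⟩, hmem _ ?_, ⟨1, by omega⟩, hmem _ ?_, by simp, by simp [sp]⟩
    · intro h'
      exact h.1 (by rw [← h'])
    · intro h'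
      exact h.2 (by rw [← h'])

/-- three vertices contain a pair that is not special -/
theorem exists_not_sp {m : ℕ} (s : Finset (Fin m)) (hs : 3 ≤ s.card) :
    ∃ x ∈ s, ∃ y ∈ s, x ≠ y ∧ sp x y = false := by
  classical
  by_contra hcon
  push Not at hcon
  obtain ⟨x, hx, y, hy, z, hz, hxy, hxz, hyz⟩ := two_lt_card.1 (show 2 < s.card by omega)
  have h1 := hcon x hx y hy hxy
  have h2 := hcon x hx z hz hxz
  have h3 : (y : ℕ) ≠ z := fun h => hyz (Fin.ext h)
  simp only [ne_eq, Bool.not_eq_false] at h1 h2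
  simp only [sp, Bool.or_eq_true, Bool.and_eq_true, beq_iff_eq] at h1 h2
  omega

/-- a clique in a piece all of whose types have the colour `col` gives a clique of that colour -/
theorem monoClique_of_piece {ι T κ : Type} {m n : ℕ} (typ : ι → Fin m → Fin m → Option T)
    (hs : ∀ g x y, typ g x y = typ g y x) (Γ : T → SimpleGraph (Fin n)) (χ : Sym2 (Fin n) → κ)
    (e : ι × Fin m → Fin n) (c : T → κ)
    (he : ∀ p q u, (pieces typ hs u).Adj p q → (Γ u).Adj (e p) (e q) ∧ χ s(e p, e q) = c u)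
    (g : ι) (s : Finset (Fin m)) (col : κ)
    (h : ∀ x ∈ s, ∀ y ∈ s, x ≠ y → ∃ u, typ g x y = some u ∧ c u = col) :
    MonoClique (unionGraph Γ) χ col s.card := by
  classical
  have key : ∀ x ∈ s, ∀ y ∈ s, x ≠ y → (unionGraph Γ).Adj (e (g, x)) (e (g, y)) ∧
      χ s(e (g, x), e (g, y)) = col := by
    intro x hx y hy hxy
    obtain ⟨u, hu, hcu⟩ := h x hx y hy hxy
    obtain ⟨h1, h2⟩ := he (g, x) (g, y) u ⟨rfl, hxy, hu⟩
    exact ⟨⟨u, h1⟩, h2.trans hcu⟩
  refine ⟨s.image fun x => e (g, x), ?_, ?_⟩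
  · apply card_image_of_injOn
    intro x hx y hy hxy
    by_contra hne
    exact (key x hx y hy hne).1.ne hxy
  · intro a ha b hb hab
    rw [mem_image] at ha hb
    obtain ⟨x, hx, rfl⟩ := ha
    obtain ⟨y, hy, rfl⟩ := hb
    exact key x hx y hy (fun h => hab (by rw [h]))

/-- the vertices other than `1` and `3` are a set of `k - 1` vertices without special pair -/
theorem exists_set_not_sp {k : ℕ} (hk : 3 ≤ k) : ∃ s : Finset (Fin (k + 1)), s.card = k - 1 ∧
    ∀ x ∈ s, ∀ y ∈ s, x ≠ y → sp x y = false := by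
  classical
  refine ⟨(univ.erase ⟨1, by omega⟩).erase ⟨3, by omega⟩, ?_, ?_⟩
  · rw [card_erase_of_mem, card_erase_of_mem (mem_univ _), card_univ, Fintype.card_fin]
    · omega
    · rw [mem_erase]
      exact ⟨by simp, mem_univ _⟩
  · intro x hx y hy _
    rw [mem_erase, mem_erase] at hx hy
    have h1 : (x : ℕ) ≠ 3 := fun h => hx.1 (Fin.ext h)
    have h2 : (x : ℕ) ≠ 1 := fun h => hx.2.1 (Fin.ext h)
    have h3 : (y : ℕ) ≠ 3 := fun h => hy.1 (Fin.ext h)
    have h4 : (y : ℕ) ≠ 1 := fun h => hy.2.1 (Fin.ext h)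
    rw [Bool.eq_false_iff]
    simp only [sp, ne_eq, Bool.or_eq_true, Bool.and_eq_true, beq_iff_eq]
    omega

end Pool.Agent.R69.TypedFolkman
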